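import Pool.Agent.KS6_70.EC.Lim
import Pool.Graph.R_seed8.R993.EC.Classical

/-! The classical models with five observed nodes `Y = 0`, `Z = 1`, `A = 2`, `B = 3`, `C = 4` and
two unobserved ones `S` (parent of `Z`, `A`) and `T` (parent of `A`, `B`, `C`): independence of `Y`
and `A` and a Bell inequality. -/

set_option autoImplicit false

namespace Pool.Agent.KS6_70.EC

open Pool.Agent.R993.EC

/-- the point with the given coordinates -/
def mk5 {k : Fin 5 → Type} (y : k 0) (z : k 1) (a : k 2) (b : k 3) (c : k 4) : Pt k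
  | 0 => y
  | 1 => z
  | 2 => a
  | 3 => b
  | 4 => c

theorem mk5_eta {k : Fin 5 → Type} (ω : Pt k) : mk5 (ω 0) (ω 1) (ω 2) (ω 3) (ω 4) = ω := by
  funext i
  fin_cases i <;> rfl

/-- the points as tuples -/
def eqv5 (k : Fin 5 → Type) : (k 0 × k 1 × k 2 × k 3 × k 4) ≃ Pt k where
  toFun p := mk5 p.1 p.2.1 p.2.2.1 p.2.2.2.1 p.2.2.2.2
  invFun ω := (ω 0, ω 1, ω 2, ω 3, ω 4)
  left_inv _ := rfl
  right_inv ω := mk5_eta ω

theorem sum5 {k : Fin 5 → Type} [∀ a, Fintype (k a)] (f : Pt k → ℝ) :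
    ∑ ω, f ω = ∑ y, ∑ z, ∑ a, ∑ b, ∑ c, f (mk5 y z a b c) := by
  rw [← (eqv5 k).sum_comp f]
  simp only [Fintype.sum_prod_type]
  rfl

/-- the classical models -/
structure Cl5 {k : Fin 5 → Type} [∀ a, Fintype (k a)] (P : Pt k → ℝ) where
  S : Type
  T : Type
  [fS : Fintype S]
  [fT : Fintype T]
  μ : S → ℝ
  ν : T → ℝ
  pY : k 0 → ℝ
  pZ : k 0 → S → k 1 → ℝ
  pA : S → T → k 2 → ℝ
  pB : k 0 → T → k 3 → ℝ
  pC : k 1 → T → k 4 → ℝ
  μ0 : ∀ s, 0 ≤ μ s
  μ1 : ∑ s, μ s = 1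
  ν0 : ∀ s, 0 ≤ ν s
  ν1 : ∑ s, ν s = 1
  Y0 : ∀ y, 0 ≤ pY y
  Y1 : ∑ y, pY y = 1
  Z0 : ∀ y s z, 0 ≤ pZ y s z
  Z1 : ∀ y s, ∑ z, pZ y s z = 1
  A0 : ∀ s t a, 0 ≤ pA s t a
  A1 : ∀ s t, ∑ a, pA s t a = 1
  B0 : ∀ y t b, 0 ≤ pB y t b
  B1 : ∀ y t, ∑ b, pB y t b = 1
  C0 : ∀ z t c, 0 ≤ pC z t c
  C1 : ∀ z t, ∑ c, pC z t c = 1
  eq : ∀ ω, P ω = ∑ s, ∑ t, μ s * ν t *
    (pY (ω 0) * pZ (ω 0) s (ω 1) * pA s t (ω 2) * pB (ω 0) t (ω 3) * pC (ω 1) t (ω 4))

attribute [instance] Cl5.fS Cl5.fT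

variable {k : Fin 5 → Type} [∀ a, Fintype (k a)] {P : Pt k → ℝ}

theorem sum3 {α β γ : Type} [Fintype α] [Fintype β] [Fintype γ] (K : ℝ) (F : α → ℝ) (G : β → ℝ)
    (H : γ → ℝ) : ∑ a, ∑ b, ∑ c, K * (F a * G b * H c) =
      K * (∑ a, F a) * (∑ b, G b) * (∑ c, H c) := by
  have h1 : ∀ a b, ∑ c, K * (F a * G b * H c) = K * (F a * G b) * ∑ c, H c := fun a b => by
    rw [Finset.mul_sum]
    exact Finset.sum_congr rfl fun c _ => by ring
  have h2 : ∀ a, ∑ b, K * (F a * G b) * ∑ c, H c = K * F a * (∑ b, G b) * ∑ c, H c := fun a => by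
    rw [← Finset.sum_mul]
    congr 1
    rw [Finset.mul_sum]
    exact Finset.sum_congr rfl fun c _ => by ring
  simp only [h1, h2]
  rw [← Finset.sum_mul, ← Finset.sum_mul, ← Finset.mul_sum]

/-- the general correlation -/
noncomputable def Ex (P : Pt k → ℝ) (g : k 0 → k 1 → ℝ) (fA : k 2 → ℝ) (fB : k 3 → ℝ)
    (fC : k 4 → ℝ) : ℝ :=
  ∑ ω : Pt k, g (ω 0) (ω 1) * fA (ω 2) * fB (ω 3) * fC (ω 4) * P ω

namespace Cl5

variable (M : Cl5 P)
include M

theorem ex (g : k 0 → k 1 → ℝ) (fA : k 2 → ℝ) (fB : k 3 → ℝ) (fC : k 4 → ℝ) :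
    Ex P g fA fB fC = ∑ s, ∑ t, M.μ s * M.ν t * ∑ y, ∑ z, g y z * M.pY y * M.pZ y s z *
      (∑ a, fA a * M.pA s t a) * (∑ b, fB b * M.pB y t b) * (∑ c, fC c * M.pC z t c) := by
  unfold Ex
  have h0 : ∀ ω : Pt k, g (ω 0) (ω 1) * fA (ω 2) * fB (ω 3) * fC (ω 4) * P ω =
      ∑ s, ∑ t, g (ω 0) (ω 1) * fA (ω 2) * fB (ω 3) * fC (ω 4) * (M.μ s * M.ν t *
      (M.pY (ω 0) * M.pZ (ω 0) s (ω 1) * M.pA s t (ω 2) * M.pB (ω 0) t (ω 3) *
        M.pC (ω 1) t (ω 4))) := fun ω => by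
    rw [M.eq, Finset.mul_sum]
    exact Finset.sum_congr rfl fun s _ => Finset.mul_sum _ _ _
  simp only [h0]
  rw [Finset.sum_comm]
  refine Finset.sum_congr rfl fun s _ => ?_
  rw [Finset.sum_comm]
  refine Finset.sum_congr rfl fun t _ => ?_
  rw [sum5, Finset.mul_sum]
  refine Finset.sum_congr rfl fun y _ => ?_
  rw [Finset.mul_sum]
  refine Finset.sum_congr rfl fun z _ => ?_
  have h1 := sum3 (M.μ s * M.ν t * (g y z * M.pY y * M.pZ y s z)) (fun a => fA a * M.pA s t a)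
    (fun b => fB b * M.pB y t b) (fun c => fC c * M.pC z t c)
  rw [show M.μ s * M.ν t * (g y z * M.pY y * M.pZ y s z * (∑ a, fA a * M.pA s t a) *
    (∑ b, fB b * M.pB y t b) * ∑ c, fC c * M.pC z t c) = M.μ s * M.ν t *
    (g y z * M.pY y * M.pZ y s z) * (∑ a, fA a * M.pA s t a) *
    (∑ b, fB b * M.pB y t b) * ∑ c, fC c * M.pC z t c by ring, ← h1]
  refine Finset.sum_congr rfl fun a _ => Finset.sum_congr rfl fun b _ =>
    Finset.sum_congr rfl fun c _ => ?_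
  simp only [mk5]
  ring

theorem nonneg (ω : Pt k) : 0 ≤ P ω := by
  rw [M.eq]
  refine Finset.sum_nonneg fun s _ => Finset.sum_nonneg fun t _ => ?_
  have := M.μ0 s
  have := M.ν0 t
  have := M.Y0 (ω 0)
  have := M.Z0 (ω 0) s (ω 1)
  have := M.A0 s t (ω 2)
  have := M.B0 (ω 0) t (ω 3)
  have := M.C0 (ω 1) t (ω 4)
  positivity

theorem sum_one : ∑ ω, P ω = 1 := by
  have h := M.ex (fun _ _ => 1) (fun _ => 1) (fun _ => 1) (fun _ => 1)
  simp only [Ex, one_mul, M.A1, M.B1, M.C1, mul_one] at h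
  rw [h]
  have h1 : ∀ s, ∑ y, ∑ z, M.pY y * M.pZ y s z = 1 := fun s => by
    simp only [← Finset.mul_sum, M.Z1, mul_one, M.Y1]
  simp only [h1]
  simp only [mul_one, ← Finset.mul_sum, M.ν1, M.μ1]

/-- the correlation of `Y` and `A` -/
theorem exYA (g : k 0 → ℝ) (fA : k 2 → ℝ) :
    ∑ ω : Pt k, g (ω 0) * fA (ω 2) * P ω =
      (∑ y, g y * M.pY y) * ∑ s, ∑ t, M.μ s * M.ν t * ∑ a, fA a * M.pA s t a := by
  have h := M.ex (fun y _ => g y) fA (fun _ => 1) (fun _ => 1)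
  simp only [Ex, one_mul, M.B1, M.C1, mul_one] at h
  rw [h, Finset.mul_sum]
  refine Finset.sum_congr rfl fun s _ => ?_
  rw [Finset.mul_sum]
  refine Finset.sum_congr rfl fun t _ => ?_
  have h1 : ∑ y, ∑ z, g y * M.pY y * M.pZ y s z * ∑ a, fA a * M.pA s t a =
      (∑ y, g y * M.pY y) * ∑ a, fA a * M.pA s t a := by
    rw [Finset.sum_mul]
    refine Finset.sum_congr rfl fun y _ => ?_
    rw [← Finset.sum_mul, ← Finset.mul_sum, M.Z1, mul_one]
  rw [h1]
  ring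

theorem indep (a : k 2) (y : k 0) : pr P (fun x : Pt k => (x 2, x 0)) (a, y) =
    pr P (fun x : Pt k => x 2) a * pr P (fun x : Pt k => x 0) y := by
  classical
  have h1 : pr P (fun x : Pt k => (x 2, x 0)) (a, y) = ∑ ω : Pt k,
      (fun v => if v = y then (1 : ℝ) else 0) (ω 0) * (fun v => if v = a then (1 : ℝ) else 0) (ω 2)
        * P ω := by
    unfold pr
    refine Finset.sum_congr rfl fun ω _ => ?_
    simp only [Prod.mk.injEq]
    by_cases h : ω 2 = a <;> by_cases h' : ω 0 = y <;> simp [h, h']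
  have h2 : pr P (fun x : Pt k => x 2) a = ∑ ω : Pt k,
      (fun _ => (1 : ℝ)) (ω 0) * (fun v => if v = a then (1 : ℝ) else 0) (ω 2) * P ω := by
    unfold pr
    refine Finset.sum_congr rfl fun ω _ => ?_
    by_cases h : ω 2 = a <;> simp [h]
  have h3 : pr P (fun x : Pt k => x 0) y = ∑ ω : Pt k,
      (fun v => if v = y then (1 : ℝ) else 0) (ω 0) * (fun _ => (1 : ℝ)) (ω 2) * P ω := by
    unfold pr
    refine Finset.sum_congr rfl fun ω _ => ?_
    by_cases h : ω 0 = y <;> simp [h]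
  rw [h1, h2, h3, M.exYA (fun v => if v = y then (1 : ℝ) else 0)
    (fun v => if v = a then (1 : ℝ) else 0), M.exYA (fun _ => 1)
    (fun v => if v = a then (1 : ℝ) else 0), M.exYA (fun v => if v = y then (1 : ℝ) else 0)
    (fun _ => 1)]
  simp only [one_mul, M.Y1, M.A1, mul_one, ← Finset.mul_sum, M.ν1, M.μ1]
  ring

end Cl5

/-- Mermin's inequality for numbers, with other bounds -/
theorem mermin' (α β γ : Fin 2 → ℝ) {a c : ℝ} (ha : 0 ≤ a) (hc : 0 ≤ c) (hα : ∀ i, |α i| ≤ a)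
    (hβ : ∀ i, |β i| ≤ 1) (hγ : ∀ i, |γ i| ≤ c) (σ : Fin 2 → Fin 2 → ℝ)
    (hσ : ∀ i j, σ i j = 1 ∨ σ i j = -1) (hp : σ 0 0 * σ 0 1 * σ 1 0 * σ 1 1 = -1) :
    ∑ i, ∑ j, σ i j * (α i * β j * γ (i + j)) ≤ 2 * (a * c) := by
  rcases ha.eq_or_lt with h | h
  · have h0 : ∀ i, α i = 0 := fun i => abs_nonpos_iff.1 (h ▸ hα i)
    simp only [h0, zero_mul, mul_zero, Finset.sum_const_zero]
    positivity
  rcases hc.eq_or_lt with h' | h'
  · have h0 : ∀ i, γ i = 0 := fun i => abs_nonpos_iff.1 (h' ▸ hγ i)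
    simp only [h0, mul_zero, Finset.sum_const_zero]
    positivity
  have key := mermin (fun i => α i / a) β (fun i => γ i / c)
    (fun i => by
      show |α i / a| ≤ 1
      rw [abs_div, abs_of_pos h, div_le_one h]; exact hα i) hβ
    (fun i => by
      show |γ i / c| ≤ 1
      rw [abs_div, abs_of_pos h', div_le_one h']; exact hγ i) σ hσ hp
  have h1 : ∑ i, ∑ j, σ i j * (α i * β j * γ (i + j)) =
      a * c * ∑ i, ∑ j, σ i j * (α i / a * β j * (γ (i + j) / c)) := by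
    rw [Finset.mul_sum]
    refine Finset.sum_congr rfl fun i _ => ?_
    rw [Finset.mul_sum]
    refine Finset.sum_congr rfl fun j _ => ?_
    field_simp
  rw [h1]
  nlinarith [mul_pos h h']

namespace Cl5

variable (M : Cl5 P)
include M

open scoped Classical in
theorem exYZ (y0 : k 0) (h : k 1 → ℝ) (fA : k 2 → ℝ) (fB : k 3 → ℝ) (fC : k 4 → ℝ) :
    Ex P (fun v w => if v = y0 then h w else 0) fA fB fC = M.pY y0 * ∑ s, M.μ s *
      ∑ z, h z * M.pZ y0 s z * ∑ t, M.ν t * ((∑ b, fB b * M.pB y0 t b) *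
        (∑ c, fC c * M.pC z t c) * (∑ a, fA a * M.pA s t a)) := by
  rw [M.ex, Finset.mul_sum]
  refine Finset.sum_congr rfl fun s _ => ?_
  have h1 : ∀ t, ∑ y, ∑ z, (if y = y0 then h z else 0) * M.pY y * M.pZ y s z *
      (∑ a, fA a * M.pA s t a) * (∑ b, fB b * M.pB y t b) * (∑ c, fC c * M.pC z t c) =
      ∑ z, h z * M.pY y0 * M.pZ y0 s z *
      (∑ a, fA a * M.pA s t a) * (∑ b, fB b * M.pB y0 t b) * (∑ c, fC c * M.pC z t c) := by
    intro t
    rw [Finset.sum_eq_single y0]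
    · simp only [if_true]
    · intro y _ hy
      simp only [if_neg hy, zero_mul, Finset.sum_const_zero]
    · exact fun h => absurd (Finset.mem_univ _) h
  simp only [h1]
  simp only [Finset.mul_sum]
  rw [Finset.sum_comm]
  refine Finset.sum_congr rfl fun z _ => ?_
  refine Finset.sum_congr rfl fun t _ => ?_
  simp only [← Finset.mul_sum]
  ring

open scoped Classical in
/-- the correlation in the context `(y, z)` -/
theorem exC (y0 : k 0) (z0 : k 1) (fA : k 2 → ℝ) (fB : k 3 → ℝ) (fC : k 4 → ℝ) :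
    Ex P (fun v w => if v = y0 then (if w = z0 then 1 else 0) else 0) fA fB fC =
      M.pY y0 * ∑ s, M.μ s * (M.pZ y0 s z0 * ∑ t, M.ν t * ((∑ b, fB b * M.pB y0 t b) *
        (∑ c, fC c * M.pC z0 t c) * (∑ a, fA a * M.pA s t a))) := by
  rw [M.exYZ y0 (fun w => if w = z0 then 1 else 0)]
  congr 1
  refine Finset.sum_congr rfl fun s _ => ?_
  congr 1
  rw [Finset.sum_eq_single z0]
  · rw [if_pos rfl, one_mul]
  · intro z _ hz
    rw [if_neg hz, zero_mul, zero_mul]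
  · exact fun h => absurd (Finset.mem_univ _) h

/-- the probability of `𝒜` given `s` -/
noncomputable def q (f : k 2 → ℝ) (s : M.S) : ℝ := ∑ t, M.ν t * ∑ a, f a * M.pA s t a

open scoped Classical in
theorem exE (y0 : k 0) (z0 : k 1) (fA : k 2 → ℝ) :
    Ex P (fun v w => if v = y0 then (if w = z0 then 0 else 1) else 0) fA (fun _ => 1)
      (fun _ => 1) = M.pY y0 * ∑ s, M.μ s * ((1 - M.pZ y0 s z0) * M.q fA s) := by
  rw [M.exYZ y0 (fun w => if w = z0 then 0 else 1)]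
  congr 1
  refine Finset.sum_congr rfl fun s _ => ?_
  congr 1
  simp only [one_mul, M.B1, M.C1]
  change ∑ z, (if z = z0 then (0 : ℝ) else 1) * M.pZ y0 s z * M.q fA s = _
  rw [← Finset.sum_mul]
  congr 1
  have h1 := M.Z1 y0 s
  rw [← Finset.add_sum_erase _ _ (Finset.mem_univ z0)] at h1
  rw [← Finset.add_sum_erase _ _ (Finset.mem_univ z0), if_pos rfl, zero_mul, zero_add]
  have h2 : ∑ z ∈ Finset.univ.erase z0, (if z = z0 then (0 : ℝ) else 1) * M.pZ y0 s z =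
      ∑ z ∈ Finset.univ.erase z0, M.pZ y0 s z := by
    refine Finset.sum_congr rfl fun z hz => ?_
    rw [if_neg (Finset.ne_of_mem_erase hz), one_mul]
  rw [h2]
  linarith

open scoped Classical in
theorem exM (y0 : k 0) (fA : k 2 → ℝ) :
    Ex P (fun v _ => if v = y0 then 1 else 0) fA (fun _ => 1)
      (fun _ => 1) = M.pY y0 * ∑ s, M.μ s * M.q fA s := by
  rw [M.exYZ y0 (fun _ => 1)]
  congr 1
  refine Finset.sum_congr rfl fun s _ => ?_
  congr 1
  simp only [one_mul, M.B1, M.C1]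
  change ∑ z, M.pZ y0 s z * M.q fA s = _
  rw [← Finset.sum_mul, M.Z1, one_mul]

theorem exA (fA : k 2 → ℝ) :
    Ex P (fun _ _ => 1) fA (fun _ => 1) (fun _ => 1) = ∑ s, M.μ s * M.q fA s := by
  have h := M.exYA (fun _ => 1) fA
  unfold Ex
  simp only [one_mul, mul_one, M.Y1] at h ⊢
  rw [h]
  refine Finset.sum_congr rfl fun s _ => ?_
  unfold q
  rw [Finset.mul_sum]
  exact Finset.sum_congr rfl fun t _ => by ring

omit [∀ a, Fintype (k a)] M in
theorem avg {ι : Type} [Fintype ι] (p f : ι → ℝ) (h0 : ∀ i, 0 ≤ p i) (h1 : ∑ i, p i = 1)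
    (hf : ∀ i, |f i| ≤ 1) : |∑ i, f i * p i| ≤ 1 := by
  refine (Finset.abs_sum_le_sum_abs _ _).trans ?_
  rw [← h1]
  refine Finset.sum_le_sum fun i _ => ?_
  rw [abs_mul, abs_of_nonneg (h0 i)]
  exact mul_le_of_le_one_left (h0 i) (hf i)

theorem q_nonneg {f : k 2 → ℝ} (hf : ∀ a, 0 ≤ f a) (s : M.S) : 0 ≤ M.q f s :=
  Finset.sum_nonneg fun t _ => mul_nonneg (M.ν0 t)
    (Finset.sum_nonneg fun a _ => mul_nonneg (hf a) (M.A0 s t a))

theorem q_rest (f g : k 2 → ℝ) (s : M.S) :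
    M.q (fun a => 1 - f a - g a) s = 1 - M.q f s - M.q g s := by
  unfold q
  have h : ∀ t, ∑ a, (1 - f a - g a) * M.pA s t a =
      1 - ∑ a, f a * M.pA s t a - ∑ a, g a * M.pA s t a := fun t => by
    simp only [sub_mul, one_mul, Finset.sum_sub_distrib, M.A1]
  simp only [h]
  simp only [mul_sub, mul_one, Finset.sum_sub_distrib, M.ν1]

open scoped Classical in
/-- **The Bell inequality.** -/
theorem bell (y : Fin 2 → k 0) (z : Fin 2 → k 1) (hz : z 0 ≠ z 1) (A : Fin 2 → k 2 → ℝ)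
    (h0 : ∀ x a, 0 ≤ A x a) (h1 : ∀ a, A 0 a + A 1 a ≤ 1) (sA : k 2 → ℝ) (sB : k 3 → ℝ)
    (sC : k 4 → ℝ) (hA : ∀ a, |sA a| ≤ 1) (hB : ∀ a, |sB a| ≤ 1) (hC : ∀ a, |sC a| ≤ 1)
    (σ : Fin 2 → Fin 2 → ℝ) (hσ : ∀ i j, σ i j = 1 ∨ σ i j = -1)
    (hs : σ 0 0 * σ 0 1 * σ 1 0 * σ 1 1 = -1) {m p : ℝ}
    (hm : ∀ x, Ex P (fun _ _ => 1) (A x) (fun _ => 1) (fun _ => 1) ≤ m)
    (hp : ∀ i, Ex P (fun v _ => if v = y i then 1 else 0) (fun _ => 1) (fun _ => 1)
      (fun _ => 1) ≤ p) :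
    ∑ i, ∑ j, σ i j *
      Ex P (fun v w => if v = y i then (if w = z j then 1 else 0) else 0) sA sB sC ≤
    2 * (p * m) + ∑ i, ∑ j,
      (Ex P (fun v w => if v = y i then (if w = z j then 0 else 1) else 0) (A (i + j))
          (fun _ => 1) (fun _ => 1) +
        Ex P (fun v w => if v = y i then (if w = z (j + 1) then 0 else 1) else 0)
          (A (i + j + 1)) (fun _ => 1) (fun _ => 1) +
        Ex P (fun v _ => if v = y i then 1 else 0) (fun a => 1 - A 0 a - A 1 a) (fun _ => 1)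
          (fun _ => 1)) := by
  simp only [M.exC, M.exE, M.exM, M.exA] at hm hp ⊢
  have hp' : ∀ i, M.pY (y i) ≤ p := fun i => by
    have h2 : ∀ s, M.q (fun _ => 1) s = 1 := fun s => by
      simp only [q, one_mul, M.A1, mul_one, M.ν1]
    have := hp i
    simp only [h2, mul_one, M.μ1] at this
    exact this
  let a : M.S → M.T → ℝ := fun s t => ∑ a, sA a * M.pA s t a
  let b : Fin 2 → M.T → ℝ := fun i t => ∑ b, sB b * M.pB (y i) t b
  let c : Fin 2 → M.T → ℝ := fun j t => ∑ c, sC c * M.pC (z j) t c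
  have ha : ∀ s t, |a s t| ≤ 1 := fun s t => avg _ _ (M.A0 s t) (M.A1 s t) hA
  have hb : ∀ i t, |b i t| ≤ 1 := fun i t => avg _ _ (M.B0 _ t) (M.B1 _ t) hB
  have hc : ∀ j t, |c j t| ≤ 1 := fun j t => avg _ _ (M.C0 _ t) (M.C1 _ t) hC
  have hu1 : ∀ i s, M.pZ (y i) s (z 0) + M.pZ (y i) s (z 1) ≤ 1 := fun i s => by
    rw [← M.Z1 (y i) s, ← Finset.sum_pair hz]
    exact Finset.sum_le_sum_of_subset_of_nonneg (Finset.subset_univ _) fun v _ _ => M.Z0 _ _ _
  have hu2 : ∀ i j s, M.pZ (y i) s (z j) + M.pZ (y i) s (z (j + 1)) ≤ 1 := by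
    intro i j s
    fin_cases j
    · exact hu1 i s
    · have := hu1 i s
      show M.pZ (y i) s (z 1) + M.pZ (y i) s (z 0) ≤ 1
      linarith
  have hq0 : ∀ x s, 0 ≤ M.q (A x) s := fun x s => M.q_nonneg (h0 x) s
  have hq1 : ∀ s, M.q (A 0) s + M.q (A 1) s ≤ 1 := fun s => by
    have h2 := M.q_rest (A 0) (A 1) s
    have h3 := M.q_nonneg (f := fun a => 1 - A 0 a - A 1 a) (fun a => by linarith [h1 a]) s
    linarith
  have hq2 : ∀ x s, M.q (A x) s + M.q (A (x + 1)) s = M.q (A 0) s + M.q (A 1) s := by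
    intro x s
    fin_cases x
    · rfl
    · exact add_comm _ _
  have hI : ∀ i j s, |∑ t, M.ν t * (b i t * c j t * a s t)| ≤ 1 := by
    intro i j s
    have h2 : ∑ t, M.ν t * (b i t * c j t * a s t) = ∑ t, (b i t * c j t * a s t) * M.ν t :=
      Finset.sum_congr rfl fun t _ => mul_comm _ _
    rw [h2]
    refine avg _ _ M.ν0 M.ν1 fun t => ?_
    rw [abs_mul, abs_mul]
    exact mul_le_one₀ (mul_le_one₀ (hb i t) (abs_nonneg _) (hc j t)) (abs_nonneg _) (ha s t)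
  have hterm : ∀ i j, σ i j * (M.pY (y i) * ∑ s, M.μ s * (M.pZ (y i) s (z j) *
      ∑ t, M.ν t * (b i t * c j t * a s t))) ≤
      σ i j * (M.pY (y i) * ∑ s, M.μ s * (M.q (A (i + j)) s *
      ∑ t, M.ν t * (b i t * c j t * a s t))) +
      (M.pY (y i) * ∑ s, M.μ s * ((1 - M.pZ (y i) s (z j)) * M.q (A (i + j)) s) +
        M.pY (y i) * ∑ s, M.μ s * ((1 - M.pZ (y i) s (z (j + 1))) * M.q (A (i + j + 1)) s) +
        M.pY (y i) * ∑ s, M.μ s * M.q (fun a => 1 - A 0 a - A 1 a) s) := by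
    intro i j
    have e : ∀ X Y Z W V : ℝ, (∀ σ' : ℝ, (σ' = 1 ∨ σ' = -1) → σ' * X ≤ σ' * Y + (Z + W + V)) →
        σ i j * (M.pY (y i) * X) ≤ σ i j * (M.pY (y i) * Y) +
          (M.pY (y i) * Z + M.pY (y i) * W + M.pY (y i) * V) := by
      intro X Y Z W V h
      have h2 := mul_le_mul_of_nonneg_left (h (σ i j) (hσ i j)) (M.Y0 (y i))
      nlinarith
    refine e _ _ _ _ _ fun σ' hσ' => ?_
    rw [Finset.mul_sum, Finset.mul_sum, ← Finset.sum_add_distrib, ← Finset.sum_add_distrib,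
      ← Finset.sum_add_distrib]
    refine Finset.sum_le_sum fun s _ => ?_
    have hI' := abs_le.1 (hI i j s)
    set I := ∑ t, M.ν t * (b i t * c j t * a s t)
    have g0 := M.μ0 s
    have g1 := hu2 i j s
    have g2 := M.Z0 (y i) s (z j)
    have g3 := M.Z0 (y i) s (z (j + 1))
    have g4 := hq0 (i + j) s
    have g5 := hq0 (i + j + 1) s
    have g6 := hq1 s
    have g7 := hq2 (i + j) s
    rw [M.q_rest, sub_sub, ← g7]
    rw [← g7] at g6
    set u := M.pZ (y i) s (z j)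
    set u' := M.pZ (y i) s (z (j + 1))
    set q := M.q (A (i + j)) s
    set q' := M.q (A (i + j + 1)) s
    have key : σ' * (u * I) - σ' * (q * I) ≤ (1 - u) * q + (1 - u') * q' + (1 - (q + q')) := by
      have k1 : σ' * (u * I) - σ' * (q * I) ≤ |u - q| := by
        have k2 : σ' * (u * I) - σ' * (q * I) = (u - q) * (σ' * I) := by ring
        rw [k2]
        refine (le_abs_self _).trans ?_
        rw [abs_mul]
        refine mul_le_of_le_one_right (abs_nonneg _) ?_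
        rcases hσ' with rfl | rfl
        · rw [one_mul]; exact hI i j s
        · rw [neg_one_mul, abs_neg]; exact hI i j s
      refine k1.trans (abs_le.2 ⟨?_, ?_⟩)
      · nlinarith [mul_nonneg (sub_nonneg.2 (show u ≤ 1 by linarith)) g4,
          mul_nonneg (sub_nonneg.2 (show u' ≤ 1 by linarith)) g5, mul_nonneg g2
          (sub_nonneg.2 (show q ≤ 1 by linarith))]
      · nlinarith [mul_nonneg (sub_nonneg.2 g1) g5, mul_nonneg g2 (sub_nonneg.2 g6),
          mul_nonneg (sub_nonneg.2 (show u ≤ 1 by linarith)) g4, mul_nonneg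
          (sub_nonneg.2 (show u ≤ 1 by linarith)) (sub_nonneg.2 g6)]
    have := mul_le_mul_of_nonneg_left key g0
    nlinarith
  refine (Finset.sum_le_sum fun i _ => Finset.sum_le_sum fun j _ => hterm i j).trans ?_
  simp only [Finset.sum_add_distrib]
  have hmain : ∑ i, ∑ j, σ i j * (M.pY (y i) * ∑ s, M.μ s * (M.q (A (i + j)) s *
      ∑ t, M.ν t * (b i t * c j t * a s t))) ≤ 2 * (p * m) := by
    have h2 : ∀ i j, σ i j * (M.pY (y i) * ∑ s, M.μ s * (M.q (A (i + j)) s *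
        ∑ t, M.ν t * (b i t * c j t * a s t))) = ∑ t, M.ν t * (σ i j * ((M.pY (y i) * b i t) *
          c j t * ∑ s, M.μ s * M.q (A (i + j)) s * a s t)) := by
      intro i j
      simp only [Finset.mul_sum]
      rw [Finset.sum_comm]
      refine Finset.sum_congr rfl fun t _ => Finset.sum_congr rfl fun s _ => ?_
      ring
    have h3 : ∑ i, ∑ j, σ i j * (M.pY (y i) * ∑ s, M.μ s * (M.q (A (i + j)) s *
      ∑ t, M.ν t * (b i t * c j t * a s t))) = ∑ t, M.ν t * ∑ i, ∑ j, (σ i j *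
        ((M.pY (y i) * b i t) * c j t * ∑ s, M.μ s * M.q (A (i + j)) s * a s t)) := by
      simp only [h2, Fin.sum_univ_two]
      simp only [← Finset.sum_add_distrib, ← mul_add]
    rw [h3]
    have hm0 : 0 ≤ m := (Finset.sum_nonneg fun s _ => mul_nonneg (M.μ0 s) (hq0 0 s)).trans (hm 0)
    have hp0 : 0 ≤ p := (M.Y0 _).trans (hp' 0)
    have h4 : ∀ t, ∑ i, ∑ j, (σ i j * ((M.pY (y i) * b i t) * c j t *
        ∑ s, M.μ s * M.q (A (i + j)) s * a s t)) ≤ 2 * (p * m) := by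
      intro t
      refine mermin' (fun i => M.pY (y i) * b i t) (fun j => c j t)
        (fun x => ∑ s, M.μ s * M.q (A x) s * a s t) hp0 hm0 (fun i => ?_) (fun j => hc j t)
        (fun x => ?_) σ hσ hs
      · show |M.pY (y i) * b i t| ≤ p
        rw [abs_mul, abs_of_nonneg (M.Y0 _)]
        exact (mul_le_of_le_one_right (M.Y0 _) (hb i t)).trans (hp' i)
      · show |∑ s, M.μ s * M.q (A x) s * a s t| ≤ m
        refine (Finset.abs_sum_le_sum_abs _ _).trans (le_trans ?_ (hm x))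
        refine Finset.sum_le_sum fun s _ => ?_
        rw [abs_mul, abs_of_nonneg (mul_nonneg (M.μ0 s) (hq0 x s))]
        exact mul_le_of_le_one_right (mul_nonneg (M.μ0 s) (hq0 x s)) (ha s t)
    calc ∑ t, M.ν t * ∑ i, ∑ j, (σ i j *
        ((M.pY (y i) * b i t) * c j t * ∑ s, M.μ s * M.q (A (i + j)) s * a s t))
        ≤ ∑ t, M.ν t * (2 * (p * m)) :=
          Finset.sum_le_sum fun t _ => mul_le_mul_of_nonneg_left (h4 t) (M.ν0 t)
      _ = 2 * (p * m) := by rw [← Finset.sum_mul, M.ν1, one_mul]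
  linarith

end Cl5

end Pool.Agent.KS6_70.EC
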