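import Pool.Agent.KS6_70.EC.QD

/-! Two classical models whose entropy vectors have the quantum one as their midpoint. -/

set_option autoImplicit false

namespace Pool.Agent.KS6_70.EC

open Pool.Agent.V11263.Causal

/-- the alphabets of the unobserved nodes -/
def B2 : Fin 2 → Type
  | 0 => Fin 2
  | 1 => Fin 2 × Fin 2

instance B2.fintype : ∀ u, Fintype (B2 u)
  | 0 => inferInstanceAs (Fintype (Fin 2))
  | 1 => inferInstanceAs (Fintype (Fin 2 × Fin 2))

theorem nB2 : ∀ u, Nonempty (B2 u)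
  | 0 => inferInstanceAs (Nonempty (Fin 2))
  | 1 => inferInstanceAs (Nonempty (Fin 2 × Fin 2))

/-- the conditional probabilities of the observed nodes -/
noncomputable def PP (ga gc : Fin 2 → Fin 2) :
    (o : Fin 5) → (∀ o, A5 o) → (∀ u, B2 u) → A5 o → ℝ
  | 0, _, _, _ => 1 / 2
  | 1, x, l, z => if (show Fin 2 from z) = (show Fin 2 from x 0) + (show Fin 2 from l 0)
      then 1 else 0
  | 2, _, l, a => if (show Fin 2 × Fin 2 from a) = ((show Fin 2 from l 0),
      (show Fin 2 × Fin 2 from l 1).1 + ga (show Fin 2 from l 0)) then 1 else 0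
  | 3, _, l, b => if (show Fin 2 from b) = (show Fin 2 × Fin 2 from l 1).2 then 1 else 0
  | 4, x, l, c => if (show Fin 2 from c) = (show Fin 2 × Fin 2 from l 1).1 +
      (show Fin 2 × Fin 2 from l 1).2 + gc (show Fin 2 from x 1) then 1 else 0

/-- the probabilities of the unobserved nodes -/
noncomputable def RR : (u : Fin 2) → B2 u → ℝ
  | 0, _ => 1 / 2
  | 1, _ => 1 / 4

theorem PP_nonneg (ga gc : Fin 2 → Fin 2) (o : Fin 5) (x : ∀ o, A5 o) (l : ∀ u, B2 u) (a : A5 o) :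
    0 ≤ PP ga gc o x l a := by
  fin_cases o
  · show (0 : ℝ) ≤ 1 / 2
    norm_num
  all_goals
    show (0 : ℝ) ≤ ite _ _ _
    split_ifs <;> norm_num

theorem PP_sum (ga gc : Fin 2 → Fin 2) (o : Fin 5) (x : ∀ o, A5 o) (l : ∀ u, B2 u) :
    ∑ a, PP ga gc o x l a = 1 := by
  fin_cases o
  · refine (Fin.sum_univ_two (fun _ : Fin 2 => (1 / 2 : ℝ))).trans ?_
    norm_num
  · exact Fintype.sum_ite_eq' (ι := Fin 2) _ fun _ => (1 : ℝ)
  · exact Fintype.sum_ite_eq' (ι := Fin 2 × Fin 2) _ fun _ => (1 : ℝ)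
  · exact Fintype.sum_ite_eq' (ι := Fin 2) _ fun _ => (1 : ℝ)
  · exact Fintype.sum_ite_eq' (ι := Fin 2) _ fun _ => (1 : ℝ)

theorem PP_local (ga gc : Fin 2 → Fin 2) (o : Fin 5) (x : ∀ o, A5 o) (l : ∀ u, B2 u)
    (x' : ∀ o, A5 o) (l' : ∀ u, B2 u)
    (h : ∀ o', edge5 (Sum.inl o') (Sum.inl o) = true → x o' = x' o')
    (h' : ∀ u, edge5 (Sum.inr u) (Sum.inl o) = true → l u = l' u) :
    PP ga gc o x l = PP ga gc o x' l' := by
  funext a
  fin_cases o
  · rfl
  · have e : x 0 = x' 0 := h 0 (by decide)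
    have e' : l 0 = l' 0 := h' 0 (by decide)
    show ite ((show Fin 2 from a) = (show Fin 2 from x 0) + (show Fin 2 from l 0)) _ _ = _
    rw [e, e']
    rfl
  · have e' : l 0 = l' 0 := h' 0 (by decide)
    have e2 : l 1 = l' 1 := h' 1 (by decide)
    show ite ((show Fin 2 × Fin 2 from a) = ((show Fin 2 from l 0),
      (show Fin 2 × Fin 2 from l 1).1 + ga (show Fin 2 from l 0))) _ _ = _
    rw [e', e2]
    rfl
  · have e2 : l 1 = l' 1 := h' 1 (by decide)
    show ite ((show Fin 2 from a) = (show Fin 2 × Fin 2 from l 1).2) _ _ = _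
    rw [e2]
    rfl
  · have e : x 1 = x' 1 := h 1 (by decide)
    have e2 : l 1 = l' 1 := h' 1 (by decide)
    show ite ((show Fin 2 from a) = (show Fin 2 × Fin 2 from l 1).1 +
      (show Fin 2 × Fin 2 from l 1).2 + gc (show Fin 2 from x 1)) _ _ = _
    rw [e, e2]
    rfl

theorem RR_nonneg (u : Fin 2) (b : B2 u) : 0 ≤ RR u b := by
  fin_cases u
  · show (0 : ℝ) ≤ 1 / 2
    norm_num
  · show (0 : ℝ) ≤ 1 / 4
    norm_num

theorem RR_sum (u : Fin 2) : ∑ b, RR u b = 1 := by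
  fin_cases u
  · refine (Fin.sum_univ_two (fun _ : Fin 2 => (1 / 2 : ℝ))).trans ?_
    norm_num
  · refine (Finset.sum_const (s := (Finset.univ : Finset (Fin 2 × Fin 2))) (1 / 4 : ℝ)).trans ?_
    rw [Finset.card_univ, Fintype.card_prod, Fintype.card_fin]
    norm_num

/-- the classical models -/
noncomputable def CM (ga gc : Fin 2 → Fin 2) : ClassicalModel K5 where
  α := A5
  β := B2
  nα := nA5
  nβ := nB2
  fα := A5.fintype
  fβ := B2.fintype
  P := PP ga gc
  R u _ _ b := RR u b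
  P_nonneg := PP_nonneg ga gc
  P_sum := PP_sum ga gc
  P_local := PP_local ga gc
  R_nonneg u _ _ b := RR_nonneg u b
  R_sum u _ _ := RR_sum u
  R_local _ _ _ _ _ _ _ := rfl

theorem aux_iff2 : ∀ y z x a b c s g h a0 b0 : Fin 2, (z = y + s ∧ (x = s ∧ a = a0 + g) ∧
    b = b0 ∧ c = a0 + b0 + h) ↔ (s = x ∧ a0 = a + g ∧ b0 = b ∧ z = y + x ∧ c = a + b + (g + h)) := by
  decide

theorem CM_dist_eq (ga gc : Fin 2 → Fin 2) : ((CM ga gc).dist : (∀ o, A5 o) → ℝ) =
    unif (fun y x => ga x + gc (y + x)) := by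
  refine funext fun (ω : ∀ o : Fin 5, A5 o) => ?_
  have h0 := mk5_eta (k := A5) ω
  obtain ⟨y, z, x, a, b, c, h⟩ : ∃ y z x a b c : Fin 2, mk5 (k := A5) y z (x, a) b c = ω :=
    ⟨ω 0, ω 1, (show Fin 2 × Fin 2 from ω 2).1, (show Fin 2 × Fin 2 from ω 2).2, ω 3, ω 4, h0⟩
  rw [← h, unif_mk]
  have h1 : (CM ga gc).dist (mk5 (k := A5) y z (x, a) b c) = ∑ l : ∀ u, B2 u,
      (∏ o, PP ga gc o (mk5 (k := A5) y z (x, a) b c) l (mk5 (k := A5) y z (x, a) b c o)) *
        ∏ u, RR u (l u) := rfl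
  refine h1.trans ?_
  rw [← (piFinTwoEquiv B2).symm.sum_comp, Fintype.sum_prod_type]
  have h2 : ∀ (s : B2 0) (t : B2 1), (∏ o, PP ga gc o (mk5 (k := A5) y z (x, a) b c)
      ((piFinTwoEquiv B2).symm (s, t)) (mk5 (k := A5) y z (x, a) b c o)) *
        ∏ u, RR u ((piFinTwoEquiv B2).symm (s, t) u) =
      1 / 2 * (if z = y + (show Fin 2 from s) then 1 else 0) *
      (if (x, a) = ((show Fin 2 from s), (show Fin 2 × Fin 2 from t).1 + ga (show Fin 2 from s))
        then 1 else 0) * (if b = (show Fin 2 × Fin 2 from t).2 then 1 else 0) *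
      (if c = (show Fin 2 × Fin 2 from t).1 + (show Fin 2 × Fin 2 from t).2 + gc z then 1 else 0) *
      (1 / 2 * (1 / 4)) := by
    intro s t
    rw [Fin.prod_univ_five, Fin.prod_univ_two]
    rfl
  simp only [h2]
  have h3 : ∀ (s a0 b0 : Fin 2), (1 / 2 * (if z = y + s then 1 else 0) *
      (if (x, a) = (s, a0 + ga s) then 1 else 0) * (if b = b0 then 1 else 0) *
      (if c = a0 + b0 + gc z then 1 else 0) * (1 / 2 * (1 / 4)) : ℝ) =
      if s = x then (if a0 = a + ga x then (if b0 = b then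
        (if z = y + x ∧ c = a + b + (ga x + gc (y + x)) then 1 / 16 else 0) else 0) else 0) else 0 := by
    intro s a0 b0
    have h4 := aux_iff2 y z x a b c s (ga s) (gc z) a0 b0
    by_cases hc : z = y + s ∧ (x = s ∧ a = a0 + ga s) ∧ b = b0 ∧ c = a0 + b0 + gc z
    · obtain ⟨e1, e2, e3, e4, e5⟩ := h4.1 hc
      obtain ⟨g1, ⟨g2, g3⟩, g4, g5⟩ := hc
      rw [if_pos g1, if_pos g4, if_pos g5, if_pos e1, if_pos (show (x, a) = (s, a0 + ga s) by
        rw [← g2, g2, ← g3]), if_pos (by rw [e2, e1]), if_pos e3, if_pos ⟨e4, by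
        rw [e5, e1, e4]⟩]
      norm_num
    · have h5 : ¬ (s = x ∧ a0 = a + ga x ∧ b0 = b ∧ (z = y + x ∧ c = a + b + (ga x + gc (y + x)))) := by
        rintro ⟨e1, e2, e3, e4, e5⟩
        refine hc (h4.2 ⟨e1, ?_, e3, e4, ?_⟩)
        · rw [e2, e1]
        · rw [e5, e1, e4]
      have h6 : (if s = x then (if a0 = a + ga x then (if b0 = b then
        (if z = y + x ∧ c = a + b + (ga x + gc (y + x)) then 1 / 16 else 0) else 0) else 0)
          else 0 : ℝ) = 0 := by
        split_ifs with k1 k2 k3 k4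
        · exact absurd ⟨k1, k2, k3, k4⟩ h5
        all_goals rfl
      rw [h6]
      by_cases g1 : z = y + s
      · by_cases g2 : (x, a) = (s, a0 + ga s)
        · by_cases g3 : b = b0
          · have g4 : ¬ (c = a0 + b0 + gc z) := fun g4 => hc ⟨g1, Prod.mk.injEq _ _ _ _ ▸ g2, g3, g4⟩
            rw [if_neg g4]; ring
          · rw [if_neg g3]; ring
        · rw [if_neg g2]; ring
      · rw [if_neg g1]; ring
  have h7 : ∀ s : Fin 2, ∑ t : Fin 2 × Fin 2, (1 / 2 * (if z = y + s then 1 else 0) *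
      (if (x, a) = (s, t.1 + ga s) then 1 else 0) * (if b = t.2 then 1 else 0) *
      (if c = t.1 + t.2 + gc z then 1 else 0) * (1 / 2 * (1 / 4)) : ℝ) =
      if s = x then (if z = y + x ∧ c = a + b + (ga x + gc (y + x)) then 1 / 16 else 0) else 0 := by
    intro s
    rw [Fintype.sum_prod_type]
    simp only [h3]
    by_cases hs : s = x
    · simp only [hs, if_true]
      simp
    · simp only [if_neg hs, Finset.sum_const_zero]
  refine (Finset.sum_congr rfl fun (s : Fin 2) _ => h7 s).trans ?_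
  exact Fintype.sum_ite_eq' (ι := Fin 2) x _

end Pool.Agent.KS6_70.EC
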