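import Pool.Agent.KS6_70.EC.K5

/-! The three distributions and their entropies. -/

set_option autoImplicit false

namespace Pool.Agent.KS6_70.EC

open Pool.Agent.V11263.Causal
open Pool.Agent.R993.EC (pr Hs Hs_free)

/-- the alphabets: `A` consists of two bits, the other variables are bits -/
def A5 : Fin 5 → Type
  | 0 => Fin 2
  | 1 => Fin 2
  | 2 => Fin 2 × Fin 2
  | 3 => Fin 2
  | 4 => Fin 2

instance A5.fintype : ∀ o, Fintype (A5 o)
  | 0 => inferInstanceAs (Fintype (Fin 2))
  | 1 => inferInstanceAs (Fintype (Fin 2))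
  | 2 => inferInstanceAs (Fintype (Fin 2 × Fin 2))
  | 3 => inferInstanceAs (Fintype (Fin 2))
  | 4 => inferInstanceAs (Fintype (Fin 2))

instance A5.decEq : ∀ o, DecidableEq (A5 o)
  | 0 => inferInstanceAs (DecidableEq (Fin 2))
  | 1 => inferInstanceAs (DecidableEq (Fin 2))
  | 2 => inferInstanceAs (DecidableEq (Fin 2 × Fin 2))
  | 3 => inferInstanceAs (DecidableEq (Fin 2))
  | 4 => inferInstanceAs (DecidableEq (Fin 2))

/-- the seeds -/
abbrev Seed : Type := Fin 2 × Fin 2 × Fin 2 × Fin 2

/-- the point of a seed `(y, x, a, b)`: `Y = y`, `Z = y + x`, `A = (x, a)`, `B = b` and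
`C = a + b + f y x` -/
def pt5 (f : Fin 2 → Fin 2 → Fin 2) (i : Seed) : Pt A5 :=
  mk5 (k := A5) (i.1 : Fin 2) (i.1 + i.2.1 : Fin 2) ((i.2.1, i.2.2.1) : Fin 2 × Fin 2)
    (i.2.2.2 : Fin 2) (i.2.2.1 + i.2.2.2 + f i.1 i.2.1 : Fin 2)

/-- the number of the seeds whose points agree with that of `i` on `S` -/
def cnt (f : Fin 2 → Fin 2 → Fin 2) (S : Finset (Fin 5)) (i : Seed) : ℕ :=
  (Finset.univ.filter fun j : Seed => ∀ o ∈ S, pt5 f j o = pt5 f i o).card

/-- the parity of the quantum model -/
def fQ (y x : Fin 2) : Fin 2 := y + x + y * x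

def f0 (_ _ : Fin 2) : Fin 2 := 0

def f1 (y _ : Fin 2) : Fin 2 := y

/-- the sum of the logarithms -/
def expo (f : Fin 2 → Fin 2 → Fin 2) (S : Finset (Fin 5)) : ℕ := ∑ i, Nat.log2 (cnt f S i)

theorem cnt_all : ∀ (g : Fin 3) (S : Finset (Fin 5)) (i : Seed),
    cnt (![fQ, f0, f1] g) S i = 2 ^ (Nat.log2 (cnt (![fQ, f0, f1] g) S i)) := by
  decide +kernel

theorem expo_mid : ∀ S : Finset (Fin 5), 2 * expo fQ S = expo f0 S + expo f1 S := by
  decide +kernel

/-- the uniform distribution on the points of the seeds -/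
noncomputable def unif (f : Fin 2 → Fin 2 → Fin 2) (ω : Pt A5) : ℝ :=
  ∑ i : Seed, if pt5 f i = ω then 1 / 16 else 0

theorem entropy_eq {O : Type} [Fintype O] [DecidableEq O] {α : O → Type} [∀ o, Fintype (α o)]
    (q : (∀ o, α o) → ℝ) (S : Finset O) : entropy q S = HS q S / Real.log 2 := by
  have h : ∀ y : ∀ o : S, α o, marginal q S y = pr q (restr S) y := by
    intro y
    unfold marginal pr restr
    refine Finset.sum_congr rfl fun x _ => ?_
    by_cases h : (fun o : S => x o) = y
    · rw [if_pos h, if_pos h]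
    · rw [if_neg h, if_neg h]
  unfold entropy HS Hs
  simp only [h]

open scoped Classical in
theorem pr_unif {β : Type} (f : Fin 2 → Fin 2 → Fin 2) (g : Pt A5 → β) (v : β) :
    pr (unif f) g v = (1 / 16) * ((Finset.univ.filter fun j : Seed => g (pt5 f j) = v).card : ℝ) := by
  unfold pr unif
  have h1 : ∀ ω : Pt A5, (if g ω = v then ∑ i : Seed, (if pt5 f i = ω then (1 / 16 : ℝ) else 0)
      else 0) = ∑ i : Seed, if pt5 f i = ω then (if g (pt5 f i) = v then 1 / 16 else 0) else 0 := by
    intro ω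
    split_ifs with h
    · refine Finset.sum_congr rfl fun i _ => ?_
      by_cases h' : pt5 f i = ω
      · rw [if_pos h', if_pos h', h', if_pos h]
      · rw [if_neg h', if_neg h']
    · symm
      refine Finset.sum_eq_zero fun i _ => ?_
      by_cases h' : pt5 f i = ω
      · rw [if_pos h', h', if_neg h]
      · rw [if_neg h']
  simp only [h1]
  rw [Finset.sum_comm]
  simp only [Finset.sum_ite_eq, Finset.mem_univ, if_true]
  rw [← Finset.sum_filter, Finset.sum_const, nsmul_eq_mul, mul_comm]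

theorem HS_unif (f : Fin 2 → Fin 2 → Fin 2) (S : Finset (Fin 5))
    (h : ∀ i, cnt f S i = 2 ^ (Nat.log2 (cnt f S i))) :
    HS (unif f) S = (4 - (expo f S : ℝ) / 16) * Real.log 2 := by
  classical
  unfold HS
  rw [Hs_free]
  have h1 : ∀ i : Seed, pr (unif f) (restr S) (restr S (pt5 f i)) =
      (1 / 16) * (2 : ℝ) ^ (Nat.log2 (cnt f S i)) := by
    intro i
    rw [pr_unif]
    congr 1
    have h2 : ∀ inst : DecidablePred fun j : Seed => restr S (pt5 f j) = restr S (pt5 f i),
        (@Finset.filter _ _ inst Finset.univ).card = cnt f S i := by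
      intro inst
      unfold cnt
      congr 1
      refine Finset.filter_congr fun j _ => ?_
      rw [restr_eq]
    rw [h2]
    exact_mod_cast h i
  have h2 : ∑ ω : Pt A5, unif f ω * Real.log (pr (unif f) (restr S) (restr S ω)) =
      ∑ i : Seed, (1 / 16) * Real.log (pr (unif f) (restr S) (restr S (pt5 f i))) := by
    conv_lhs => unfold unif
    simp only [Finset.sum_mul, ite_mul, zero_mul]
    rw [Finset.sum_comm]
    refine Finset.sum_congr rfl fun i _ => ?_
    rw [Finset.sum_ite_eq, if_pos (Finset.mem_univ _)]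
    rfl
  rw [h2]
  simp only [h1]
  have h3 : ∀ i : Seed, Real.log ((1 / 16) * (2 : ℝ) ^ (Nat.log2 (cnt f S i))) =
      ((Nat.log2 (cnt f S i) : ℝ) - 4) * Real.log 2 := by
    intro i
    rw [Real.log_mul (by norm_num) (by positivity), Real.log_pow, one_div, Real.log_inv,
      show (16 : ℝ) = 2 ^ 4 by norm_num, Real.log_pow]
    push_cast
    ring
  simp only [h3]
  rw [← Finset.mul_sum, ← Finset.sum_mul, Finset.sum_sub_distrib]
  unfold expo
  push_cast
  simp only [Finset.sum_const, Finset.card_univ, Fintype.card_prod, Fintype.card_fin,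
    nsmul_eq_mul]
  push_cast
  ring

end Pool.Agent.KS6_70.EC
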