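import Pool.Agent.KS6_70.EC.Bell

/-! Asymptotic structure of two coordinates which determine each other. -/

set_option autoImplicit false

open Filter Topology

namespace Pool.Agent.KS6_70.EC

open Pool.Agent.R993.EC

section
variable {O : Type} [Fintype O] [DecidableEq O]

/-- Given `E`, the coordinates `o1` and `o3` determine each other; both are independent of `E`
and of each other. -/
structure Eqv (hv : Finset O → ℝ) (E : Finset O) (o1 o3 : O) : Prop where
  f1 : hv (insert o3 (E ∪ {o1})) = hv (E ∪ {o1})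
  f3 : hv (insert o3 (E ∪ {o1})) = hv (E ∪ {o3})
  i1 : hv E + hv {o1} = hv (E ∪ {o1})
  i3 : hv E + hv {o3} = hv (E ∪ {o3})
  j : hv {o1} + hv {o3} = hv ({o1} ∪ {o3})
  n1 : o1 ∉ E
  n3 : o3 ∉ E
  n13 : o1 ≠ o3

variable {k : ℕ → O → Type} [∀ n a, Fintype (k n a)] {P : ∀ n, Pt (k n) → ℝ} {𝒰 : Ultrafilter ℕ}
  (hP : ∀ n x, 0 ≤ P n x) (hP1 : ∀ n, ∑ x, P n x = 1) {hv : Finset O → ℝ}
  (hlim : ∀ S, Tendsto (fun n => HS (P n) S) 𝒰 (𝓝 (hv S)))

include hP in
theorem two_le {S T : Finset O} (hST : S ⊆ T) {τ0 τ1 t0 : ∀ n, Pt (k n)}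
    (h0 : ∀ᶠ n in (𝒰 : Filter ℕ), ∀ a ∈ S, τ0 n a = t0 n a)
    (h1 : ∀ᶠ n in (𝒰 : Filter ℕ), ∀ a ∈ S, τ1 n a = t0 n a)
    (hne : ∀ᶠ n in (𝒰 : Filter ℕ), ∃ a ∈ T, τ0 n a ≠ τ1 n a) {c0 c1 c : ℝ}
    (l0 : Tendsto (fun n => w (P n) T (τ0 n)) 𝒰 (𝓝 c0))
    (l1 : Tendsto (fun n => w (P n) T (τ1 n)) 𝒰 (𝓝 c1))
    (l : Tendsto (fun n => w (P n) S (t0 n)) 𝒰 (𝓝 c)) : c0 + c1 ≤ c := by
  refine le_of_tendsto_of_tendsto (l0.add l1) l ?_
  filter_upwards [h0, h1, hne] with n g0 g1 g2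
  obtain ⟨a, ha, hne'⟩ := g2
  have := sum_family (hP n) (ι := Fin 2) (S := S) (T := T) ![τ0 n, τ1 n] (t0 n) (by
    intro i
    fin_cases i
    · exact g0
    · exact g1) hST (by
    intro i j h
    have h' := h a ha
    fin_cases i <;> fin_cases j
    · rfl
    · exact absurd h' hne'
    · exact absurd h'.symm hne'
    · rfl)
  rw [Fin.sum_univ_two] at this
  exact this

include hP hP1 in
/-- two heavy values of total weight more than `1` agree -/
theorem eq_of_heavy {o : O} {u v : ∀ n, k n o} {a b : ℝ}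
    (hu : Tendsto (fun n => w1 (P n) o (u n)) 𝒰 (𝓝 a))
    (hv : Tendsto (fun n => w1 (P n) o (v n)) 𝒰 (𝓝 b)) (hab : 1 < a + b) :
    ∀ᶠ n in (𝒰 : Filter ℕ), u n = v n := by
  by_contra hcon
  have h := Ultrafilter.eventually_not.2 hcon
  have h1 : ∀ᶠ n in (𝒰 : Filter ℕ), w1 (P n) o (u n) + w1 (P n) o (v n) ≤ 1 :=
    h.mono fun n hn => w1_two (hP n) (hP1 n) o hn
  have := le_of_tendsto (hu.add hv) h1
  linarith

include hP hP1 hlim in
theorem latin2 {E : Finset O} {o1 o3 : O} (L : Eqv hv E o1 o3)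
    (t : ∀ n, Pt (k n)) {e p : ℝ} (he : 0 < e) (hp : 0 < p)
    (hE : Tendsto (fun n => w (P n) E (t n)) 𝒰 (𝓝 e))
    (h1 : Tendsto (fun n => w1 (P n) o1 (t n o1)) 𝒰 (𝓝 p)) :
    ∃ v : ∀ n, k n o3, Tendsto (fun n => w1 (P n) o3 (v n)) 𝒰 (𝓝 p) ∧
      Tendsto (fun n => w (P n) (insert o3 (E ∪ {o1}))
        (Function.update (t n) o3 (v n))) 𝒰 (𝓝 (e * p)) := by
  have hpos : 0 < e * p := by positivity
  have h1' : Tendsto (fun n => w (P n) {o1} (t n)) 𝒰 (𝓝 p) := by
    simpa only [w_single] using h1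
  have h3 := ind_lim' hP hP1 hlim L.i1 t hE h1'
  have ho3 : o3 ∉ E ∪ {o1} := by
    simp only [Finset.mem_union, Finset.mem_singleton, not_or]
    exact ⟨L.n3, L.n13.symm⟩
  obtain ⟨v, hv'⟩ := exmax_lim' hP hlim ho3 L.f1 t hpos h3
  obtain ⟨c, hc0, hc1, hc⟩ := exists_lim 𝒰 (fun n => w1 (P n) o3 (v n))
    (fun n => w1_nonneg (hP n) _ _) (fun n => w1_le_one (hP n) (hP1 n) _ _)
  have hc' : Tendsto (fun n => w (P n) {o3} (Function.update (t n) o3 (v n))) 𝒰 (𝓝 c) := by
    simp only [w_single, Function.update_self]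
    exact hc
  have hE' : Tendsto (fun n => w (P n) E (Function.update (t n) o3 (v n))) 𝒰 (𝓝 e) := by
    refine hE.congr fun n => w_congr fun a ha => ?_
    rw [Function.update_of_ne]
    exact fun h => L.n3 (h ▸ ha)
  have h5 := ind_lim' hP hP1 hlim L.i3 _ hE' hc'
  have s3 : E ∪ {o3} ⊆ insert o3 (E ∪ {o1}) := by
    intro a
    simp only [Finset.mem_union, Finset.mem_insert, Finset.mem_singleton]
    tauto
  have h6 := det_lim' hP hlim s3 L.f3 _ hpos hv'
  have e1 := tendsto_nhds_unique h6 h5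
  have hpc : p = c := by
    have : e * (p - c) = 0 := by linarith
    rcases mul_eq_zero.1 this with h | h
    · exact absurd h he.ne'
    · linarith
  exact ⟨v, hpc ▸ hc, hv'⟩

include hP hlim in
theorem expos_set (U : Finset O) {S : Finset O} (t : ∀ n, Pt (k n)) {c : ℝ} (hc : 0 < c)
    (hS : Tendsto (fun n => w (P n) S (t n)) 𝒰 (𝓝 c)) :
    ∃ (t' : ∀ n, Pt (k n)) (d : ℝ), 0 < d ∧ (∀ n a, a ∉ U → t' n a = t n a) ∧
      (∀ n, ∀ a ∈ S, t' n a = t n a) ∧
      Tendsto (fun n => w (P n) (U ∪ S) (t' n)) 𝒰 (𝓝 d) := by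
  induction U using Finset.induction_on with
  | empty => exact ⟨t, c, hc, fun _ _ _ => rfl, fun _ _ _ => rfl, by rwa [Finset.empty_union]⟩
  | insert o U _ ih =>
    obtain ⟨t', d, hd, h1, h2, h3⟩ := ih
    by_cases h : o ∈ U ∪ S
    · refine ⟨t', d, hd, fun n a ha => h1 n a fun h' => ha (Finset.mem_insert_of_mem h'), h2, ?_⟩
      have e : insert o U ∪ S = U ∪ S := by
        rw [Finset.insert_union, Finset.insert_eq_of_mem h]
      rwa [e]
    · obtain ⟨v, d', hd', h4⟩ := expos hP hlim h t' hd h3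
      refine ⟨fun n => Function.update (t' n) o (v n), d', hd', fun n a ha => ?_,
        fun n a ha => ?_, ?_⟩
      · rw [Finset.mem_insert, not_or] at ha
        show Function.update (t' n) o (v n) a = t n a
        rw [Function.update_of_ne ha.1]
        exact h1 n a ha.2
      · have hao : a ≠ o := fun h' => h (Finset.mem_union_right _ (h' ▸ ha))
        show Function.update (t' n) o (v n) a = t n a
        rw [Function.update_of_ne hao]
        exact h2 n a ha
      · rw [Finset.insert_union]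
        exact h4

include hP hP1 hlim in
theorem uni {E : Finset O} {o1 o3 : O} (L : Eqv hv E o1 o3) (t : ∀ n, Pt (k n)) {p q : ℝ}
    (hp : 0 < p) (hq : 0 < q) (h1 : Tendsto (fun n => w1 (P n) o1 (t n o1)) 𝒰 (𝓝 p))
    (h3 : Tendsto (fun n => w1 (P n) o3 (t n o3)) 𝒰 (𝓝 q)) : p = q := by
  have h1' : Tendsto (fun n => w (P n) {o1} (t n)) 𝒰 (𝓝 p) := by
    simpa only [w_single] using h1
  have h3' : Tendsto (fun n => w (P n) {o3} (t n)) 𝒰 (𝓝 q) := by
    simpa only [w_single] using h3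
  obtain ⟨t', d, hd, hu, hs, hw⟩ := expos_set hP hlim E t (mul_pos hp hq)
    (ind_lim' hP hP1 hlim L.j t h1' h3')
  have e0 : E ∪ ({o1} ∪ {o3}) = insert o3 (E ∪ {o1}) := by
    ext a
    simp only [Finset.mem_union, Finset.mem_insert, Finset.mem_singleton]
    tauto
  rw [e0] at hw
  have s1 : E ∪ {o1} ⊆ insert o3 (E ∪ {o1}) := Finset.subset_insert _ _
  have s3 : E ∪ {o3} ⊆ insert o3 (E ∪ {o1}) := by
    intro a
    simp only [Finset.mem_union, Finset.mem_insert, Finset.mem_singleton]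
    tauto
  have g1 := det_lim' hP hlim s1 L.f1 _ hd hw
  have g3 := det_lim' hP hlim s3 L.f3 _ hd hw
  obtain ⟨e, -, -, he⟩ := exists_lim 𝒰 (fun n => w (P n) E (t' n))
    (fun n => w_nonneg (hP n) _ _) (fun n => w_le_one (hP n) (hP1 n) _ _)
  have k1 : Tendsto (fun n => w (P n) {o1} (t' n)) 𝒰 (𝓝 p) :=
    h1'.congr fun n => w_congr fun a ha => (hs n a (Finset.mem_union_left _ ha)).symm
  have k3 : Tendsto (fun n => w (P n) {o3} (t' n)) 𝒰 (𝓝 q) :=
    h3'.congr fun n => w_congr fun a ha => (hs n a (Finset.mem_union_right _ ha)).symm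
  have e1 := tendsto_nhds_unique g1 (ind_lim' hP hP1 hlim L.i1 _ he k1)
  have e3 := tendsto_nhds_unique g3 (ind_lim' hP hP1 hlim L.i3 _ he k3)
  have he0 : e ≠ 0 := by
    rintro rfl
    rw [zero_mul] at e1
    exact hd.ne' e1
  exact mul_left_cancel₀ he0 (e1.symm.trans e3)

include hP hP1 hlim in
theorem two_of_latin {E : Finset O} {o1 o3 : O} (L : Eqv hv E o1 o3)
    (t : ∀ n, Pt (k n)) {e : ℝ} (he : 0 < e)
    (hE : Tendsto (fun n => w (P n) E (t n)) 𝒰 (𝓝 e))
    {a : Fin 2 → ∀ n, k n o1} (ha : Two k P 𝒰 o1 a) :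
    ∃ b : Fin 2 → ∀ n, k n o3, Two k P 𝒰 o3 b ∧ ∀ l,
      Tendsto (fun n => w (P n) (insert o3 (E ∪ {o1}))
        (Function.update (Function.update (t n) o1 (a l n)) o3 (b l n))) 𝒰 (𝓝 (e / 2)) := by
  have hex : ∀ l, ∃ v : ∀ n, k n o3, Tendsto (fun n => w1 (P n) o3 (v n)) 𝒰 (𝓝 (1 / 2)) ∧
      Tendsto (fun n => w (P n) (insert o3 (E ∪ {o1}))
        (Function.update (Function.update (t n) o1 (a l n)) o3 (v n))) 𝒰 (𝓝 (e / 2)) := by
    intro l
    obtain ⟨v, h1, h2⟩ := latin2 hP hP1 hlim L (fun n => Function.update (t n) o1 (a l n)) he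
      (by norm_num : (0 : ℝ) < 1 / 2)
      (by
        refine hE.congr fun n => w_congr fun x hx => ?_
        rw [Function.update_of_ne]
        exact fun h => L.n1 (h ▸ hx))
      (by simpa only [Function.update_self] using ha.lim l)
    refine ⟨v, h1, ?_⟩
    rw [show e / 2 = e * (1 / 2) by ring]
    exact h2
  choose b hb1 hb2 using hex
  refine ⟨b, ⟨hb1, ?_⟩, hb2⟩
  refine Ultrafilter.eventually_not.2 fun hcon => ?_
  have s3 : E ∪ {o3} ⊆ insert o3 (E ∪ {o1}) := by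
    intro a
    simp only [Finset.mem_union, Finset.mem_insert, Finset.mem_singleton]
    tauto
  have g3 := det_lim' hP hlim s3 L.f3 _ (by positivity) (hb2 0)
  have := two_le hP s3 (Eventually.of_forall fun n a _ => rfl)
    (by
      filter_upwards [hcon] with n hn x hx
      have hx1 : x ≠ o1 := by
        rintro rfl
        rcases Finset.mem_union.1 hx with h | h
        · exact L.n1 h
        · exact L.n13 (Finset.mem_singleton.1 h)
      by_cases hx3 : x = o3
      · subst hx3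
        rw [Function.update_self, Function.update_self]
        exact hn.symm
      · rw [Function.update_of_ne hx3, Function.update_of_ne hx1, Function.update_of_ne hx3,
          Function.update_of_ne hx1])
    (by
      filter_upwards [ha.ne] with n hn
      refine ⟨o1, by simp, ?_⟩
      rw [Function.update_of_ne L.n13, Function.update_self, Function.update_of_ne L.n13,
        Function.update_self]
      exact hn) (hb2 0) (hb2 1) g3
  linarith

include hP hP1 hlim in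
theorem shift {E : Finset O} {o1 o3 : O} (L : Eqv hv E o1 o3)
    (t : ∀ n, Pt (k n)) {e : ℝ} (he : 0 < e)
    (hE : Tendsto (fun n => w (P n) E (t n)) 𝒰 (𝓝 e))
    {a : Fin 2 → ∀ n, k n o1} (ha : Two k P 𝒰 o1 a)
    {c : Fin 2 → ∀ n, k n o3} (hc : Two k P 𝒰 o3 c) :
    ∃ s : Fin 2, ∀ l, Tendsto (fun n => w (P n) (insert o3 (E ∪ {o1}))
        (Function.update (Function.update (t n) o1 (a l n)) o3 (c (l + s) n))) 𝒰
          (𝓝 (e / 2)) := by
  obtain ⟨b, hb, hw⟩ := two_of_latin hP hP1 hlim L t he hE ha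
  obtain ⟨s, hs⟩ := two_unique hP hP1 hc hb
  refine ⟨s, fun l => (hw l).congr' ?_⟩
  filter_upwards [hs l] with n hn
  rw [hn]

end

end Pool.Agent.KS6_70.EC
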