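import Mathlib

/-! Summing out the nodes of a Bayesian network. -/

set_option autoImplicit false

namespace Pool.Agent.KS6_70.EC

open Finset

theorem sum_out_aux {N : Type} [Fintype N] [DecidableEq N] {A : N → Type} [∀ v, Fintype (A v)]
    (rank : N → ℕ) (Q : ∀ v, (∀ w, A w) → A v → ℝ) (hsum : ∀ v z, ∑ a, Q v z a = 1)
    (hloc : ∀ v z z', (∀ w, rank w < rank v → z w = z' w) → Q v z = Q v z') (R : Finset N) :
    ∀ z0 : ∀ w, A w, ∑ z : ∀ w, A w,
      (open scoped Classical in if (∀ w, w ∉ R → z w = z0 w) then ∏ v ∈ R, Q v z (z v) else 0) = 1 := by
  classical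
  induction R using Finset.induction_on_min_value rank with
  | empty =>
    intro z0
    rw [Finset.sum_eq_single z0]
    · simp
    · intro z _ hz
      rw [if_neg]
      intro h
      exact hz (funext fun w => h w (Finset.notMem_empty w))
    · exact fun h => absurd (Finset.mem_univ _) h
  | insert a s ha hmin ih =>
    intro z0
    have h1 : ∀ z : ∀ w, A w, (if (∀ w, w ∉ insert a s → z w = z0 w) then
        ∏ v ∈ insert a s, Q v z (z v) else 0) =
        ∑ c : A a, Q a z0 c * (if (∀ w, w ∉ s → z w = Function.update z0 a c w) then
          ∏ v ∈ s, Q v z (z v) else 0) := by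
      intro z
      by_cases hz : ∀ w, w ∉ insert a s → z w = z0 w
      · rw [if_pos hz, Finset.sum_eq_single (z a)]
        · rw [if_pos]
          · rw [Finset.prod_insert ha]
            have e : Q a z = Q a z0 := by
              refine hloc a _ _ fun w hw => hz w ?_
              rw [Finset.mem_insert, not_or]
              refine ⟨fun h => by rw [h] at hw; exact lt_irrefl _ hw, fun h => ?_⟩
              exact absurd (hmin w h) (not_le.2 hw)
            rw [e]
          · intro w hw
            by_cases hwa : w = a
            · subst hwa
              rw [Function.update_self]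
            · rw [Function.update_of_ne hwa]
              exact hz w (by rw [Finset.mem_insert, not_or]; exact ⟨hwa, hw⟩)
        · intro c _ hc
          rw [if_neg, mul_zero]
          intro h
          have := h a ha
          rw [Function.update_self] at this
          exact hc this.symm
        · exact fun h => absurd (Finset.mem_univ _) h
      · rw [if_neg hz]
        symm
        refine Finset.sum_eq_zero fun c _ => ?_
        rw [if_neg, mul_zero]
        intro h
        refine hz fun w hw => ?_
        rw [Finset.mem_insert, not_or] at hw
        rw [h w hw.2, Function.update_of_ne hw.1]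
    simp only [h1]
    rw [Finset.sum_comm]
    simp only [← Finset.mul_sum, ih, mul_one]
    exact hsum a z0

theorem sum_out {N : Type} [Fintype N] [DecidableEq N] {A : N → Type} [∀ v, Fintype (A v)]
    [∀ v, Nonempty (A v)]
    (rank : N → ℕ) (Q : ∀ v, (∀ w, A w) → A v → ℝ) (hsum : ∀ v z, ∑ a, Q v z a = 1)
    (hloc : ∀ v z z', (∀ w, rank w < rank v → z w = z' w) → Q v z = Q v z') :
    ∑ z : ∀ w, A w, ∏ v, Q v z (z v) = 1 := by
  have h := sum_out_aux rank Q hsum hloc Finset.univ (fun v => (inferInstance : Nonempty (A v)).some)
  simpa using h

end Pool.Agent.KS6_70.EC
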