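import Pool.Agent.KS6_70.EC.NC
import Pool.Agent.KS6_70.EC.SumOut

/-! Causal structures with further nodes. -/

set_option autoImplicit false

namespace Pool.Agent.KS6_70.EC

open Pool.Agent.V11263.Causal
open Pool.Agent.R993.EC (pr Hs Hs_free Hs_congr)

/-- two kinds of nodes -/
theorem sum_out2 {N1 N2 : Type} [Fintype N1] [DecidableEq N1] [Fintype N2] [DecidableEq N2]
    {A1 : N1 → Type} {A2 : N2 → Type} [∀ v, Fintype (A1 v)] [∀ v, Fintype (A2 v)]
    [n1 : ∀ v, Nonempty (A1 v)] [n2 : ∀ v, Nonempty (A2 v)] (rank : N1 ⊕ N2 → ℕ)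
    (P : ∀ v, (∀ w, A1 w) → (∀ w, A2 w) → A1 v → ℝ) (R : ∀ v, (∀ w, A1 w) → (∀ w, A2 w) → A2 v → ℝ)
    (hP : ∀ v x l, ∑ a, P v x l a = 1) (hR : ∀ v x l, ∑ a, R v x l a = 1)
    (lP : ∀ v x l x' l', (∀ w, rank (Sum.inl w) < rank (Sum.inl v) → x w = x' w) →
      (∀ w, rank (Sum.inr w) < rank (Sum.inl v) → l w = l' w) → P v x l = P v x' l')
    (lR : ∀ v x l x' l', (∀ w, rank (Sum.inl w) < rank (Sum.inr v) → x w = x' w) →
      (∀ w, rank (Sum.inr w) < rank (Sum.inr v) → l w = l' w) → R v x l = R v x' l') :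
    ∑ x : ∀ v, A1 v, ∑ l : ∀ v, A2 v, (∏ v, P v x l (x v)) * ∏ v, R v x l (l v) = 1 := by
  let A : N1 ⊕ N2 → Type := Sum.elim A1 A2
  let fA : ∀ v, Fintype (A v) := fun v =>
    match v with
    | Sum.inl w => (inferInstance : Fintype (A1 w))
    | Sum.inr w => (inferInstance : Fintype (A2 w))
  have nA : ∀ v, Nonempty (A v) := fun v =>
    match v with
    | Sum.inl w => n1 w
    | Sum.inr w => n2 w
  let Q : ∀ v, (∀ w, A w) → A v → ℝ := fun v z =>
    match v with
    | Sum.inl w => P w (fun i => z (Sum.inl i)) (fun i => z (Sum.inr i))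
    | Sum.inr w => R w (fun i => z (Sum.inl i)) (fun i => z (Sum.inr i))
  have h := sum_out (A := A) rank Q (by
    intro v z
    match v with
    | Sum.inl w => exact hP w _ _
    | Sum.inr w => exact hR w _ _) (by
    intro v z z' hz
    match v with
    | Sum.inl w => exact lP w _ _ _ _ (fun i hi => hz _ hi) (fun i hi => hz _ hi)
    | Sum.inr w => exact lR w _ _ _ _ (fun i hi => hz _ hi) (fun i hi => hz _ hi))
  rw [← (Equiv.sumPiEquivProdPi A).symm.sum_comp, Fintype.sum_prod_type] at h
  simp only [Fintype.prod_sum_type] at h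
  exact h

theorem entropy_push {O R : Type} [Fintype O] [DecidableEq O] [Fintype R] [DecidableEq R]
    {α : O ⊕ R → Type} [∀ o, Fintype (α o)] (q : (∀ o, α o) → ℝ)
    (q' : (∀ o : O, α (Sum.inl o)) → ℝ)
    (h : ∀ x, q' x = ∑ y : ∀ r : R, α (Sum.inr r), q ((Equiv.sumPiEquivProdPi α).symm (x, y)))
    (S : Finset O) : entropy q' S = entropy q (S.map Function.Embedding.inl) := by
  classical
  rw [entropy_eq, entropy_eq]
  congr 1
  have h1 : HS q (S.map Function.Embedding.inl) =
      Hs q (fun z => restr (k := fun o => α (Sum.inl o)) S (fun o => z (Sum.inl o))) := by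
    symm
    refine Hs_eq_HS _ fun z t => ?_
    rw [restr_eq]
    simp only [Finset.mem_map, Function.Embedding.inl_apply, forall_exists_index, and_imp]
    constructor
    · rintro h _ o ho rfl
      exact h o ho
    · intro h o ho
      exact h _ o ho rfl
  rw [h1]
  unfold HS Hs
  refine Finset.sum_congr rfl fun v _ => ?_
  congr 1
  unfold pr
  rw [← (Equiv.sumPiEquivProdPi α).symm.sum_comp, Fintype.sum_prod_type]
  refine Finset.sum_congr rfl fun x _ => ?_
  rw [h x]
  by_cases hx : restr S x = v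
  · rw [if_pos hx]
    refine Finset.sum_congr rfl fun y _ => ?_
    exact (if_pos hx).symm
  · rw [if_neg hx]
    symm
    refine Finset.sum_eq_zero fun y _ => ?_
    exact if_neg hx

/-- A causal structure which is obtained from `C` by adding finite sets `RO` and `RU` of observed and
unobserved nodes, and edges whose heads are new nodes: the parents of the nodes of `C` do not
change. -/
structure Extension (C : CausalStructure) where
  RO : Type
  RU : Type
  [fRO : Fintype RO]
  [dRO : DecidableEq RO]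
  [fRU : Fintype RU]
  [dRU : DecidableEq RU]
  edge : (C.O ⊕ RO) ⊕ (C.U ⊕ RU) → (C.O ⊕ RO) ⊕ (C.U ⊕ RU) → Prop
  acyclic : ∃ rank : (C.O ⊕ RO) ⊕ (C.U ⊕ RU) → ℕ, ∀ v w, edge v w → rank v < rank w
  parents : ∀ v (w : C.O ⊕ C.U), edge v (Sum.map Sum.inl Sum.inl w) ↔
    ∃ v', v = Sum.map Sum.inl Sum.inl v' ∧ C.edge v' w

attribute [instance] Extension.fRO Extension.dRO Extension.fRU Extension.dRU

/-- the causal structure of the extension -/
abbrev Extension.toCS {C : CausalStructure} (X : Extension C) : CausalStructure where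
  O := C.O ⊕ X.RO
  U := C.U ⊕ X.RU
  edge := X.edge
  acyclic := X.acyclic

end Pool.Agent.KS6_70.EC
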