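import Pool.Agent.KS6_70.EC.Glue

/-! The classical models of an extension. -/

set_option autoImplicit false

namespace Pool.Agent.KS6_70.EC

open Pool.Agent.V11263.Causal

variable {C : CausalStructure} (X : Extension C)

section ext
variable {ι ι' : Type} {α : ι ⊕ ι' → Type}

/-- the extension of a function by fixed values -/
noncomputable def ext (d : ∀ r, α (Sum.inr r)) (x : ∀ i, α (Sum.inl i)) : ∀ i, α i :=
  (Equiv.sumPiEquivProdPi α).symm (x, d)

@[simp] theorem ext_inl (d : ∀ r, α (Sum.inr r)) (x : ∀ i, α (Sum.inl i)) (i : ι) :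
    ext d x (Sum.inl i) = x i := rfl

@[simp] theorem ext_inr (d : ∀ r, α (Sum.inr r)) (x : ∀ i, α (Sum.inl i)) (i : ι') :
    ext d x (Sum.inr i) = d i := rfl
end ext

theorem Extension.par_O {X : Extension C} {o : C.O} {o' : C.O ⊕ X.RO}
    (h : X.edge (Sum.inl o') (Sum.inl (Sum.inl o))) :
    ∃ o'', o' = Sum.inl o'' ∧ C.edge (Sum.inl o'') (Sum.inl o) := by
  obtain ⟨v', h1, h2⟩ := (X.parents _ (Sum.inl o)).1 h
  rcases v' with v' | v'
  · exact ⟨v', Sum.inl_injective h1, h2⟩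
  · exact absurd h1 (by simp)

theorem Extension.par_O' {X : Extension C} {o : C.O} {u' : C.U ⊕ X.RU}
    (h : X.edge (Sum.inr u') (Sum.inl (Sum.inl o))) :
    ∃ u'', u' = Sum.inl u'' ∧ C.edge (Sum.inr u'') (Sum.inl o) := by
  obtain ⟨v', h1, h2⟩ := (X.parents _ (Sum.inl o)).1 h
  rcases v' with v' | v'
  · exact absurd h1 (by simp)
  · exact ⟨v', Sum.inr_injective h1, h2⟩

theorem Extension.par_U {X : Extension C} {u : C.U} {o' : C.O ⊕ X.RO}
    (h : X.edge (Sum.inl o') (Sum.inr (Sum.inl u))) :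
    ∃ o'', o' = Sum.inl o'' ∧ C.edge (Sum.inl o'') (Sum.inr u) := by
  obtain ⟨v', h1, h2⟩ := (X.parents _ (Sum.inr u)).1 h
  rcases v' with v' | v'
  · exact ⟨v', Sum.inl_injective h1, h2⟩
  · exact absurd h1 (by simp)

theorem Extension.par_U' {X : Extension C} {u : C.U} {u' : C.U ⊕ X.RU}
    (h : X.edge (Sum.inr u') (Sum.inr (Sum.inl u))) :
    ∃ u'', u' = Sum.inl u'' ∧ C.edge (Sum.inr u'') (Sum.inr u) := by
  obtain ⟨v', h1, h2⟩ := (X.parents _ (Sum.inr u)).1 h
  rcases v' with v' | v'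
  · exact absurd h1 (by simp)
  · exact ⟨v', Sum.inr_injective h1, h2⟩

/-- default values -/
noncomputable def dO (M : ClassicalModel X.toCS) : ∀ r : X.RO, M.α (Sum.inr r) :=
  fun r => (M.nα (Sum.inr r)).some

noncomputable def dU (M : ClassicalModel X.toCS) : ∀ r : X.RU, M.β (Sum.inr r) :=
  fun r => (M.nβ (Sum.inr r)).some

/-- the restriction of a classical model -/
noncomputable def resC (M : ClassicalModel X.toCS) : ClassicalModel C where
  α o := M.α (Sum.inl o)
  β u := M.β (Sum.inl u)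
  fα o := M.fα (Sum.inl o)
  nα o := M.nα (Sum.inl o)
  fβ o := M.fβ (Sum.inl o)
  nβ o := M.nβ (Sum.inl o)
  P o x l a := M.P (Sum.inl o) (ext (α := M.α) (dO X M) x) (ext (α := M.β) (dU X M) l) a
  R u x l b := M.R (Sum.inl u) (ext (α := M.α) (dO X M) x) (ext (α := M.β) (dU X M) l) b
  P_nonneg _ _ _ _ := M.P_nonneg _ _ _ _
  P_sum _ _ _ := M.P_sum _ _ _
  P_local o x l x' l' h h' := M.P_local _ _ _ _ _
    (fun o' ho => by
      obtain ⟨o'', rfl, h2⟩ := X.par_O ho
      exact h o'' h2)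
    (fun u hu => by
      obtain ⟨u'', rfl, h2⟩ := X.par_O' hu
      exact h' u'' h2)
  R_nonneg _ _ _ _ := M.R_nonneg _ _ _ _
  R_sum _ _ _ := M.R_sum _ _ _
  R_local u x l x' l' h h' := M.R_local _ _ _ _ _
    (fun o' ho => by
      obtain ⟨o'', rfl, h2⟩ := X.par_U ho
      exact h o'' h2)
    (fun u hu => by
      obtain ⟨u'', rfl, h2⟩ := X.par_U' hu
      exact h' u'' h2)

theorem resC_dist (M : ClassicalModel X.toCS) (x : ∀ o : C.O, M.α (Sum.inl o)) :
    (resC X M).dist x = ∑ y : ∀ r : X.RO, M.α (Sum.inr r),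
      M.dist ((Equiv.sumPiEquivProdPi M.α).symm (x, y)) := by
  obtain ⟨rank, hrank⟩ := X.acyclic
  have h1 : ∀ (y : ∀ r : X.RO, M.α (Sum.inr r)) (l : ∀ u : C.U, M.β (Sum.inl u))
      (m : ∀ r : X.RU, M.β (Sum.inr r)) (o : C.O),
      M.P (Sum.inl o) (ext (α := M.α) y x) (ext (α := M.β) m l) =
        M.P (Sum.inl o) (ext (α := M.α) (dO X M) x) (ext (α := M.β) (dU X M) l) := by
    intro y l m o
    refine M.P_local _ _ _ _ _ (fun o' ho => ?_) (fun u hu => ?_)
    · obtain ⟨o'', rfl, h2⟩ := X.par_O ho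
      rfl
    · obtain ⟨u'', rfl, h2⟩ := X.par_O' hu
      rfl
  have h2 : ∀ (y : ∀ r : X.RO, M.α (Sum.inr r)) (l : ∀ u : C.U, M.β (Sum.inl u))
      (m : ∀ r : X.RU, M.β (Sum.inr r)) (u : C.U),
      M.R (Sum.inl u) (ext (α := M.α) y x) (ext (α := M.β) m l) =
        M.R (Sum.inl u) (ext (α := M.α) (dO X M) x) (ext (α := M.β) (dU X M) l) := by
    intro y l m o
    refine M.R_local _ _ _ _ _ (fun o' ho => ?_) (fun u hu => ?_)
    · obtain ⟨o'', rfl, h2⟩ := X.par_U ho
      rfl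
    · obtain ⟨u'', rfl, h2⟩ := X.par_U' hu
      rfl
  have h3 : ∀ y : ∀ r : X.RO, M.α (Sum.inr r),
      M.dist ((Equiv.sumPiEquivProdPi M.α).symm (x, y)) =
      ∑ l : ∀ u : C.U, M.β (Sum.inl u), ∑ m : ∀ r : X.RU, M.β (Sum.inr r),
        ((∏ o : C.O, M.P (Sum.inl o) (ext (α := M.α) y x) (ext (α := M.β) m l) (x o)) *
          ∏ r : X.RO, M.P (Sum.inr r) (ext (α := M.α) y x) (ext (α := M.β) m l) (y r)) *
        ((∏ u : C.U, M.R (Sum.inl u) (ext (α := M.α) y x) (ext (α := M.β) m l) (l u)) *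
          ∏ r : X.RU, M.R (Sum.inr r) (ext (α := M.α) y x) (ext (α := M.β) m l) (m r)) := by
    intro y
    have e1 : M.dist ((Equiv.sumPiEquivProdPi M.α).symm (x, y)) =
        ∑ l : ∀ u : C.U ⊕ X.RU, M.β u, (∏ o : C.O ⊕ X.RO, M.P o (ext (α := M.α) y x) l
          (ext (α := M.α) y x o)) * ∏ u : C.U ⊕ X.RU, M.R u (ext (α := M.α) y x) l (l u) := rfl
    rw [e1, ← (Equiv.sumPiEquivProdPi M.β).symm.sum_comp, Fintype.sum_prod_type]
    refine Finset.sum_congr rfl fun l _ => Finset.sum_congr rfl fun m _ => ?_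
    rw [Fintype.prod_sum_type, Fintype.prod_sum_type]
    rfl
  simp only [h3, h1, h2]
  rw [Finset.sum_comm]
  refine Finset.sum_congr rfl fun l _ => ?_
  have h4 := sum_out2 (N1 := X.RO) (N2 := X.RU) (A1 := fun r => M.α (Sum.inr r))
    (A2 := fun r => M.β (Sum.inr r)) (n1 := fun r => M.nα (Sum.inr r))
    (n2 := fun r => M.nβ (Sum.inr r))
    (fun v => rank (Sum.map Sum.inr Sum.inr v))
    (fun r y m => M.P (Sum.inr r) (ext (α := M.α) y x) (ext (α := M.β) m l))
    (fun r y m => M.R (Sum.inr r) (ext (α := M.α) y x) (ext (α := M.β) m l))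
    (fun _ _ _ => M.P_sum _ _ _) (fun _ _ _ => M.R_sum _ _ _)
    (fun v y m y' m' hy hm => by
      refine M.P_local _ _ _ _ _ (fun o' ho => ?_) (fun u hu => ?_)
      · rcases o' with o' | o'
        · rfl
        · exact hy o' (hrank _ _ ho)
      · rcases u with u | u
        · rfl
        · exact hm u (hrank _ _ hu))
    (fun v y m y' m' hy hm => by
      refine M.R_local _ _ _ _ _ (fun o' ho => ?_) (fun u hu => ?_)
      · rcases o' with o' | o'
        · rfl
        · exact hy o' (hrank _ _ ho)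
      · rcases u with u | u
        · rfl
        · exact hm u (hrank _ _ hu))
  have h5 : ∀ (y : ∀ r : X.RO, M.α (Sum.inr r)) (m : ∀ r : X.RU, M.β (Sum.inr r)),
      ((∏ o : C.O, M.P (Sum.inl o) (ext (α := M.α) (dO X M) x) (ext (α := M.β) (dU X M) l) (x o)) *
          ∏ r : X.RO, M.P (Sum.inr r) (ext (α := M.α) y x) (ext (α := M.β) m l) (y r)) *
        ((∏ u : C.U, M.R (Sum.inl u) (ext (α := M.α) (dO X M) x) (ext (α := M.β) (dU X M) l) (l u)) *
          ∏ r : X.RU, M.R (Sum.inr r) (ext (α := M.α) y x) (ext (α := M.β) m l) (m r)) =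
      ((∏ o : C.O, M.P (Sum.inl o) (ext (α := M.α) (dO X M) x) (ext (α := M.β) (dU X M) l) (x o)) *
        ∏ u : C.U, M.R (Sum.inl u) (ext (α := M.α) (dO X M) x) (ext (α := M.β) (dU X M) l) (l u)) *
      ((∏ r : X.RO, M.P (Sum.inr r) (ext (α := M.α) y x) (ext (α := M.β) m l) (y r)) *
          ∏ r : X.RU, M.R (Sum.inr r) (ext (α := M.α) y x) (ext (α := M.β) m l) (m r)) := by
    intro y m
    ring
  simp only [h5, ← Finset.mul_sum]
  rw [h4, mul_one]
  rfl

/-- the restriction of the entropy vectors -/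
def resV {O R : Type} [DecidableEq O] [DecidableEq R]
    (v : {S : Finset (O ⊕ R) // S.Nonempty} → ℝ) : {S : Finset O // S.Nonempty} → ℝ :=
  fun S => v ⟨S.1.map Function.Embedding.inl, S.2.map⟩

theorem resV_cont {O R : Type} [DecidableEq O] [DecidableEq R] :
    Continuous (resV (O := O) (R := R)) :=
  continuous_pi fun _ => continuous_apply _

theorem resV_classical (v : {S : Finset X.toCS.O // S.Nonempty} → ℝ)
    (hv : v ∈ classicalEntropySet X.toCS) : resV (O := C.O) (R := X.RO) v ∈ classicalEntropySet C := by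
  obtain ⟨M, rfl⟩ := hv
  refine ⟨resC X M, ?_⟩
  funext S
  symm
  exact entropy_push (O := C.O) (R := X.RO) (α := M.α) M.dist (resC X M).dist
    (fun x => resC_dist X M x) S.1

end Pool.Agent.KS6_70.EC
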