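import Pool.Agent.KS6_70.EC.GlueC

/-! The quantum models of an extension. -/

set_option autoImplicit false

namespace Pool.Agent.KS6_70.EC

open Pool.Agent.V11263.Causal
open scoped ComplexOrder Matrix

/-- functions on a sum type with trivial values on the right -/
def resE {ι ι' : Type} (B : ι ⊕ ι' → Type) [∀ r, Unique (B (Sum.inr r))] :
    (∀ i, B i) ≃ (∀ i, B (Sum.inl i)) :=
  (Equiv.sumPiEquivProdPi B).trans (Equiv.prodUnique _ _)

@[simp] theorem resE_apply {ι ι' : Type} (B : ι ⊕ ι' → Type) [∀ r, Unique (B (Sum.inr r))]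
    (z : ∀ i, B i) (i : ι) : resE B z i = z (Sum.inl i) := rfl

/-- the family with trivial values on the right -/
def fam1 {ι ι' : Type} (B : ι → Type) : ι ⊕ ι' → Type
  | Sum.inl i => B i
  | Sum.inr _ => Unit

/-- the same for two arguments -/
def fam2 {ι ι' κ κ' : Type} (B : ι → κ → Type) : ι ⊕ ι' → κ ⊕ κ' → Type
  | Sum.inl i, Sum.inl k => B i k
  | Sum.inl _, Sum.inr _ => Unit
  | Sum.inr _, _ => Unit

section inst
variable {ι ι' κ κ' : Type}

instance fam1.u {B : ι → Type} (r : ι') : Unique (fam1 (ι' := ι') B (Sum.inr r)) :=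
  inferInstanceAs (Unique Unit)

instance fam1.f {B : ι → Type} [h : ∀ i, Fintype (B i)] : ∀ i, Fintype (fam1 (ι' := ι') B i)
  | Sum.inl i => h i
  | Sum.inr _ => inferInstanceAs (Fintype Unit)

theorem fam1.n {B : ι → Type} [h : ∀ i, Nonempty (B i)] : ∀ i, Nonempty (fam1 (ι' := ι') B i)
  | Sum.inl i => h i
  | Sum.inr _ => inferInstanceAs (Nonempty Unit)

instance fam2.u {B : ι → κ → Type} (r : ι') (s : κ ⊕ κ') :
    Unique (fam2 (ι' := ι') (κ' := κ') B (Sum.inr r) s) :=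
  match s with
  | Sum.inl _ => inferInstanceAs (Unique Unit)
  | Sum.inr _ => inferInstanceAs (Unique Unit)

instance fam2.u' {B : ι → κ → Type} (s : ι ⊕ ι') (r : κ') :
    Unique (fam2 (ι' := ι') (κ' := κ') B s (Sum.inr r)) :=
  match s with
  | Sum.inl _ => inferInstanceAs (Unique Unit)
  | Sum.inr _ => inferInstanceAs (Unique Unit)

instance fam2.f {B : ι → κ → Type} [h : ∀ i k, Fintype (B i k)] :
    ∀ i k, Fintype (fam2 (ι' := ι') (κ' := κ') B i k)
  | Sum.inl i, Sum.inl k => h i k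
  | Sum.inl _, Sum.inr _ => inferInstanceAs (Fintype Unit)
  | Sum.inr _, _ => inferInstanceAs (Fintype Unit)

instance fam2.d {B : ι → κ → Type} [h : ∀ i k, DecidableEq (B i k)] :
    ∀ i k, DecidableEq (fam2 (ι' := ι') (κ' := κ') B i k)
  | Sum.inl i, Sum.inl k => h i k
  | Sum.inl _, Sum.inr _ => inferInstanceAs (DecidableEq Unit)
  | Sum.inr _, _ => inferInstanceAs (DecidableEq Unit)

end inst

/-- the full index families -/
def resE2 {ι ι' κ κ' : Type} (B : ι → κ → Type) :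
    (∀ i k, fam2 (ι' := ι') (κ' := κ') B i k) ≃ (∀ i k, B i k) :=
  (resE (fun i : ι ⊕ ι' => ∀ k : κ ⊕ κ', fam2 (ι' := ι') (κ' := κ') B i k)).trans
    (Equiv.piCongrRight fun i => resE (fun k : κ ⊕ κ' => fam2 (ι' := ι') (κ' := κ') B (Sum.inl i) k))

variable {C : CausalStructure} (X : Extension C) (Q : QuantumModel C)

/-- the Kraus operators of the extension -/
noncomputable def KX : (u : C.U ⊕ X.RU) → (∀ o : C.O ⊕ X.RO, fam1 Q.α o) → fam1 Q.κ u →
    Matrix ((∀ o : C.O ⊕ X.RO, fam2 Q.I u o) × (∀ u' : C.U ⊕ X.RU, fam2 Q.J u u'))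
      (∀ u' : C.U ⊕ X.RU, fam2 Q.J u' u) ℂ
  | Sum.inl u, x, k => (Q.K u (fun o => x (Sum.inl o)) k).submatrix
      (Equiv.prodCongr (resE fun o => fam2 (κ' := X.RO) (ι' := X.RU) Q.I (Sum.inl u) o)
        (resE fun u' => fam2 (κ' := X.RU) (ι' := X.RU) Q.J (Sum.inl u) u'))
      (resE fun u' => fam2 (κ' := X.RU) (ι' := X.RU) Q.J u' (Sum.inl u))
  | Sum.inr _, _, _ => fun _ _ => 1

/-- the measurements of the extension -/
noncomputable def EX : (o : C.O ⊕ X.RO) → (∀ o : C.O ⊕ X.RO, fam1 Q.α o) → fam1 Q.α o →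
    Matrix (∀ u : C.U ⊕ X.RU, fam2 Q.I u o) (∀ u : C.U ⊕ X.RU, fam2 Q.I u o) ℂ
  | Sum.inl o, x, a => (Q.E o (fun o => x (Sum.inl o)) a).submatrix
      (resE fun u => fam2 (κ' := X.RO) (ι' := X.RU) Q.I u (Sum.inl o))
      (resE fun u => fam2 (κ' := X.RO) (ι' := X.RU) Q.I u (Sum.inl o))
  | Sum.inr _, _, _ => 1

theorem sub_sum {κ I J I' J' : Type} [Fintype κ] [Fintype I] [Fintype I'] [DecidableEq J]
    [DecidableEq J'] (K : κ → Matrix I J ℂ) (e : I' ≃ I) (f : J' ≃ J)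
    (h : ∑ k, (K k)ᴴ * K k = 1) :
    ∑ k, ((K k).submatrix e f)ᴴ * (K k).submatrix e f = 1 := by
  have h1 : ∀ k, ((K k).submatrix e f)ᴴ * (K k).submatrix e f = ((K k)ᴴ * K k).submatrix f f := by
    intro k
    rw [Matrix.conjTranspose_submatrix, Matrix.submatrix_mul_equiv]
  simp only [h1]
  rw [← Matrix.submatrix_one_equiv f, ← h]
  ext i j
  rw [Matrix.sum_apply, Matrix.submatrix_apply, Matrix.sum_apply]
  rfl

theorem sub_sum1 {κ I I' : Type} [Fintype κ] [DecidableEq I] [DecidableEq I']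
    (K : κ → Matrix I I ℂ) (e : I' ≃ I) (h : ∑ k, K k = 1) : ∑ k, (K k).submatrix e e = 1 := by
  rw [← Matrix.submatrix_one_equiv e, ← h]
  ext i j
  rw [Matrix.sum_apply, Matrix.submatrix_apply, Matrix.sum_apply]
  rfl

theorem triv_sum {κ I1 I2 J : Type} [Fintype κ] [Unique κ] [Fintype I1] [Fintype I2] [Unique I1]
    [Unique I2] [DecidableEq J] [Unique J] (A : Matrix (I1 × I2) J ℂ) (hA : ∀ i j, A i j = 1) :
    ∑ _k : κ, Aᴴ * A = 1 := by
  rw [Fintype.sum_unique]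
  ext i j
  rw [Matrix.mul_apply, Fintype.sum_prod_type, Fintype.sum_unique, Fintype.sum_unique,
    Subsingleton.elim i j, Matrix.one_apply_eq, Matrix.conjTranspose_apply, hA, star_one, mul_one]

theorem KX_sum (u : C.U ⊕ X.RU) (x : ∀ o : C.O ⊕ X.RO, fam1 Q.α o) :
    ∑ k, (KX X Q u x k)ᴴ * KX X Q u x k = 1 := by
  rcases u with u | u
  · exact sub_sum (κ := Q.κ u) (fun k => Q.K u (fun o => x (Sum.inl o)) k)
      (Equiv.prodCongr (resE fun o => fam2 (κ' := X.RO) (ι' := X.RU) Q.I (Sum.inl u) o)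
        (resE fun u' => fam2 (κ' := X.RU) (ι' := X.RU) Q.J (Sum.inl u) u'))
      (resE fun u' => fam2 (κ' := X.RU) (ι' := X.RU) Q.J u' (Sum.inl u))
      (Q.K_sum u (fun o => x (Sum.inl o)))
  · exact triv_sum (κ := fam1 Q.κ (Sum.inr u))
      (I1 := ∀ o : C.O ⊕ X.RO, fam2 Q.I (Sum.inr u) o)
      (I2 := ∀ u' : C.U ⊕ X.RU, fam2 Q.J (Sum.inr u) u')
      (J := ∀ u' : C.U ⊕ X.RU, fam2 Q.J u' (Sum.inr u)) (fun _ _ => 1) (fun _ _ => rfl)

theorem EX_psd (o : C.O ⊕ X.RO) (x : ∀ o : C.O ⊕ X.RO, fam1 Q.α o) (a : fam1 Q.α o) :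
    (EX X Q o x a).PosSemidef := by
  rcases o with o | o
  · exact (Q.E_posSemidef o _ a).submatrix _
  · exact Matrix.PosSemidef.one

theorem EX_sum (o : C.O ⊕ X.RO) (x : ∀ o : C.O ⊕ X.RO, fam1 Q.α o) :
    ∑ a, EX X Q o x a = 1 := by
  rcases o with o | o
  · exact sub_sum1 (κ := Q.α o) (fun a => Q.E o (fun o => x (Sum.inl o)) a)
      (resE fun u => fam2 (κ' := X.RO) (ι' := X.RU) Q.I u (Sum.inl o))
      (Q.E_sum o (fun o => x (Sum.inl o)))
  · exact (Finset.sum_const (s := (Finset.univ : Finset Unit))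
      (1 : Matrix (∀ u : C.U ⊕ X.RU, fam2 Q.I u (Sum.inr o)) _ ℂ)).trans (by simp)

/-- the extension of a quantum model -/
noncomputable def exQ : QuantumModel X.toCS where
  α := fam1 Q.α
  I := fam2 Q.I
  J := fam2 Q.J
  κ := fam1 Q.κ
  fα := fam1.f
  nα := fam1.n
  fI := fam2.f
  dI := fam2.d
  fJ := fam2.f
  dJ := fam2.d
  fκ := fam1.f
  I_trivial u o h := by
    rcases u with u | u
    · rcases o with o | o
      · refine Q.I_trivial u o fun h' => h ?_
        exact (X.parents _ (Sum.inl o)).2 ⟨Sum.inr u, rfl, h'⟩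
      · exact Fintype.card_unique
    · exact Fintype.card_unique
  J_trivial u u' h := by
    rcases u with u | u
    · rcases u' with u' | u'
      · refine Q.J_trivial u u' fun h' => h ?_
        exact (X.parents _ (Sum.inr u')).2 ⟨Sum.inr u, rfl, h'⟩
      · exact Fintype.card_unique
    · exact Fintype.card_unique
  K := KX X Q
  K_sum := KX_sum X Q
  K_local u x x' h := by
    rcases u with u | u
    · funext k
      have e : Q.K u (fun o => x (Sum.inl o)) = Q.K u (fun o => x' (Sum.inl o)) :=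
        Q.K_local u _ _ fun o ho => h (Sum.inl o) ((X.parents _ (Sum.inr u)).2
          ⟨Sum.inl o, rfl, ho⟩)
      show (Q.K u (fun o => x (Sum.inl o)) k).submatrix _ _ = _
      rw [e]
      rfl
    · rfl
  E := EX X Q
  E_posSemidef := EX_psd X Q
  E_sum := EX_sum X Q
  E_local o x x' h := by
    rcases o with o | o
    · funext a
      have e : Q.E o (fun o => x (Sum.inl o)) = Q.E o (fun o => x' (Sum.inl o)) :=
        Q.E_local o _ _ fun o' ho => h (Sum.inl o') ((X.parents _ (Sum.inl o)).2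
          ⟨Sum.inl o', rfl, ho⟩)
      show (Q.E o (fun o => x (Sum.inl o)) a).submatrix _ _ = _
      rw [e]
      rfl
    · rfl

theorem exQ_dist (x : ∀ o : C.O ⊕ X.RO, fam1 Q.α o) :
    (exQ X Q).dist x = Q.dist (fun o => x (Sum.inl o)) := by
  have h1 : (exQ X Q).dist x = (∑ i : ∀ (u : C.U ⊕ X.RU) (o : C.O ⊕ X.RO), fam2 Q.I u o,
      ∑ i' : ∀ (u : C.U ⊕ X.RU) (o : C.O ⊕ X.RO), fam2 Q.I u o,
      ∑ j : ∀ (u u' : C.U ⊕ X.RU), fam2 Q.J u u', ∑ j' : ∀ (u u' : C.U ⊕ X.RU), fam2 Q.J u u',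
      (∏ u : C.U ⊕ X.RU, ∑ k, KX X Q u x k (i u, j u) (fun u' => j u' u) *
        star (KX X Q u x k (i' u, j' u) (fun u' => j' u' u))) *
      ∏ o : C.O ⊕ X.RO, EX X Q o x (x o) (fun u => i' u o) (fun u => i u o)).re := rfl
  rw [h1]
  unfold QuantumModel.dist
  congr 1
  rw [← (resE2 (ι' := X.RU) (κ' := X.RO) Q.I).sum_comp]
  refine Finset.sum_congr rfl fun i _ => ?_
  rw [← (resE2 (ι' := X.RU) (κ' := X.RO) Q.I).sum_comp]
  refine Finset.sum_congr rfl fun i' _ => ?_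
  rw [← (resE2 (ι' := X.RU) (κ' := X.RU) Q.J).sum_comp]
  refine Finset.sum_congr rfl fun j _ => ?_
  rw [← (resE2 (ι' := X.RU) (κ' := X.RU) Q.J).sum_comp]
  refine Finset.sum_congr rfl fun j' _ => ?_
  rw [Fintype.prod_sum_type, Fintype.prod_sum_type]
  have e1 : ∀ r : X.RU, ∑ k, KX X Q (Sum.inr r) x k (i (Sum.inr r), j (Sum.inr r))
      (fun u' => j u' (Sum.inr r)) * star (KX X Q (Sum.inr r) x k (i' (Sum.inr r), j' (Sum.inr r))
      (fun u' => j' u' (Sum.inr r))) = 1 := by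
    intro r
    rw [Fintype.sum_unique]
    show (1 : ℂ) * star 1 = 1
    simp
  have e2 : ∀ r : X.RO, EX X Q (Sum.inr r) x (x (Sum.inr r)) (fun u => i' u (Sum.inr r))
      (fun u => i u (Sum.inr r)) = 1 := by
    intro r
    rw [Subsingleton.elim (fun u => i' u (Sum.inr r)) (fun u => i u (Sum.inr r))]
    exact Matrix.one_apply_eq _
  simp only [e1, e2, Finset.prod_const_one, mul_one]
  rfl

theorem exQ_push (x : ∀ o : C.O, fam1 Q.α (Sum.inl o : C.O ⊕ X.RO)) : Q.dist x =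
      ∑ y : ∀ r : X.RO, fam1 Q.α (Sum.inr r : C.O ⊕ X.RO),
        (exQ X Q).dist ((Equiv.sumPiEquivProdPi (fam1 Q.α)).symm (x, y)) := by
  have h1 : Q.dist x = ∑ _y : ∀ r : X.RO, fam1 Q.α (Sum.inr r : C.O ⊕ X.RO), Q.dist x :=
    (Fintype.sum_unique (fun _ : ∀ r : X.RO, fam1 Q.α (Sum.inr r : C.O ⊕ X.RO) => Q.dist x)).symm
  refine h1.trans (Finset.sum_congr rfl fun y _ => ?_)
  exact (exQ_dist X Q ((Equiv.sumPiEquivProdPi (fam1 Q.α)).symm (x, y))).symm

theorem resV_quantum (Q : QuantumModel C) : ∃ v ∈ quantumEntropySet X.toCS,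
    resV (O := C.O) (R := X.RO) v = entropyVector Q.dist := by
  refine ⟨_, ⟨exQ X Q, rfl⟩, ?_⟩
  funext S
  exact (entropy_push (O := C.O) (R := X.RO) (α := fam1 Q.α) (exQ X Q).dist Q.dist
    (exQ_push X Q) S.1).symm

/-- the property is inherited by the extensions -/
theorem inherit (h : ¬ quantumEntropySet C ⊆ closure (classicalEntropySet C)) :
    ¬ quantumEntropySet X.toCS ⊆ closure (classicalEntropySet X.toCS) := by
  intro hX
  refine h ?_
  rintro _ ⟨Q, rfl⟩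
  obtain ⟨v, hv, hv'⟩ := resV_quantum X Q
  rw [← hv']
  have h1 : Set.MapsTo (resV (O := C.O) (R := X.RO)) (classicalEntropySet X.toCS)
      (classicalEntropySet C) := fun w hw => resV_classical X w hw
  exact h1.closure (resV_cont (O := C.O) (R := X.RO)) (hX hv)

end Pool.Agent.KS6_70.EC
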