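import Pool.Agent.KS6_70.EC.GlueQ

/-! Trivial extensions of the models. -/

set_option autoImplicit false

namespace Pool.Agent.KS6_70.EC

open Pool.Agent.V11263.Causal
open Pool.Agent.R993.EC (pr Hs Hs_free Hs_congr)

theorem fam1_inr {ι ι' : Type} {B : ι → Type} (z t : ∀ i : ι ⊕ ι', fam1 B i) (r : ι') :
    z (Sum.inr r) = t (Sum.inr r) := Subsingleton.elim _ _

/-- the extension of the entropy vectors -/
noncomputable def exV {O R : Type} [DecidableEq O] [DecidableEq R]
    (v : {S : Finset O // S.Nonempty} → ℝ) : {S : Finset (O ⊕ R) // S.Nonempty} → ℝ :=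
  fun S => if h : S.1.toLeft.Nonempty then v ⟨S.1.toLeft, h⟩ else 0

theorem resV_exV {O R : Type} [DecidableEq O] [DecidableEq R]
    (v : {S : Finset O // S.Nonempty} → ℝ) : resV (R := R) (exV v) = v := by
  funext S
  have h : (S.1.map Function.Embedding.inl : Finset (O ⊕ R)).toLeft = S.1 := by
    ext o
    rw [Finset.mem_toLeft, Finset.mem_map]
    constructor
    · rintro ⟨a, ha, h⟩
      rwa [← Sum.inl_injective h]
    · intro ho
      exact ⟨o, ho, rfl⟩
  unfold resV exV
  simp only [h]
  rw [dif_pos S.2]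

theorem exV_mid {O R : Type} [DecidableEq O] [DecidableEq R]
    (v w : {S : Finset O // S.Nonempty} → ℝ) :
    exV (R := R) ((1 / 2 : ℝ) • v + (1 / 2 : ℝ) • w) =
      (1 / 2 : ℝ) • exV (R := R) v + (1 / 2 : ℝ) • exV (R := R) w := by
  funext S
  rw [Pi.add_apply, Pi.smul_apply, Pi.smul_apply, smul_eq_mul, smul_eq_mul]
  unfold exV
  split_ifs
  · rw [Pi.add_apply, Pi.smul_apply, Pi.smul_apply, smul_eq_mul, smul_eq_mul]
  · ring

theorem entropy_ex {O R : Type} [Fintype O] [DecidableEq O] [Fintype R] [DecidableEq R]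
    {α : O → Type} [∀ o, Fintype (α o)] (q : (∀ o, α o) → ℝ) (hq : ∑ x, q x = 1)
    (q' : (∀ o : O ⊕ R, fam1 α o) → ℝ) (h : ∀ x, q' x = q (fun o => x (Sum.inl o))) :
    entropyVector (O := O ⊕ R) (α := fam1 α) q' = exV (entropyVector (O := O) (α := α) q) := by
  classical
  funext S
  obtain ⟨S, hS⟩ := S
  have h1 : HS (k := fam1 α) q' S = HS (k := α) q S.toLeft := by
    have e1 : HS (k := fam1 α) q' S =
        Hs q' (fun z => restr (k := α) S.toLeft (fun o => z (Sum.inl o))) := by
      symm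
      refine Hs_eq_HS _ fun z t => ?_
      refine (restr_eq (k := α) (S := S.toLeft) (x := fun o => z (Sum.inl o))
        (y := fun o => t (Sum.inl o))).trans ?_
      constructor
      · intro h a ha
        rcases a with a | a
        · exact h a (Finset.mem_toLeft.2 ha)
        · exact fam1_inr z t a
      · intro h o ho
        exact h _ (Finset.mem_toLeft.1 ho)
    rw [e1]
    unfold HS Hs
    refine Finset.sum_congr rfl fun v _ => ?_
    congr 1
    unfold pr
    refine Eq.trans ?_ ((resE (fam1 (ι' := R) α)).sum_comp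
      (fun x => @ite ℝ (restr (k := α) S.toLeft x = v) (Classical.propDecidable _) (q x) 0))
    refine Finset.sum_congr rfl fun x _ => ?_
    by_cases hx : restr (k := α) S.toLeft (fun o => x (Sum.inl o)) = v
    · exact (if_pos hx).trans ((h x).trans (if_pos hx).symm)
    · exact (if_neg hx).trans (if_neg hx).symm
  have h2 : entropyVector (O := O ⊕ R) (α := fam1 α) q' ⟨S, hS⟩ =
      entropy (O := O ⊕ R) (α := fam1 α) q' S := rfl
  rw [h2, entropy_eq, h1]
  unfold exV
  by_cases hT : S.toLeft.Nonempty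
  · rw [dif_pos hT]
    exact (entropy_eq q S.toLeft).symm
  · rw [dif_neg hT]
    rw [Finset.not_nonempty_iff_eq_empty] at hT
    rw [hT, HS_empty hq, zero_div]

variable {C : CausalStructure} (X : Extension C)

/-- the conditional probabilities -/
def PX (M : ClassicalModel C) : (o : C.O ⊕ X.RO) → (∀ o : C.O ⊕ X.RO, fam1 M.α o) →
    (∀ u : C.U ⊕ X.RU, fam1 M.β u) → fam1 M.α o → ℝ
  | Sum.inl o, x, l, a => M.P o (fun o => x (Sum.inl o)) (fun u => l (Sum.inl u)) a
  | Sum.inr _, _, _, _ => 1

def RX (M : ClassicalModel C) : (u : C.U ⊕ X.RU) → (∀ o : C.O ⊕ X.RO, fam1 M.α o) →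
    (∀ u : C.U ⊕ X.RU, fam1 M.β u) → fam1 M.β u → ℝ
  | Sum.inl u, x, l, b => M.R u (fun o => x (Sum.inl o)) (fun u => l (Sum.inl u)) b
  | Sum.inr _, _, _, _ => 1

/-- the trivial extension of a classical model -/
noncomputable def exC (M : ClassicalModel C) : ClassicalModel X.toCS where
  α := fam1 M.α
  β := fam1 M.β
  fα := fam1.f
  nα := fam1.n
  fβ := fam1.f
  nβ := fam1.n
  P := PX X M
  R := RX X M
  P_nonneg o x l a := by
    rcases o with o | o
    · exact M.P_nonneg _ _ _ _
    · exact zero_le_one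
  P_sum o x l := by
    rcases o with o | o
    · exact M.P_sum _ _ _
    · exact (Finset.sum_const (s := (Finset.univ : Finset Unit)) (1 : ℝ)).trans (by simp)
  P_local o x l x' l' h h' := by
    rcases o with o | o
    · funext a
      refine congrFun (M.P_local o _ _ _ _ (fun o' ho => h (Sum.inl o') ?_)
        (fun u hu => h' (Sum.inl u) ?_)) a
      · exact (X.parents _ (Sum.inl o)).2 ⟨Sum.inl o', rfl, ho⟩
      · exact (X.parents _ (Sum.inl o)).2 ⟨Sum.inr u, rfl, hu⟩
    · rfl
  R_nonneg o x l a := by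
    rcases o with o | o
    · exact M.R_nonneg _ _ _ _
    · exact zero_le_one
  R_sum o x l := by
    rcases o with o | o
    · exact M.R_sum _ _ _
    · exact (Finset.sum_const (s := (Finset.univ : Finset Unit)) (1 : ℝ)).trans (by simp)
  R_local o x l x' l' h h' := by
    rcases o with o | o
    · funext a
      refine congrFun (M.R_local o _ _ _ _ (fun o' ho => h (Sum.inl o') ?_)
        (fun u hu => h' (Sum.inl u) ?_)) a
      · exact (X.parents _ (Sum.inr o)).2 ⟨Sum.inl o', rfl, ho⟩
      · exact (X.parents _ (Sum.inr o)).2 ⟨Sum.inr u, rfl, hu⟩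
    · rfl

theorem exC_dist (M : ClassicalModel C) (x : ∀ o : C.O ⊕ X.RO, fam1 M.α o) :
    (exC X M).dist x = M.dist (fun o => x (Sum.inl o)) := by
  have h1 : (exC X M).dist x = ∑ l : ∀ u : C.U ⊕ X.RU, fam1 M.β u,
      (∏ o : C.O ⊕ X.RO, PX X M o x l (x o)) * ∏ u : C.U ⊕ X.RU, RX X M u x l (l u) := rfl
  rw [h1]
  refine Eq.trans ?_ ((resE (fam1 (ι' := X.RU) M.β)).sum_comp (fun l : ∀ u, M.β u =>
    (∏ o, M.P o (fun o => x (Sum.inl o)) l (x (Sum.inl o))) *
      ∏ u, M.R u (fun o => x (Sum.inl o)) l (l u)))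
  refine Finset.sum_congr rfl fun l _ => ?_
  rw [Fintype.prod_sum_type, Fintype.prod_sum_type]
  have e1 : ∀ r : X.RO, PX X M (Sum.inr r) x l (x (Sum.inr r)) = 1 := fun r => rfl
  have e2 : ∀ r : X.RU, RX X M (Sum.inr r) x l (l (Sum.inr r)) = 1 := fun r => rfl
  simp only [e1, e2, Finset.prod_const_one, mul_one]
  rfl

theorem exV_classical (M : ClassicalModel C) (hM : ∑ x, M.dist x = 1) :
    exV (R := X.RO) (entropyVector M.dist) ∈ classicalEntropySet X.toCS :=
  ⟨exC X M, (entropy_ex (O := C.O) (R := X.RO) (α := M.α) M.dist hM (exC X M).dist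
    (exC_dist X M)).symm⟩

theorem exV_quantum (Q : QuantumModel C) (hQ : ∑ x, Q.dist x = 1) :
    exV (R := X.RO) (entropyVector Q.dist) ∈ quantumEntropySet X.toCS :=
  ⟨exQ X Q, (entropy_ex (O := C.O) (R := X.RO) (α := Q.α) Q.dist hQ (exQ X Q).dist
    (exQ_dist X Q)).symm⟩

theorem exV_not (v : {S : Finset C.O // S.Nonempty} → ℝ)
    (hv : v ∉ closure (classicalEntropySet C)) :
    exV (R := X.RO) v ∉ closure (classicalEntropySet X.toCS) := by
  intro h
  refine hv ?_
  rw [← resV_exV (R := X.RO) v]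
  have h1 : Set.MapsTo (resV (O := C.O) (R := X.RO)) (classicalEntropySet X.toCS)
      (classicalEntropySet C) := fun w hw => resV_classical X w hw
  exact h1.closure (resV_cont (O := C.O) (R := X.RO)) h

theorem unif_sum (f : Fin 2 → Fin 2 → Fin 2) : ∑ x, unif f x = 1 := by
  unfold unif
  rw [Finset.sum_comm]
  simp only [Finset.sum_ite_eq, Finset.mem_univ, if_true]
  simp only [Finset.sum_const, Finset.card_univ, Fintype.card_prod, Fintype.card_fin, nsmul_eq_mul]
  norm_num

/-- all extensions of `K5` -/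
theorem main_ext (X : Extension K5) : ∃ v ∈ classicalEntropySet X.toCS,
    ∃ w ∈ classicalEntropySet X.toCS,
      (1 / 2 : ℝ) • v + (1 / 2 : ℝ) • w ∈ quantumEntropySet X.toCS ∧
      (1 / 2 : ℝ) • v + (1 / 2 : ℝ) • w ∉ closure (classicalEntropySet X.toCS) := by
  have c : ∀ ga gc : Fin 2 → Fin 2, exV (R := X.RO) (vf fun y x => ga x + gc (y + x)) ∈
      classicalEntropySet X.toCS := by
    intro ga gc
    have h1 := exV_classical X (CM ga gc) (by
      have := unif_sum (fun y x => ga x + gc (y + x))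
      rw [← CM_dist_eq] at this
      exact this)
    have h2 : entropyVector (CM ga gc).dist = vf fun y x => ga x + gc (y + x) :=
      congrArg (entropyVector (O := Fin 5) (α := A5)) (CM_dist_eq ga gc)
    rwa [h2] at h1
  have c0 : exV (R := X.RO) (vf f0) ∈ classicalEntropySet X.toCS := by
    have h := c (fun _ => 0) (fun _ => 0)
    have e : (fun _ _ : Fin 2 => (0 : Fin 2) + 0) = f0 := by
      funext y x
      rfl
    rwa [e] at h
  have c1 : exV (R := X.RO) (vf f1) ∈ classicalEntropySet X.toCS := by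
    have h := c (fun x => x) (fun z => z)
    have e : (fun y x : Fin 2 => x + (y + x)) = f1 := by
      funext y x
      revert y x
      decide
    rwa [e] at h
  have c2 : exV (R := X.RO) vQ ∈ quantumEntropySet X.toCS := by
    have h1 := exV_quantum X QM (by
      have := unif_sum fQ
      rw [← QM_dist_eq] at this
      exact this)
    have h2 : entropyVector QM.dist = vQ :=
      congrArg (entropyVector (O := Fin 5) (α := A5)) QM_dist_eq
    rwa [h2] at h1
  have c3 : exV (R := X.RO) vQ ∉ closure (classicalEntropySet X.toCS) := exV_not X vQ vQ_not_mem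
  have e : exV (R := X.RO) vQ = (1 / 2 : ℝ) • exV (R := X.RO) (vf f0) +
      (1 / 2 : ℝ) • exV (R := X.RO) (vf f1) := by
    rw [vQ_mid]
    exact exV_mid (O := Fin 5) (R := X.RO) (vf f0) (vf f1)
  rw [e] at c2 c3
  exact ⟨_, c0, _, c1, c2, c3⟩

end Pool.Agent.KS6_70.EC
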