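import Pool.Agent.KS6_70.EC.Bell
import Pool.Graph.R_pool_sql_team_seeded_843ab51a.V11263.Causal

/-! The causal structure with five observed nodes. -/

set_option autoImplicit false

namespace Pool.Agent.KS6_70.EC

open Pool.Agent.V11263.Causal

/-- The edges: `Y → Z`, `Y → B`, `Z → C` (`Y = 0`, `Z = 1`, `A = 2`, `B = 3`, `C = 4`), `S → Z`,
`S → A` (`S` is the unobserved node `0`) and `T → A`, `T → B`, `T → C` (`T` is the unobserved
node `1`). -/
def edge5 : Fin 5 ⊕ Fin 2 → Fin 5 ⊕ Fin 2 → Bool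
  | Sum.inl a, Sum.inl b => (a = 0 ∧ b = 1) ∨ (a = 0 ∧ b = 3) ∨ (a = 1 ∧ b = 4)
  | Sum.inr u, Sum.inl b => (u = 0 ∧ (b = 1 ∨ b = 2)) ∨ (u = 1 ∧ (b = 2 ∨ b = 3 ∨ b = 4))
  | _, Sum.inr _ => false

/-- a rank function which increases along the edges -/
def rank5 : Fin 5 ⊕ Fin 2 → ℕ
  | Sum.inl a => a.val + 1
  | Sum.inr _ => 0

theorem rank5_lt (a b : Fin 5 ⊕ Fin 2) (h : edge5 a b = true) : rank5 a < rank5 b := by
  revert a b
  decide

/-- the causal structure -/
def K5 : CausalStructure where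
  O := Fin 5
  U := Fin 2
  edge a b := edge5 a b = true
  acyclic := ⟨rank5, rank5_lt⟩

/-- the distributions of the classical models, for explicit data -/
noncomputable def cl5_of_raw {α : Fin 5 → Type} [∀ o, Fintype (α o)] {β : Fin 2 → Type}
    [∀ u, Fintype (β u)] (x0 : ∀ o, α o) (l0 : ∀ u, β u)
    (P : ∀ o, (∀ o', α o') → (∀ u, β u) → α o → ℝ)
    (R : ∀ u, (∀ o', α o') → (∀ u', β u') → β u → ℝ)
    (P_nonneg : ∀ o x l a, 0 ≤ P o x l a) (P_sum : ∀ o x l, ∑ a, P o x l a = 1)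
    (P_local : ∀ o x l x' l', (∀ o', edge5 (Sum.inl o') (Sum.inl o) = true → x o' = x' o') →
      (∀ u, edge5 (Sum.inr u) (Sum.inl o) = true → l u = l' u) → P o x l = P o x' l')
    (R_nonneg : ∀ u x l b, 0 ≤ R u x l b) (R_sum : ∀ u x l, ∑ b, R u x l b = 1)
    (R_local : ∀ u x l x' l', (∀ o', edge5 (Sum.inl o') (Sum.inr u) = true → x o' = x' o') →
      (∀ u', edge5 (Sum.inr u') (Sum.inr u) = true → l u' = l' u') → R u x l = R u x' l') :
    Cl5 (fun x : (∀ o, α o) => ∑ l : ∀ u, β u, (∏ o, P o x l (x o)) * ∏ u, R u x l (l u)) where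
  S := β 0
  T := β 1
  μ s := R 0 x0 l0 s
  ν t := R 1 x0 l0 t
  pY y := P 0 x0 l0 y
  pZ y s z := P 1 (Function.update x0 0 y) (Function.update l0 0 s) z
  pA s t a := P 2 x0 (Function.update (Function.update l0 0 s) 1 t) a
  pB y t b := P 3 (Function.update x0 0 y) (Function.update l0 1 t) b
  pC z t c := P 4 (Function.update x0 1 z) (Function.update l0 1 t) c
  μ0 _ := R_nonneg _ _ _ _
  μ1 := R_sum _ _ _
  ν0 _ := R_nonneg _ _ _ _
  ν1 := R_sum _ _ _
  Y0 _ := P_nonneg _ _ _ _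
  Y1 := P_sum _ _ _
  Z0 _ _ _ := P_nonneg _ _ _ _
  Z1 _ _ := P_sum _ _ _
  A0 _ _ _ := P_nonneg _ _ _ _
  A1 _ _ := P_sum _ _ _
  B0 _ _ _ := P_nonneg _ _ _ _
  B1 _ _ := P_sum _ _ _
  C0 _ _ _ := P_nonneg _ _ _ _
  C1 _ _ := P_sum _ _ _
  eq ω := by
    have e0 : ∀ l, P 0 ω l = P 0 x0 l0 := fun l => P_local _ _ _ _ _
      (fun o' ho => by revert ho; fin_cases o' <;> simp [edge5])
      (fun u hu => by revert hu; fin_cases u <;> simp [edge5])
    have e1 : ∀ l, P 1 ω l = P 1 (Function.update x0 0 (ω 0)) (Function.update l0 0 (l 0)) :=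
      fun l => P_local _ _ _ _ _
      (fun o' ho => by revert ho; fin_cases o' <;> simp [edge5])
      (fun u hu => by revert hu; fin_cases u <;> simp [edge5])
    have e2 : ∀ l, P 2 ω l = P 2 x0 (Function.update (Function.update l0 0 (l 0)) 1 (l 1)) :=
      fun l => P_local _ _ _ _ _
      (fun o' ho => by revert ho; fin_cases o' <;> simp [edge5])
      (fun u hu => by revert hu; fin_cases u <;> simp [edge5])
    have e3 : ∀ l, P 3 ω l = P 3 (Function.update x0 0 (ω 0)) (Function.update l0 1 (l 1)) :=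
      fun l => P_local _ _ _ _ _
      (fun o' ho => by revert ho; fin_cases o' <;> simp [edge5])
      (fun u hu => by revert hu; fin_cases u <;> simp [edge5])
    have e4 : ∀ l, P 4 ω l = P 4 (Function.update x0 1 (ω 1)) (Function.update l0 1 (l 1)) :=
      fun l => P_local _ _ _ _ _
      (fun o' ho => by revert ho; fin_cases o' <;> simp [edge5])
      (fun u hu => by revert hu; fin_cases u <;> simp [edge5])
    have r0 : ∀ u l, R u ω l = R u x0 l0 := fun u l => R_local _ _ _ _ _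
      (fun o' ho => by simp [edge5] at ho) (fun u hu => by simp [edge5] at hu)
    simp only [Fin.prod_univ_five, Fin.prod_univ_two, e0, e1, e2, e3, e4, r0]
    rw [← (piFinTwoEquiv β).symm.sum_comp, Fintype.sum_prod_type]
    refine Finset.sum_congr rfl fun s _ => Finset.sum_congr rfl fun t _ => ?_
    have g0 : (piFinTwoEquiv β).symm (s, t) 0 = s := rfl
    have g1 : (piFinTwoEquiv β).symm (s, t) 1 = t := rfl
    simp only [g0, g1]
    ring

/-- The classical models of `K5` are of the form considered before. -/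
noncomputable def cl5_of_model (M : ClassicalModel K5) : @Cl5 M.α M.fα M.dist :=
  letI : ∀ o : Fin 5, Fintype (M.α o) := M.fα
  letI : ∀ u : Fin 2, Fintype (M.β u) := M.fβ
  cl5_of_raw (α := M.α) (β := M.β) (fun o => (M.nα o).some) (fun u => (M.nβ u).some) M.P M.R
    M.P_nonneg M.P_sum M.P_local M.R_nonneg M.R_sum M.R_local

end Pool.Agent.KS6_70.EC
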