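import Pool.Agent.KS6_70.EC.W

/-! Limits along an ultrafilter (after the library module `R993.EC`, for arbitrary coordinates). -/

set_option autoImplicit false

open Filter Topology

namespace Pool.Agent.KS6_70.EC

open Pool.Agent.R993.EC

theorem exists_lim (𝒰 : Ultrafilter ℕ) (f : ℕ → ℝ) (h0 : ∀ n, 0 ≤ f n) (h1 : ∀ n, f n ≤ 1) :
    ∃ c, 0 ≤ c ∧ c ≤ 1 ∧ Tendsto f 𝒰 (𝓝 c) := by
  have h := (isCompact_Icc (a := (0 : ℝ)) (b := 1)).ultrafilter_le_nhds (𝒰.map f) (by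
    rw [Ultrafilter.coe_map, le_principal_iff, mem_map]
    exact univ_mem' fun n => ⟨h0 n, h1 n⟩)
  obtain ⟨c, hc, hc'⟩ := h
  exact ⟨c, hc.1, hc.2, hc'⟩

theorem inj2 {α : Type*} (f : Fin 2 → α) (h : f 0 ≠ f 1) {i j : Fin 2} (hij : f i = f j) :
    i = j := by
  by_contra hne
  have : (i = 0 ∧ j = 1) ∨ (i = 1 ∧ j = 0) := by omega
  rcases this with ⟨rfl, rfl⟩ | ⟨rfl, rfl⟩
  · exact h hij
  · exact h hij.symm

variable {O : Type} [Fintype O] [DecidableEq O]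

section
variable {k : ℕ → O → Type} [∀ n a, Fintype (k n a)] {P : ∀ n, Pt (k n) → ℝ} {𝒰 : Ultrafilter ℕ}
  (hP : ∀ n x, 0 ≤ P n x) (hP1 : ∀ n, ∑ x, P n x = 1)

include hP in
theorem det_lim {S T : Finset O} (hST : S ⊆ T)
    (hH : Tendsto (fun n => HS (P n) T - HS (P n) S) 𝒰 (𝓝 0)) (t : ∀ n, Pt (k n)) {c : ℝ}
    (hc : 0 < c) (hT : Tendsto (fun n => w (P n) T (t n)) 𝒰 (𝓝 c)) :
    Tendsto (fun n => w (P n) S (t n)) 𝒰 (𝓝 c) := by
  have hpos : ∀ᶠ n in (𝒰 : Filter ℕ), 0 < w (P n) T (t n) := hT.eventually (lt_mem_nhds hc)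
  have hup : Tendsto (fun n => w (P n) T (t n) *
      Real.exp ((HS (P n) T - HS (P n) S) / w (P n) T (t n))) 𝒰 (𝓝 c) := by
    have h1 : Tendsto (fun n => (HS (P n) T - HS (P n) S) / w (P n) T (t n)) 𝒰 (𝓝 (0 / c)) :=
      hH.div hT hc.ne'
    have h2 := hT.mul ((Real.continuous_exp.tendsto _).comp h1)
    simpa using h2
  refine tendsto_of_tendsto_of_tendsto_of_le_of_le' hT hup
    (Eventually.of_forall fun n => w_anti (hP n) hST _) ?_
  filter_upwards [hpos] with n hn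
  have h1 := cond_family (hP n) hST (fun _ : Unit => t n) (fun i j _ => rfl)
  rw [Fintype.sum_unique] at h1
  have hS : 0 < w (P n) S (t n) := hn.trans_le (w_anti (hP n) hST _)
  have h2 : Real.log (w (P n) S (t n) / w (P n) T (t n)) ≤
      (HS (P n) T - HS (P n) S) / w (P n) T (t n) := by
    rw [le_div_iff₀ hn, mul_comm]
    exact h1
  have h3 := Real.exp_le_exp.2 h2
  rw [Real.exp_log (by positivity), div_le_iff₀ hn] at h3
  linarith

include hP in
theorem exmax_lim {S : Finset O} {o : O} (ho : o ∉ S)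
    (hH : Tendsto (fun n => HS (P n) (insert o S) - HS (P n) S) 𝒰 (𝓝 0)) (t : ∀ n, Pt (k n))
    {c : ℝ} (hc : 0 < c) (hS : Tendsto (fun n => w (P n) S (t n)) 𝒰 (𝓝 c)) :
    ∃ v : ∀ n, k n o,
      Tendsto (fun n => w (P n) (insert o S) (Function.update (t n) o (v n))) 𝒰 (𝓝 c) := by
  have hpos : ∀ᶠ n in (𝒰 : Filter ℕ), 0 < w (P n) S (t n) := hS.eventually (lt_mem_nhds hc)
  have hex : ∀ n, ∃ v : k n o, 0 < w (P n) S (t n) →
      w (P n) S (t n) * Real.exp (-(HS (P n) (insert o S) - HS (P n) S) / w (P n) S (t n)) ≤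
        w (P n) (insert o S) (Function.update (t n) o v) := by
    intro n
    by_cases h : 0 < w (P n) S (t n)
    · obtain ⟨v, -, hv⟩ := exmax (hP n) ho (t n) Finset.univ (w (P n) S (t n))
        (sum_values ho (t n)).symm h
      exact ⟨v, fun _ => hv⟩
    · exact ⟨t n o, fun h' => absurd h' h⟩
  choose v hv using hex
  refine ⟨v, ?_⟩
  have hlo : Tendsto (fun n => w (P n) S (t n) *
      Real.exp (-(HS (P n) (insert o S) - HS (P n) S) / w (P n) S (t n))) 𝒰 (𝓝 c) := by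
    have h1 : Tendsto (fun n => -(HS (P n) (insert o S) - HS (P n) S) / w (P n) S (t n)) 𝒰
        (𝓝 (-0 / c)) := hH.neg.div hS hc.ne'
    have h2 := hS.mul ((Real.continuous_exp.tendsto _).comp h1)
    simpa using h2
  refine tendsto_of_tendsto_of_tendsto_of_le_of_le' hlo hS ?_ (Eventually.of_forall fun n => ?_)
  · filter_upwards [hpos] with n hn
    exact hv n hn
  · have h1 : w (P n) S (t n) = w (P n) S (Function.update (t n) o (v n)) := by
      refine w_congr fun a ha => ?_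
      rw [Function.update_of_ne]
      exact fun h => ho (h ▸ ha)
    rw [h1]
    exact w_anti (hP n) (Finset.subset_insert _ _) _

include hP hP1 in
theorem ind_lim {S T : Finset O}
    (hH : Tendsto (fun n => HS (P n) S + HS (P n) T - HS (P n) (S ∪ T)) 𝒰 (𝓝 0))
    (t : ∀ n, Pt (k n)) {a b : ℝ} (ha : Tendsto (fun n => w (P n) S (t n)) 𝒰 (𝓝 a))
    (hb : Tendsto (fun n => w (P n) T (t n)) 𝒰 (𝓝 b)) :
    Tendsto (fun n => w (P n) (S ∪ T) (t n)) 𝒰 (𝓝 (a * b)) := by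
  have h1 : Tendsto (fun n => (w (P n) (S ∪ T) (t n) - w (P n) S (t n) * w (P n) T (t n)) ^ 2) 𝒰
      (𝓝 0) := by
    have h2 : Tendsto (fun n => 2 * (HS (P n) S + HS (P n) T - HS (P n) (S ∪ T))) 𝒰 (𝓝 0) := by
      simpa using hH.const_mul 2
    refine squeeze_zero (fun n => sq_nonneg _) (fun n => ?_) h2
    have := kl_w (hP n) (hP1 n) S T (t n)
    linarith
  have h3 : Tendsto (fun n => w (P n) (S ∪ T) (t n) - w (P n) S (t n) * w (P n) T (t n)) 𝒰
      (𝓝 0) := by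
    have h4 := (Real.continuous_sqrt.tendsto 0).comp h1
    rw [Real.sqrt_zero] at h4
    rw [tendsto_zero_iff_abs_tendsto_zero]
    refine h4.congr fun n => ?_
    simp only [Function.comp_apply]
    exact Real.sqrt_sq_eq_abs _
  have h5 := h3.add (ha.mul hb)
  simpa using h5

end

section
variable {k : O → Type} [∀ a, Fintype (k a)]

/-- the probability of the value `v` of the node `o` -/
noncomputable def w1 (P : Pt k → ℝ) (o : O) (v : k o) : ℝ :=
  pr P (fun x => x o) v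

theorem w_single (P : Pt k → ℝ) (o : O) (t : Pt k) :
    w P {o} t = w1 P o (t o) := by
  symm
  refine pr_eq_w (fun x : Pt k => x o) t fun x => ?_
  simp

theorem w1_nonneg {P : Pt k → ℝ} (hP : ∀ x, 0 ≤ P x) (o : O) (v : k o) :
    0 ≤ w1 P o v := pr_nonneg hP _ _

theorem w1_set {P : Pt k → ℝ} (hP : ∀ x, 0 ≤ P x) (hP1 : ∑ x, P x = 1) (o : O)
    (A : Finset (k o)) : ∑ v ∈ A, w1 P o v ≤ 1 := by
  have h1 : ∑ v, w1 P o v = 1 := by
    rw [← hP1]
    exact sum_pr P fun x : Pt k => x o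
  rw [← h1]
  exact Finset.sum_le_sum_of_subset_of_nonneg (Finset.subset_univ _)
    fun v _ _ => w1_nonneg hP o v

theorem w1_le_one {P : Pt k → ℝ} (hP : ∀ x, 0 ≤ P x) (hP1 : ∑ x, P x = 1) (o : O)
    (v : k o) : w1 P o v ≤ 1 := by
  simpa using w1_set hP hP1 o {v}

theorem w1_two {P : Pt k → ℝ} (hP : ∀ x, 0 ≤ P x) (hP1 : ∑ x, P x = 1) (o : O)
    {u v : k o} (h : u ≠ v) : w1 P o u + w1 P o v ≤ 1 := by
  classical
  have := w1_set hP hP1 o {u, v}
  rwa [Finset.sum_pair h] at this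

theorem w1_three {P : Pt k → ℝ} (hP : ∀ x, 0 ≤ P x) (hP1 : ∑ x, P x = 1) (o : O)
    {u v x : k o} (h : u ≠ v) (h' : u ≠ x) (h'' : v ≠ x) :
    w1 P o u + (w1 P o v + w1 P o x) ≤ 1 := by
  classical
  have := w1_set hP hP1 o {u, v, x}
  rwa [Finset.sum_insert (by simp [h, h']), Finset.sum_pair h''] at this

end

section
variable {k : ℕ → O → Type} [∀ n a, Fintype (k n a)] {P : ∀ n, Pt (k n) → ℝ} {𝒰 : Ultrafilter ℕ}
  (hP : ∀ n x, 0 ≤ P n x) (hP1 : ∀ n, ∑ x, P n x = 1) {hv : Finset O → ℝ}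
  (hlim : ∀ S, Tendsto (fun n => HS (P n) S) 𝒰 (𝓝 (hv S)))

include hP hlim in
theorem det_lim' {S T : Finset O} (hST : S ⊆ T) (hH : hv T = hv S)
    (t : ∀ n, Pt (k n)) {c : ℝ}
    (hc : 0 < c) (hT : Tendsto (fun n => w (P n) T (t n)) 𝒰 (𝓝 c)) :
    Tendsto (fun n => w (P n) S (t n)) 𝒰 (𝓝 c) := by
  refine det_lim hP hST ?_ t hc hT
  have := (hlim T).sub (hlim S)
  rwa [hH, sub_self] at this

include hP hlim in
theorem exmax_lim' {S : Finset O} {o : O} (ho : o ∉ S) (hH : hv (insert o S) = hv S)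
    (t : ∀ n, Pt (k n))
    {c : ℝ} (hc : 0 < c) (hS : Tendsto (fun n => w (P n) S (t n)) 𝒰 (𝓝 c)) :
    ∃ v : ∀ n, k n o,
      Tendsto (fun n => w (P n) (insert o S) (Function.update (t n) o (v n))) 𝒰 (𝓝 c) := by
  refine exmax_lim hP ho ?_ t hc hS
  have := (hlim (insert o S)).sub (hlim S)
  rwa [hH, sub_self] at this

include hP hP1 hlim in
theorem ind_lim' {S T : Finset O} (hH : hv S + hv T = hv (S ∪ T))
    (t : ∀ n, Pt (k n)) {a b : ℝ} (ha : Tendsto (fun n => w (P n) S (t n)) 𝒰 (𝓝 a))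
    (hb : Tendsto (fun n => w (P n) T (t n)) 𝒰 (𝓝 b)) :
    Tendsto (fun n => w (P n) (S ∪ T) (t n)) 𝒰 (𝓝 (a * b)) := by
  refine ind_lim hP hP1 ?_ t ha hb
  have := ((hlim S).add (hlim T)).sub (hlim (S ∪ T))
  rwa [hH, sub_self] at this

include hP hP1 in
theorem third {o : O} {u v x : ∀ n, k n o}
    (hu : Tendsto (fun n => w1 (P n) o (u n)) 𝒰 (𝓝 (1 / 2)))
    (hv : Tendsto (fun n => w1 (P n) o (v n)) 𝒰 (𝓝 (1 / 2)))
    (hx : Tendsto (fun n => w1 (P n) o (x n)) 𝒰 (𝓝 (1 / 2)))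
    (huv : ∀ᶠ n in (𝒰 : Filter ℕ), u n ≠ v n) (hux : ∀ᶠ n in (𝒰 : Filter ℕ), u n ≠ x n) :
    ∀ᶠ n in (𝒰 : Filter ℕ), v n = x n := by
  by_contra hcon
  have h := Ultrafilter.eventually_not.2 hcon
  have h1 : ∀ᶠ n in (𝒰 : Filter ℕ),
      w1 (P n) o (u n) + (w1 (P n) o (v n) + w1 (P n) o (x n)) ≤ 1 := by
    filter_upwards [huv, hux, h] with n h1 h2 h3
    exact w1_three (hP n) (hP1 n) o h1 h2 h3
  have h2 := le_of_tendsto (hu.add (hv.add hx)) h1
  norm_num at h2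

/-- two values of `o`, of asymptotic probability `1 / 2` -/
structure Two (k : ℕ → O → Type) [∀ n a, Fintype (k n a)] (P : ∀ n, Pt (k n) → ℝ)
    (𝒰 : Ultrafilter ℕ) (o : O) (a : Fin 2 → ∀ n, k n o) : Prop where
  lim : ∀ i, Tendsto (fun n => w1 (P n) o (a i n)) 𝒰 (𝓝 (1 / 2))
  ne : ∀ᶠ n in (𝒰 : Filter ℕ), a 0 n ≠ a 1 n

include hP1 in
theorem exists_pt (n : ℕ) : Nonempty (Pt (k n)) := by
  by_contra h
  rw [not_nonempty_iff] at h
  have := hP1 n
  rw [Fintype.sum_empty] at this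
  exact zero_ne_one this

include hP hP1 hlim in
/-- a heavy value of `o` -/
theorem heavy_pos (o : O) :
    ∃ (v : ∀ n, k n o) (c : ℝ), 0 < c ∧ Tendsto (fun n => w1 (P n) o (v n)) 𝒰 (𝓝 c) := by
  have hex : ∀ n, ∃ v : k n o,
      Real.exp (-(HS (P n) {o} - HS (P n) ∅)) ≤ w1 (P n) o v := by
    intro n
    obtain ⟨t⟩ := exists_pt hP1 n
    obtain ⟨v, -, hv⟩ := exmax (hP n) (Finset.notMem_empty o) t Finset.univ 1
      (by rw [sum_values (Finset.notMem_empty o) t, w_empty (hP1 n)]) one_pos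
    refine ⟨v, ?_⟩
    rw [w_empty (hP1 n), one_mul, div_one, insert_empty_eq, w_single,
      Function.update_self] at hv
    exact hv
  choose v hv' using hex
  obtain ⟨c, -, hc1, hc⟩ := exists_lim 𝒰 (fun n => w1 (P n) o (v n))
    (fun n => w1_nonneg (hP n) _ _) (fun n => w1_le_one (hP n) (hP1 n) _ _)
  refine ⟨v, c, ?_, hc⟩
  have h1 : Tendsto (fun n => Real.exp (-(HS (P n) {o} - HS (P n) ∅))) 𝒰
      (𝓝 (Real.exp (-(hv {o} - hv ∅)))) :=
    (Real.continuous_exp.tendsto _).comp ((hlim {o}).sub (hlim ∅)).neg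
  exact (Real.exp_pos _).trans_le (le_of_tendsto_of_tendsto h1 hc (Eventually.of_forall hv'))

include hP hlim in
/-- a heavy atom of `S` contains a heavy atom of `insert o S` -/
theorem expos {S : Finset O} {o : O} (ho : o ∉ S) (t : ∀ n, Pt (k n)) {c : ℝ}
    (hc : 0 < c) (hS : Tendsto (fun n => w (P n) S (t n)) 𝒰 (𝓝 c)) :
    ∃ (v : ∀ n, k n o) (d : ℝ), 0 < d ∧
      Tendsto (fun n => w (P n) (insert o S) (Function.update (t n) o (v n))) 𝒰 (𝓝 d) := by
  have hpos : ∀ᶠ n in (𝒰 : Filter ℕ), 0 < w (P n) S (t n) := hS.eventually (lt_mem_nhds hc)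
  have hex : ∀ n, ∃ v : k n o, 0 < w (P n) S (t n) →
      w (P n) S (t n) * Real.exp (-(HS (P n) (insert o S) - HS (P n) S) / w (P n) S (t n)) ≤
        w (P n) (insert o S) (Function.update (t n) o v) := by
    intro n
    by_cases h : 0 < w (P n) S (t n)
    · obtain ⟨v, -, hv⟩ := exmax (hP n) ho (t n) Finset.univ (w (P n) S (t n))
        (sum_values ho (t n)).symm h
      exact ⟨v, fun _ => hv⟩
    · exact ⟨t n o, fun h' => absurd h' h⟩
  choose v hv1 using hex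
  have hup : ∀ n, w (P n) (insert o S) (Function.update (t n) o (v n)) ≤ w (P n) S (t n) := by
    intro n
    have h1 : w (P n) S (t n) = w (P n) S (Function.update (t n) o (v n)) := by
      refine w_congr fun a ha => ?_
      rw [Function.update_of_ne]
      exact fun h => ho (h ▸ ha)
    rw [h1]
    exact w_anti (hP n) (Finset.subset_insert _ _) _
  have hbd : ∀ᶠ n in (𝒰 : Filter ℕ),
      w (P n) (insert o S) (Function.update (t n) o (v n)) ∈ Set.Icc 0 (c + 1) := by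
    filter_upwards [hS.eventually (gt_mem_nhds (show c < c + 1 by linarith))] with n hn
    exact ⟨w_nonneg (hP n) _ _, (hup n).trans hn.le⟩
  obtain ⟨d, hd, hd'⟩ := (isCompact_Icc (a := (0 : ℝ)) (b := c + 1)).ultrafilter_le_nhds
    (𝒰.map fun n => w (P n) (insert o S) (Function.update (t n) o (v n))) (by
      rw [Ultrafilter.coe_map, le_principal_iff, mem_map]
      exact hbd)
  have hlo : Tendsto (fun n => w (P n) S (t n) *
      Real.exp (-(HS (P n) (insert o S) - HS (P n) S) / w (P n) S (t n))) 𝒰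
        (𝓝 (c * Real.exp (-(hv (insert o S) - hv S) / c))) :=
    hS.mul ((Real.continuous_exp.tendsto _).comp
      ((((hlim _).sub (hlim _)).neg).div hS hc.ne'))
  refine ⟨v, d, ?_, hd'⟩
  have h2 := le_of_tendsto_of_tendsto hlo hd' (hpos.mono fun n hn => hv1 n hn)
  exact (mul_pos hc (Real.exp_pos _)).trans_le h2

include hP hP1 hlim in
theorem heavy_one {o : O} (h0 : hv ∅ = 0) (ho : hv {o} = Real.log 2) :
    ∃ (v : ∀ n, k n o) (c : ℝ), 1 / 2 ≤ c ∧ c ≤ 1 ∧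
      Tendsto (fun n => w1 (P n) o (v n)) 𝒰 (𝓝 c) := by
  have hex : ∀ n, ∃ v : k n o,
      Real.exp (-(HS (P n) {o} - HS (P n) ∅)) ≤ w1 (P n) o v := by
    intro n
    obtain ⟨t⟩ := exists_pt hP1 n
    obtain ⟨v, -, hv⟩ := exmax (hP n) (Finset.notMem_empty o) t Finset.univ 1
      (by rw [sum_values (Finset.notMem_empty o) t, w_empty (hP1 n)]) one_pos
    refine ⟨v, ?_⟩
    rw [w_empty (hP1 n), one_mul, div_one, insert_empty_eq, w_single,
      Function.update_self] at hv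
    exact hv
  choose v hv' using hex
  obtain ⟨c, -, hc1, hc⟩ := exists_lim 𝒰 (fun n => w1 (P n) o (v n))
    (fun n => w1_nonneg (hP n) _ _) (fun n => w1_le_one (hP n) (hP1 n) _ _)
  refine ⟨v, c, ?_, hc1, hc⟩
  have h1 : Tendsto (fun n => Real.exp (-(HS (P n) {o} - HS (P n) ∅))) 𝒰
      (𝓝 (Real.exp (-(hv {o} - hv ∅)))) :=
    (Real.continuous_exp.tendsto _).comp ((hlim {o}).sub (hlim ∅)).neg
  have h2 := le_of_tendsto_of_tendsto h1 hc (Eventually.of_forall hv')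
  rw [ho, h0, sub_zero, Real.exp_neg, Real.exp_log two_pos] at h2
  norm_num at h2 ⊢
  exact h2

include hP hP1 hlim in
theorem heavy_two {o : O} (h0 : hv ∅ = 0)
    (v : ∀ n, k n o) {c : ℝ} (hc1 : c < 1)
    (hc : Tendsto (fun n => w1 (P n) o (v n)) 𝒰 (𝓝 c)) :
    ∃ (u : ∀ n, k n o) (d : ℝ), 0 < d ∧ (∀ᶠ n in (𝒰 : Filter ℕ), v n ≠ u n) ∧
      Tendsto (fun n => w1 (P n) o (u n)) 𝒰 (𝓝 d) := by
  classical
  have hpos : ∀ᶠ n in (𝒰 : Filter ℕ), 0 < 1 - w1 (P n) o (v n) :=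
    (tendsto_const_nhds.sub hc).eventually (lt_mem_nhds (by linarith))
  have hex : ∀ n, ∃ u : k n o, 0 < 1 - w1 (P n) o (v n) → (v n ≠ u ∧
      Real.exp (-(HS (P n) {o} - HS (P n) ∅) / (1 - w1 (P n) o (v n))) ≤ w1 (P n) o u) := by
    intro n
    by_cases hn : 0 < 1 - w1 (P n) o (v n)
    · obtain ⟨t⟩ := exists_pt hP1 n
      have hs := sum_values (P := P n) (Finset.notMem_empty o) t
      rw [w_empty (hP1 n), ← Finset.add_sum_erase _ _ (Finset.mem_univ (v n)),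
        insert_empty_eq, w_single, Function.update_self] at hs
      obtain ⟨u, hu, hu'⟩ := exmax (hP n) (Finset.notMem_empty o) t (Finset.univ.erase (v n))
        (1 - w1 (P n) o (v n)) (by rw [insert_empty_eq]; linarith) hn
      refine ⟨u, fun _ => ⟨(Finset.ne_of_mem_erase hu).symm, ?_⟩⟩
      rw [w_empty (hP1 n), one_mul, insert_empty_eq, w_single, Function.update_self] at hu'
      exact hu'
    · exact ⟨v n, fun h => absurd h hn⟩
  choose u hu using hex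
  obtain ⟨d, -, -, hd⟩ := exists_lim 𝒰 (fun n => w1 (P n) o (u n))
    (fun n => w1_nonneg (hP n) _ _) (fun n => w1_le_one (hP n) (hP1 n) _ _)
  refine ⟨u, d, ?_, hpos.mono fun n hn => (hu n hn).1, hd⟩
  have h1 : Tendsto (fun n => Real.exp (-(HS (P n) {o} - HS (P n) ∅) /
      (1 - w1 (P n) o (v n)))) 𝒰 (𝓝 (Real.exp (-(hv {o} - hv ∅) / (1 - c)))) :=
    (Real.continuous_exp.tendsto _).comp
      ((((hlim {o}).sub (hlim ∅)).neg).div (tendsto_const_nhds.sub hc) (by linarith))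
  have h2 := le_of_tendsto_of_tendsto h1 hd (hpos.mono fun n hn => (hu n hn).2)
  exact (Real.exp_pos _).trans_le h2

include hP hP1 hlim in
theorem two_or_one {o : O} (h0 : hv ∅ = 0) (ho : hv {o} = Real.log 2) {p : ℝ}
    (huni : ∀ (v : ∀ n, k n o) (c : ℝ), 0 < c →
      Tendsto (fun n => w1 (P n) o (v n)) 𝒰 (𝓝 c) → c = p) :
    (p = 1 / 2 ∧ ∃ a, Two k P 𝒰 o a) ∨
      (p = 1 ∧ ∃ v : ∀ n, k n o, Tendsto (fun n => w1 (P n) o (v n)) 𝒰 (𝓝 1)) := by
  obtain ⟨v, c, hc, hc1, hv'⟩ := heavy_one hP hP1 hlim h0 ho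
  rcases hc1.lt_or_eq with h | h
  · left
    obtain ⟨u, d, hd, hne, hu⟩ := heavy_two hP hP1 hlim h0 v h hv'
    have e1 := huni v c (by linarith) hv'
    have e2 := huni u d hd hu
    have h1 : ∀ᶠ n in (𝒰 : Filter ℕ), w1 (P n) o (v n) + w1 (P n) o (u n) ≤ 1 :=
      hne.mono fun n hn => w1_two (hP n) (hP1 n) o hn
    have h2 := le_of_tendsto (hv'.add hu) h1
    have h3 : p = 1 / 2 := by linarith
    have e1' : c = 1 / 2 := e1.trans h3
    have e2' : d = 1 / 2 := e2.trans h3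
    rw [e1'] at hv'
    rw [e2'] at hu
    refine ⟨h3, ![v, u], ⟨fun i => ?_, ?_⟩⟩
    · fin_cases i
      · exact hv'
      · exact hu
    · exact hne
  · right
    rw [h] at hv'
    exact ⟨(huni v 1 one_pos hv').symm, v, hv'⟩

include hP hlim in
theorem spread {ι κ : Type} [Fintype ι] [Fintype κ] {S T : Finset O} (hST : S ⊆ T)
    (τ : κ → ι → ∀ n, Pt (k n))
    (hS : ∀ᶠ n in (𝒰 : Filter ℕ), ∀ q i j, ∀ a ∈ S, τ q i n a = τ q j n a)
    (hT : ∀ᶠ n in (𝒰 : Filter ℕ), ∀ q q' i j, (∀ a ∈ T, τ q i n a = τ q' j n a) →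
      q = q' ∧ i = j)
    {c : ℝ} (hc : 0 < c) (hw : ∀ q i, Tendsto (fun n => w (P n) T (τ q i n)) 𝒰 (𝓝 c)) :
    Fintype.card κ * (Fintype.card ι * (c * Real.log (Fintype.card ι))) ≤ hv T - hv S := by
  have hpos : ∀ᶠ n in (𝒰 : Filter ℕ), ∀ q i, 0 < w (P n) T (τ q i n) := by
    rw [eventually_all]
    intro q
    rw [eventually_all]
    exact fun i => (hw q i).eventually (lt_mem_nhds hc)
  have h1 : ∀ᶠ n in (𝒰 : Filter ℕ), ∑ q, ∑ i, w (P n) T (τ q i n) *
      Real.log ((∑ j, w (P n) T (τ q j n)) / w (P n) T (τ q i n)) ≤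
      HS (P n) T - HS (P n) S := by
    filter_upwards [hpos, hS, hT] with n hp h2 h3
    have h4 := cond_family (hP n) hST (fun p : κ × ι => τ p.1 p.2 n)
      (fun p p' h => by
        obtain ⟨e1, e2⟩ := h3 _ _ _ _ h
        exact Prod.ext e1 e2)
    rw [Fintype.sum_prod_type] at h4
    refine le_trans ?_ h4
    refine Finset.sum_le_sum fun q _ => Finset.sum_le_sum fun i _ => ?_
    refine mul_le_mul_of_nonneg_left ?_ (hp q i).le
    have hs : ∑ j, w (P n) T (τ q j n) ≤ w (P n) S (τ q i n) :=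
      sum_family (hP n) (fun j => τ q j n) (τ q i n) (fun j a ha => h2 q j i a ha) hST
        (fun j j' h => (h3 _ _ _ _ h).2)
    have hs' : 0 < ∑ j, w (P n) T (τ q j n) :=
      Finset.sum_pos (fun j _ => hp q j) ⟨i, Finset.mem_univ i⟩
    refine Real.log_le_log (div_pos hs' (hp q i)) ?_
    exact div_le_div_of_nonneg_right hs (hp q i).le
  have h2 : Tendsto (fun n => ∑ q, ∑ i, w (P n) T (τ q i n) *
      Real.log ((∑ j, w (P n) T (τ q j n)) / w (P n) T (τ q i n))) 𝒰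
      (𝓝 (∑ _q : κ, ∑ _i : ι, c * Real.log ((∑ _j : ι, c) / c))) := by
    refine tendsto_finsetSum _ fun q _ => tendsto_finsetSum _ fun i _ => ?_
    refine (hw q i).mul ?_
    refine Tendsto.log ((tendsto_finsetSum _ fun j _ => hw q j).div (hw q i) hc.ne') ?_
    have : 0 < ∑ _j : ι, c := Finset.sum_pos (fun _ _ => hc) ⟨i, Finset.mem_univ i⟩
    positivity
  have h3 := le_of_tendsto_of_tendsto h2 ((hlim T).sub (hlim S)) h1
  refine le_trans (le_of_eq ?_) h3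
  simp only [Finset.sum_const, Finset.card_univ, nsmul_eq_mul]
  rw [mul_div_cancel_right₀ _ hc.ne']

include hP hP1 in
theorem two_unique {o : O} {a b : Fin 2 → ∀ n, k n o} (ha : Two k P 𝒰 o a)
    (hb : Two k P 𝒰 o b) :
    ∃ s : Fin 2, ∀ i, ∀ᶠ n in (𝒰 : Filter ℕ), b i n = a (i + s) n := by
  by_cases h : ∀ᶠ n in (𝒰 : Filter ℕ), a 0 n = b 0 n
  · have h1 : ∀ᶠ n in (𝒰 : Filter ℕ), a 0 n ≠ b 1 n := by
      filter_upwards [h, hb.ne] with n h1 h2
      rw [h1]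
      exact h2
    have h2 := third hP hP1 (ha.lim 0) (ha.lim 1) (hb.lim 1) ha.ne h1
    refine ⟨0, fun i => ?_⟩
    filter_upwards [h, h2] with n h3 h4
    fin_cases i
    · exact h3.symm
    · exact h4.symm
  · have h' := Ultrafilter.eventually_not.2 h
    have h2 := third hP hP1 (ha.lim 0) (ha.lim 1) (hb.lim 0) ha.ne h'
    have h1 : ∀ᶠ n in (𝒰 : Filter ℕ), a 1 n ≠ b 1 n := by
      filter_upwards [h2, hb.ne] with n h1 h2
      rw [h1]
      exact h2
    have h3 := third hP hP1 (ha.lim 1) (ha.lim 0) (hb.lim 1) (ha.ne.mono fun _ h => h.symm) h1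
    refine ⟨1, fun i => ?_⟩
    filter_upwards [h2, h3] with n h3 h4
    fin_cases i
    · exact h3.symm
    · exact h4.symm

end

end Pool.Agent.KS6_70.EC
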