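import Pool.Agent.KS6_70.EC.CM

/-! The closure of the classical entropy vectors is not convex. -/

set_option autoImplicit false

namespace Pool.Agent.KS6_70.EC

open Pool.Agent.V11263.Causal

/-- the entropy vector of `unif f` -/
noncomputable def vf (f : Fin 2 → Fin 2 → Fin 2) : {S : Finset K5.O // S.Nonempty} → ℝ :=
  entropyVector (O := Fin 5) (α := A5) (unif f)

theorem vf_mem (ga gc : Fin 2 → Fin 2) :
    vf (fun y x => ga x + gc (y + x)) ∈ classicalEntropySet K5 :=
  ⟨CM ga gc, congrArg (entropyVector (O := Fin 5) (α := A5)) (CM_dist_eq ga gc).symm⟩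

theorem v0_mem : vf f0 ∈ classicalEntropySet K5 := by
  have h := vf_mem (fun _ => 0) (fun _ => 0)
  have e : (fun _ _ : Fin 2 => (0 : Fin 2) + 0) = f0 := by
    funext y x
    rfl
  rwa [e] at h

theorem v1_mem : vf f1 ∈ classicalEntropySet K5 := by
  have h := vf_mem (fun x => x) (fun z => z)
  have e : (fun y x : Fin 2 => x + (y + x)) = f1 := by
    funext y x
    revert y x
    decide
  rwa [e] at h

theorem vf_val (g : Fin 3) (S : {S : Finset (Fin 5) // S.Nonempty}) :
    vf (![fQ, f0, f1] g) S = 4 - (expo (![fQ, f0, f1] g) S.1 : ℝ) / 16 := by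
  have h0 : Real.log 2 ≠ 0 := (Real.log_pos one_lt_two).ne'
  have h1 := entropy_eq (O := Fin 5) (α := A5) (unif (![fQ, f0, f1] g)) S.1
  rw [HS_unif _ _ (fun i => cnt_all g S.1 i), mul_div_assoc, div_self h0, mul_one] at h1
  exact h1

theorem vQ_mid : vQ = (1 / 2 : ℝ) • vf f0 + (1 / 2 : ℝ) • vf f1 := by
  funext S
  have hq : vQ S = 4 - (expo fQ S.1 : ℝ) / 16 := vf_val 0 S
  have h0 : vf f0 S = 4 - (expo f0 S.1 : ℝ) / 16 := vf_val 1 S
  have h1 : vf f1 S = 4 - (expo f1 S.1 : ℝ) / 16 := vf_val 2 S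
  rw [Pi.add_apply, Pi.smul_apply, Pi.smul_apply, smul_eq_mul, smul_eq_mul, hq, h0, h1]
  have h2 : (2 : ℝ) * (expo fQ S.1 : ℝ) = expo f0 S.1 + expo f1 S.1 := by
    exact_mod_cast expo_mid S.1
  linarith

theorem not_convex : ¬ Convex ℝ (closure (classicalEntropySet K5)) := by
  intro h
  refine vQ_not_mem ?_
  rw [vQ_mid]
  exact h (subset_closure v0_mem) (subset_closure v1_mem) (by norm_num) (by norm_num)
    (by norm_num)

end Pool.Agent.KS6_70.EC
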