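import Pool.Agent.KS6_70.EC.StageD

/-! The entropies of classical models do not converge to the given values. -/

set_option autoImplicit false

open Filter Topology

namespace Pool.Agent.KS6_70.EC

open Pool.Agent.R993.EC (pr Hs sg sg_cases)

theorem sg_add (l m : Fin 2) : sg (l + m) = sg l * sg m := by
  fin_cases l <;> fin_cases m <;> simp [sg]

theorem sg_sq (l : Fin 2) : sg l * sg l = 1 := by
  rcases sg_cases l with h | h <;> rw [h] <;> norm_num

section
variable {k : Fin 5 → Type} [∀ a, Fintype (k a)] {P : Pt k → ℝ}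

open scoped Classical in
/-- the correlation in a context is bounded below by the probabilities of the good atoms -/
theorem corr_ge (hP : ∀ ω, 0 ≤ P ω) (y : k 0) (z : k 1) (a : Fin 2 → k 2) (b : Fin 2 → k 3)
    (c : Fin 2 → k 4) (ha : a 0 ≠ a 1) (hb : b 0 ≠ b 1) (s : Fin 2) (sA : k 2 → ℝ)
    (sB : k 3 → ℝ) (sC : k 4 → ℝ) (hA : ∀ i, sA (a i) = sg i) (hB : ∀ i, sB (b i) = sg i)
    (hC : ∀ i, sC (c i) = sg i) (hA' : ∀ v, |sA v| ≤ 1) (hB' : ∀ v, |sB v| ≤ 1)
    (hC' : ∀ v, |sC v| ≤ 1) (t : Pt k) :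
    2 * (∑ p : Fin 2 × Fin 2, w P {0, 1, 2, 3, 4} (mk5 y z (a p.1) (b p.2) (c (p.2 + (p.1 + s)))))
      - w P {0, 1} (mk5 y z (t 2) (t 3) (t 4)) ≤
    sg s * Ex P (fun v w => if v = y then (if w = z then 1 else 0) else 0) sA sB sC := by
  simp only [w_full]
  rw [w01_sum]
  have h1 : sg s * Ex P (fun v w => if v = y then (if w = z then 1 else 0) else 0) sA sB sC +
      ∑ ω : Pt k, (if ω 0 = y ∧ ω 1 = z then P ω else 0) = ∑ ω : Pt k,
        (if ω 0 = y ∧ ω 1 = z then (sg s * (sA (ω 2) * sB (ω 3) * sC (ω 4)) + 1) * P ω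
          else 0) := by
    unfold Ex
    rw [Finset.mul_sum, ← Finset.sum_add_distrib]
    refine Finset.sum_congr rfl fun ω _ => ?_
    by_cases h : ω 0 = y <;> by_cases h' : ω 1 = z <;> simp [h, h'] <;> ring
  have h2 : ∀ ω : Pt k, 0 ≤ (if ω 0 = y ∧ ω 1 = z then
      (sg s * (sA (ω 2) * sB (ω 3) * sC (ω 4)) + 1) * P ω else 0) := by
    intro ω
    split_ifs
    · refine mul_nonneg ?_ (hP ω)
      have h3 : |sg s * (sA (ω 2) * sB (ω 3) * sC (ω 4))| ≤ 1 := by
        rw [abs_mul, abs_mul, abs_mul]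
        have h4 : |sg s| ≤ 1 := by rcases sg_cases s with h | h <;> rw [h] <;> norm_num
        exact mul_le_one₀ h4 (by positivity) (mul_le_one₀ (mul_le_one₀ (hA' _) (abs_nonneg _)
          (hB' _)) (abs_nonneg _) (hC' _))
      have := (abs_le.1 h3).1
      linarith
    · exact le_rfl
  let at' : Fin 2 × Fin 2 → Pt k := fun p => mk5 y z (a p.1) (b p.2) (c (p.2 + (p.1 + s)))
  have hinj : Function.Injective at' := by
    intro p q hpq
    have e1 : a p.1 = a q.1 := congrFun hpq 2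
    have e2 : b p.2 = b q.2 := congrFun hpq 3
    exact Prod.ext (inj2 a ha e1) (inj2 b hb e2)
  have h3 : 2 * ∑ p : Fin 2 × Fin 2, P (at' p) ≤ ∑ ω : Pt k, (if ω 0 = y ∧ ω 1 = z then
      (sg s * (sA (ω 2) * sB (ω 3) * sC (ω 4)) + 1) * P ω else 0) := by
    have h4 : 2 * ∑ p : Fin 2 × Fin 2, P (at' p) = ∑ ω ∈ Finset.univ.image at',
        (if ω 0 = y ∧ ω 1 = z then (sg s * (sA (ω 2) * sB (ω 3) * sC (ω 4)) + 1) * P ω
          else 0) := by
      rw [Finset.sum_image (fun p _ q _ hpq => hinj hpq), Finset.mul_sum]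
      refine Finset.sum_congr rfl fun p _ => ?_
      have e0 : at' p 0 = y := rfl
      have e1 : at' p 1 = z := rfl
      have e2 : at' p 2 = a p.1 := rfl
      have e3 : at' p 3 = b p.2 := rfl
      have e4 : at' p 4 = c (p.2 + (p.1 + s)) := rfl
      rw [if_pos ⟨e0, e1⟩, e2, e3, e4, hA, hB, hC, sg_add, sg_add]
      have g1 := sg_sq s
      have g2 := sg_sq p.1
      have g3 := sg_sq p.2
      have : sg s * (sg p.1 * sg p.2 * (sg p.2 * (sg p.1 * sg s))) =
          (sg s * sg s) * (sg p.1 * sg p.1) * (sg p.2 * sg p.2) := by ring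
      rw [this, g1, g2, g3]
      ring
    rw [h4]
    exact Finset.sum_le_sum_of_subset_of_nonneg (Finset.subset_univ _) fun ω _ _ => h2 ω
  have h5 : ∑ p : Fin 2 × Fin 2, P (mk5 y z (a p.1) (b p.2) (c (p.2 + (p.1 + s)))) =
      ∑ p : Fin 2 × Fin 2, P (at' p) := rfl
  rw [h5]
  linarith

end

section
variable {k : ℕ → Fin 5 → Type} [∀ n a, Fintype (k n a)] {P : ∀ n, Pt (k n) → ℝ}
  {𝒰 : Ultrafilter ℕ} {hv : Finset (Fin 5) → ℝ}

theorem no_limit (M : ∀ n, Cl5 (P n)) (hlim : ∀ S, Tendsto (fun n => HS (P n) S) 𝒰 (𝓝 (hv S)))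
    (g : GV hv) : False := by
  classical
  have h : Setup k P 𝒰 hv := ⟨fun n => (M n).nonneg, fun n => (M n).sum_one, hlim, g,
    fun n => (M n).indep⟩
  obtain ⟨t, -⟩ := h.pts
  obtain ⟨y, z, hy, hz⟩ := h.stageA
  obtain ⟨b, c, hb, hc⟩ := h.stageB hy hz
  obtain ⟨α, F, h1, h2, h3, h4⟩ := h.stageF hy hz hb hc
  have hF := h.parity hy hb hc h3 h4
  -- the bounds
  let m : ℕ → ℝ := fun n => max (w1 (P n) 2 (α 0 0 n) + w1 (P n) 2 (α 0 1 n))
    (w1 (P n) 2 (α 1 0 n) + w1 (P n) 2 (α 1 1 n))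
  let p : ℕ → ℝ := fun n => max (w1 (P n) 0 (y 0 n)) (w1 (P n) 0 (y 1 n))
  have hm : Tendsto m 𝒰 (𝓝 (1 / 2)) := by
    have := ((h1 0 0).add (h1 0 1)).max ((h1 1 0).add (h1 1 1))
    rw [max_self, show (1 / 4 + 1 / 4 : ℝ) = 1 / 2 by norm_num] at this
    exact this
  have hp : Tendsto p 𝒰 (𝓝 (1 / 2)) := by
    have := (hy.lim 0).max (hy.lim 1)
    rw [max_self] at this
    exact this
  -- the errors
  let e1 : Fin 2 → Fin 2 → Fin 2 → ℕ → ℝ := fun i x a n =>
    w (P n) {0, 2} (mk5 (y i n) (z (i + x) n) (α x a n) (t n 3) (t n 4)) -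
      w (P n) {0, 1, 2} (mk5 (y i n) (z (i + x) n) (α x a n) (t n 3) (t n 4))
  have he1 : ∀ i x a, Tendsto (e1 i x a) 𝒰 (𝓝 0) := by
    intro i x a
    have := (h.w02 (hy.lim i) (h1 x a) (fun n => z (i + x) n) (fun n => t n 3)
      (fun n => t n 4)).sub (h2 x a i (fun n => t n 3) (fun n => t n 4))
    rw [show (1 / 2 * (1 / 4) - 1 / 8 : ℝ) = 0 by norm_num] at this
    exact this
  let ms : Fin 2 → ℕ → ℝ := fun i n => w1 (P n) 0 (y i n) -
    (w (P n) {0, 2} (mk5 (y i n) (t n 1) (α 0 0 n) (t n 3) (t n 4)) +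
      w (P n) {0, 2} (mk5 (y i n) (t n 1) (α 0 1 n) (t n 3) (t n 4))) -
    (w (P n) {0, 2} (mk5 (y i n) (t n 1) (α 1 0 n) (t n 3) (t n 4)) +
      w (P n) {0, 2} (mk5 (y i n) (t n 1) (α 1 1 n) (t n 3) (t n 4)))
  have hms : ∀ i, Tendsto (ms i) 𝒰 (𝓝 0) := by
    intro i
    have g1 : ∀ x a, Tendsto (fun n =>
        w (P n) {0, 2} (mk5 (y i n) (t n 1) (α x a n) (t n 3) (t n 4))) 𝒰 (𝓝 (1 / 8)) := by
      intro x a
      have := h.w02 (hy.lim i) (h1 x a) (fun n => t n 1) (fun n => t n 3) (fun n => t n 4)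
      rwa [show (1 / 2 * (1 / 4) : ℝ) = 1 / 8 by norm_num] at this
    have := ((hy.lim i).sub ((g1 0 0).add (g1 0 1))).sub ((g1 1 0).add (g1 1 1))
    rwa [show (1 / 2 - (1 / 8 + 1 / 8) - (1 / 8 + 1 / 8) : ℝ) = 0 by norm_num] at this
  -- the correlations
  let T : Fin 2 → Fin 2 → ℕ → ℝ := fun i j n =>
    2 * (∑ q : Fin 2 × Fin 2, w (P n) {0, 1, 2, 3, 4} (mk5 (y i n) (z j n) (α (i + j) q.1 n)
      (b q.2 n) (c (q.2 + (q.1 + i * F (i + j))) n))) -
      w (P n) {0, 1} (mk5 (y i n) (z j n) (t n 2) (t n 3) (t n 4))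
  have hT : ∀ i j, Tendsto (T i j) 𝒰 (𝓝 (1 / 4)) := by
    intro i j
    have g1 := ((tendsto_finsetSum (Finset.univ : Finset (Fin 2 × Fin 2)) fun q _ =>
      h.full hy h1 h2 h3 i j q.1 q.2).const_mul 2).sub
      (h.w01 (hy.lim i) (hz.lim j) (fun n => t n 2) (fun n => t n 3) (fun n => t n 4))
    refine g1.trans (le_of_eq ?_)
    congr 1
    simp only [Finset.sum_const, Finset.card_univ, Fintype.card_prod, Fintype.card_fin]
    norm_num
  have hineq : ∀ᶠ n in (𝒰 : Filter ℕ), ∑ i, ∑ j, T i j n ≤ 2 * (p n * m n) +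
      ∑ i, ∑ j, ((e1 i (i + j) 0 n + e1 i (i + j) 1 n) +
        (e1 i (i + j + 1) 0 n + e1 i (i + j + 1) 1 n) + ms i n) := by
    filter_upwards [hy.ne, hz.ne, hb.ne, hc.ne, h4] with n g1 g2 g3 g4 g5
    have hα : ∀ x a x' a', (x, a) ≠ (x', a') → α x a n ≠ α x' a' n := fun x a x' a' hne heq =>
      hne (g5 (x, a) (x', a') heq)
    let A : Fin 2 → k n 2 → ℝ := fun x v =>
      (if v = α x 0 n then 1 else 0) + (if v = α x 1 n then 1 else 0)
    have hA0 : ∀ x v, 0 ≤ A x v := by
      intro x v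
      simp only [A]
      positivity
    have hA1 : ∀ v, A 0 v + A 1 v ≤ 1 := by
      intro v
      have n1 := hα 0 0 0 1 (by simp)
      have n2 := hα 0 0 1 0 (by simp)
      have n3 := hα 0 0 1 1 (by simp)
      have n4 := hα 0 1 1 0 (by simp)
      have n5 := hα 0 1 1 1 (by simp)
      have n6 := hα 1 0 1 1 (by simp)
      simp only [A]
      by_cases k1 : v = α 0 0 n
      · subst k1
        simp [n1, n2, n3]
      · by_cases k2 : v = α 0 1 n
        · subst k2
          simp [n1.symm, n4, n5]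
        · by_cases k3 : v = α 1 0 n
          · subst k3
            simp [n2.symm, n4.symm, n6]
          · simp only [if_neg k1, if_neg k2, if_neg k3]
            split_ifs <;> norm_num
    have hb1 := (M n).bell (fun i => y i n) (fun j => z j n) g2 A hA0 hA1
      (fun v => if v = α 0 1 n ∨ v = α 1 1 n then -1 else 1)
      (fun v => if v = b 1 n then -1 else 1) (fun v => if v = c 1 n then -1 else 1)
      (fun v => by split_ifs <;> simp) (fun v => by split_ifs <;> simp)
      (fun v => by split_ifs <;> simp) (fun i j => sg (i * F (i + j)))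
      (fun i j => sg_cases _) (by
        have e : ∀ f : Fin 2 → Fin 2, f 0 + f 1 = 1 →
            (0 : Fin 2) * f (0 + 0) + 0 * f (0 + 1) + 1 * f (1 + 0) + 1 * f (1 + 1) = 1 := by
          decide
        rw [← sg_add, ← sg_add, ← sg_add, e F hF]
        simp [sg]) (m := m n) (p := p n) (by
        intro x
        simp only [A]
        rw [Ex_add, ex_a, ex_a]
        fin_cases x
        · exact le_max_left _ _
        · exact le_max_right _ _) (by
        intro i
        rw [ex_y]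
        fin_cases i
        · exact le_max_left _ _
        · exact le_max_right _ _)
    refine le_trans (Finset.sum_le_sum fun i _ => Finset.sum_le_sum fun j _ => ?_)
      (hb1.trans (le_of_eq ?_))
    · refine corr_ge (h.hP n) (y i n) (z j n) (fun a => α (i + j) a n) (fun l => b l n)
        (fun l => c l n) (hα _ _ _ _ (by simp)) g3 (i * F (i + j)) _ _ _ (fun a => ?_)
        (fun l => ?_) (fun l => ?_) (fun v => by split_ifs <;> simp)
        (fun v => by split_ifs <;> simp) (fun v => by split_ifs <;> simp) (t n)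
      · show (if α (i + j) a n = α 0 1 n ∨ α (i + j) a n = α 1 1 n then (-1 : ℝ) else 1) = sg a
        generalize i + j = x
        have n1 := hα 0 0 0 1 (by simp)
        have n3 := hα 0 0 1 1 (by simp)
        have n4 := hα 0 1 1 0 (by simp)
        have n6 := hα 1 0 1 1 (by simp)
        fin_cases x <;> fin_cases a
        · simp [n1, n3, sg]
        · simp [sg]
        · simp [n4.symm, n6, sg]
        · simp [sg]
      · show (if b l n = b 1 n then (-1 : ℝ) else 1) = sg l
        fin_cases l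
        · simp [g3, sg]
        · simp [sg]
      · show (if c l n = c 1 n then (-1 : ℝ) else 1) = sg l
        fin_cases l
        · simp [g4, sg]
        · simp [sg]
    · congr 1
      refine Finset.sum_congr rfl fun i _ => Finset.sum_congr rfl fun j _ => ?_
      have q1 : ∀ x, Ex (P n) (fun v w => if v = y i n then (if w = z (i + x) n then 0 else 1)
          else 0) (A x) (fun _ => 1) (fun _ => 1) = e1 i x 0 n + e1 i x 1 n := by
        intro x
        simp only [A, e1]
        rw [Ex_add, ex_yza (P n) (y i n) (z (i + x) n) (α x 0 n) (t n 3) (t n 4),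
          ex_yza (P n) (y i n) (z (i + x) n) (α x 1 n) (t n 3) (t n 4)]
      have q2 : Ex (P n) (fun v _ => if v = y i n then 1 else 0) (fun a => 1 - A 0 a - A 1 a)
          (fun _ => 1) (fun _ => 1) = ms i n := by
        simp only [A, ms]
        rw [Ex_sub, Ex_sub, Ex_add, Ex_add, ex_y,
          ex_ya (P n) (y i n) (t n 1) (α 0 0 n) (t n 3) (t n 4),
          ex_ya (P n) (y i n) (t n 1) (α 0 1 n) (t n 3) (t n 4),
          ex_ya (P n) (y i n) (t n 1) (α 1 0 n) (t n 3) (t n 4),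
          ex_ya (P n) (y i n) (t n 1) (α 1 1 n) (t n 3) (t n 4)]
      have q3 := q1 (i + j)
      have q4 := q1 (i + j + 1)
      have r1 : ∀ i j : Fin 2, i + (i + j) = j := by decide
      have r2 : ∀ i j : Fin 2, i + (i + j + 1) = j + 1 := by decide
      rw [r1] at q3
      rw [r2] at q4
      rw [q3, q4, q2]
  have hL := tendsto_finsetSum (Finset.univ : Finset (Fin 2)) fun i _ =>
    tendsto_finsetSum (Finset.univ : Finset (Fin 2)) fun j _ => hT i j
  have hR := ((hp.mul hm).const_mul 2).add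
    (tendsto_finsetSum (Finset.univ : Finset (Fin 2)) fun i _ =>
      tendsto_finsetSum (Finset.univ : Finset (Fin 2)) fun j _ =>
        ((((he1 i (i + j) 0).add (he1 i (i + j) 1)).add
          ((he1 i (i + j + 1) 0).add (he1 i (i + j + 1) 1))).add (hms i)))
  have := le_of_tendsto_of_tendsto hL hR hineq
  simp only [Finset.sum_const, Finset.card_univ, Fintype.card_fin] at this
  norm_num at this

end

end Pool.Agent.KS6_70.EC
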