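import Pool.Agent.KS6_70.EC.Dist
import Pool.Agent.KS6_70.EC.StageE

/-! The quantum entropy vector is not a limit of classical ones. -/

set_option autoImplicit false

open Filter Topology

namespace Pool.Agent.KS6_70.EC

open Pool.Agent.V11263.Causal
open Pool.Agent.R993.EC (pr Hs Hs_free)

/-- the target values, in nats -/
noncomputable def hQ (S : Finset (Fin 5)) : ℝ := if S.Nonempty then HS (unif fQ) S else 0

theorem hQ_of {S : Finset (Fin 5)} (hS : S.Nonempty) : hQ S = HS (unif fQ) S := if_pos hS

theorem hQ_val {S : Finset (Fin 5)} (hS : S.Nonempty) {m : ℕ} (h : expo fQ S = m) :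
    hQ S = (4 - (m : ℝ) / 16) * Real.log 2 := by
  rw [hQ_of hS, HS_unif fQ S (fun i => cnt_all 0 S i), h]

theorem gvQ : GV hQ where
  e := if_neg (by simp)
  s0 := by rw [hQ_val (by simp) (show expo fQ {0} = 48 by decide +kernel)]; push_cast; ring
  s1 := by rw [hQ_val (by simp) (show expo fQ {1} = 48 by decide +kernel)]; push_cast; ring
  s2 := by rw [hQ_val (by simp) (show expo fQ {2} = 32 by decide +kernel)]; push_cast; ring
  s3 := by rw [hQ_val (by simp) (show expo fQ {3} = 48 by decide +kernel)]; push_cast; ring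
  s4 := by rw [hQ_val (by simp) (show expo fQ {4} = 48 by decide +kernel)]; push_cast; ring
  p01 := by rw [hQ_val (by simp) (show expo fQ {0, 1} = 32 by decide +kernel)]; push_cast; ring
  p02 := by rw [hQ_val (by simp) (show expo fQ {0, 2} = 16 by decide +kernel)]; push_cast; ring
  p12 := by rw [hQ_val (by simp) (show expo fQ {1, 2} = 16 by decide +kernel)]; push_cast; ring
  t012 := by
    rw [hQ_val (by simp) (show expo fQ {0, 1, 2} = 16 by decide +kernel)]; push_cast; ring
  p34 := by rw [hQ_val (by simp) (show expo fQ {3, 4} = 32 by decide +kernel)]; push_cast; ring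
  q023 := by
    rw [hQ_val (by simp) (show expo fQ {0, 2, 3} = 0 by decide +kernel)]; push_cast; ring
  q024 := by
    rw [hQ_val (by simp) (show expo fQ {0, 2, 4} = 0 by decide +kernel)]; push_cast; ring
  q0234 := by
    rw [hQ_val (by simp) (show expo fQ {0, 2, 3, 4} = 0 by decide +kernel)]; push_cast; ring
  r0134 := by
    rw [hQ_val (by simp) (show expo fQ {0, 1, 3, 4} = 0 by decide +kernel)]; push_cast; ring
  r01234 := by
    rw [hQ_val (by simp) (show expo fQ {0, 1, 2, 3, 4} = 0 by decide +kernel)]; push_cast; ring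
  t234 := by
    rw [hQ_val (by simp) (show expo fQ {2, 3, 4} = 8 by decide +kernel)]; push_cast; ring

/-- the entropy vector of the quantum model -/
noncomputable def vQ : {S : Finset K5.O // S.Nonempty} → ℝ :=
  entropyVector (O := Fin 5) (α := A5) (unif fQ)

theorem vQ_not_mem : vQ ∉ closure (classicalEntropySet K5) := by
  intro h
  obtain ⟨u, hu, hlim⟩ := mem_closure_iff_seq_limit.1 h
  choose M hM using hu
  let inst : ∀ n, ∀ a : Fin 5, Fintype ((M n).α a) := fun n a => (M n).fα a
  have h1 : ∀ S : Finset (Fin 5), S.Nonempty →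
      Tendsto (fun n => HS (O := Fin 5) (k := (M n).α) (M n).dist S) atTop (𝓝 (hQ S)) := by
    intro S hS
    have h2 := (tendsto_pi_nhds.1 hlim) (⟨S, hS⟩ : {S : Finset (Fin 5) // S.Nonempty})
    have h3 := h2.mul_const (Real.log 2)
    have h0 : Real.log 2 ≠ 0 := (Real.log_pos one_lt_two).ne'
    have h4 : vQ ⟨S, hS⟩ * Real.log 2 = hQ S := by
      rw [hQ_of hS]
      show entropy (O := Fin 5) (α := A5) (unif fQ) S * Real.log 2 = _
      rw [entropy_eq, div_mul_cancel₀ _ h0]
    rw [← h4]
    refine h3.congr fun n => ?_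
    rw [hM n]
    exact (congrArg (· * Real.log 2) (entropy_eq (O := Fin 5) (α := (M n).α) (M n).dist S)).trans
      (div_mul_cancel₀ _ h0)
  refine no_limit (k := fun n => (M n).α) (P := fun n => (M n).dist) (𝒰 := hyperfilter ℕ)
    (fun n => cl5_of_model (M n)) (hv := hQ) (fun S => ?_) gvQ
  rcases S.eq_empty_or_nonempty with rfl | hS
  · rw [gvQ.e]
    refine tendsto_const_nhds.congr fun n => ?_
    exact (HS_empty (cl5_of_model (M n)).sum_one).symm
  · exact (h1 S hS).mono_left Nat.hyperfilter_le_atTop

end Pool.Agent.KS6_70.EC
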