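import Pool.Agent.KS6_70.EC.QM
import Pool.Agent.KS6_70.EC.NotMem

/-! The distribution of the quantum model. -/

set_option autoImplicit false

namespace Pool.Agent.KS6_70.EC

open Pool.Agent.V11263.Causal

theorem unif_mk (f : Fin 2 → Fin 2 → Fin 2) (y z x a b c : Fin 2) :
    unif f (mk5 (k := A5) y z (x, a) b c) =
      if z = y + x ∧ c = a + b + f y x then 1 / 16 else 0 := by
  unfold unif
  have key : ∀ i : Seed, pt5 f i = mk5 (k := A5) y z (x, a) b c ↔
      i = (y, x, a, b) ∧ z = y + x ∧ c = a + b + f y x := by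
    rintro ⟨y', x', a', b'⟩
    constructor
    · intro h
      have h0 : y' = y := congrFun h 0
      have h1 : y' + x' = z := congrFun h 1
      have h2 : (x', a') = (x, a) := congrFun h 2
      have h3 : b' = b := congrFun h 3
      have h4 : a' + b' + f y' x' = c := congrFun h 4
      rw [Prod.mk.injEq] at h2
      obtain ⟨h2, h2'⟩ := h2
      subst h0 h2 h2' h3
      exact ⟨rfl, h1.symm, h4.symm⟩
    · rintro ⟨h, rfl, rfl⟩
      rw [h]
      rfl
  simp only [key]
  by_cases hc : z = y + x ∧ c = a + b + f y x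
  · rw [if_pos hc]
    simp only [hc, and_true]
    simp
  · rw [if_neg hc]
    simp only [hc, and_false, if_false, Finset.sum_const_zero]

theorem prod_psi_ne (i : ∀ u o, Fin (dim u o)) (h : i ∉ Set.range fun (s : Fin 2 → Fin 2) u => em u (s u)) :
    ∏ u, psi u (i u) = 0 := by
  by_contra hne
  rw [Finset.prod_eq_zero_iff] at hne
  push Not at hne
  have h1 : ∀ u, ∃ s, em u s = i u := by
    intro u
    by_contra hn
    exact hne u (Finset.mem_univ _) (psi_ne u (i u) hn)
  choose s hs using h1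
  exact h ⟨s, funext hs⟩

theorem amp_eq (x : ∀ o, A5 o) : amp x = ∑ s : Fin 2 → Fin 2,
    (r2 * r2) * ∏ o, star (V o x (x o) (fun u => em u (s u) o)) := by
  unfold amp
  symm
  refine Fintype.sum_of_injective (fun (s : Fin 2 → Fin 2) u => em u (s u)) ?_ _ _ ?_ ?_
  · intro s s' h
    funext u
    exact em_inj u (congrFun h u)
  · intro i hi
    rw [prod_psi_ne i hi, zero_mul]
  · intro s
    congr 1
    rw [Fin.prod_univ_two, psi_em, psi_em]

/-- the phases -/
noncomputable def ph (s b : Fin 2) : ℂ := (if b = 0 then 1 else -1) * (if s = 0 then 1 else Complex.I)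

theorem phase (x y a b c : Fin 2) : ph x a * ph y b * ph (y + x) c =
    if c = a + b + fQ y x then 1 else -1 := by
  fin_cases x <;> fin_cases y <;> fin_cases a <;> fin_cases b <;> fin_cases c <;>
    simp [ph, fQ]

theorem uu0 (s b : Fin 2) : uu s b 0 = r2 := by simp [uu]

theorem uu1 (s b : Fin 2) : uu s b 1 = r2 * ph s b := by simp [uu, ph]

theorem aux_iff : ∀ y z x s : Fin 2, (s = z + y ∧ s = x) ↔ (s = x ∧ z = y + x) := by
  decide

theorem star_r2' : star (r2 * r2 * r2) = r2 * r2 * r2 := by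
  rw [star_mul', star_mul', star_r2]

theorem amp_val (y z x a b c : Fin 2) : amp (mk5 (k := A5) y z (x, a) b c) =
    if z = y + x ∧ c = a + b + fQ y x then 2 * (r2 * r2 * r2 * r2 * r2 * r2) else 0 := by
  rw [amp_eq, ← (piFinTwoEquiv fun _ => Fin 2).symm.sum_comp, Fintype.sum_prod_type]
  have h1 : ∀ s t : Fin 2, ∏ o, star (V o (mk5 (k := A5) y z (x, a) b c)
      (mk5 (k := A5) y z (x, a) b c o)
      (fun u => em u ((piFinTwoEquiv fun _ => Fin 2).symm (s, t) u) o)) =
      r2 * (if s = z + y ∧ s = x then 1 else 0) * star (uu x a t.val * uu y b t.val * uu z c t.val) := by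
    intro s t
    rw [Fin.prod_univ_five]
    have e0 : V 0 (mk5 (k := A5) y z (x, a) b c) (mk5 (k := A5) y z (x, a) b c 0)
      (fun u => em u ((piFinTwoEquiv fun _ => Fin 2).symm (s, t) u) 0) = r2 := rfl
    have e1 : V 1 (mk5 (k := A5) y z (x, a) b c) (mk5 (k := A5) y z (x, a) b c 1)
      (fun u => em u ((piFinTwoEquiv fun _ => Fin 2).symm (s, t) u) 1) =
        if s.val = (z + y).val then 1 else 0 := rfl
    have e2 : V 2 (mk5 (k := A5) y z (x, a) b c) (mk5 (k := A5) y z (x, a) b c 2)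
      (fun u => em u ((piFinTwoEquiv fun _ => Fin 2).symm (s, t) u) 2) =
        (if s.val = x.val then 1 else 0) * uu x a t.val := rfl
    have e3 : V 3 (mk5 (k := A5) y z (x, a) b c) (mk5 (k := A5) y z (x, a) b c 3)
      (fun u => em u ((piFinTwoEquiv fun _ => Fin 2).symm (s, t) u) 3) = uu y b t.val := rfl
    have e4 : V 4 (mk5 (k := A5) y z (x, a) b c) (mk5 (k := A5) y z (x, a) b c 4)
      (fun u => em u ((piFinTwoEquiv fun _ => Fin 2).symm (s, t) u) 4) = uu z c t.val := rfl
    rw [e0, e1, e2, e3, e4, star_r2]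
    simp only [star_mul', Fin.val_inj]
    by_cases h1 : s = z + y <;> by_cases h2 : s = x
    · rw [if_pos h1, if_pos h2, if_pos ⟨h1, h2⟩, star_one]; ring
    · rw [if_pos h1, if_neg h2, if_neg (fun h : s = z + y ∧ s = x => h2 h.2), star_zero]; ring
    · rw [if_neg h1, if_neg (fun h : s = z + y ∧ s = x => h1 h.1), star_zero]; ring
    · rw [if_neg h1, if_neg (fun h : s = z + y ∧ s = x => h1 h.1), star_zero]; ring
  simp only [h1]
  have h2 : ∀ s : Fin 2, (s = z + y ∧ s = x) ↔ (s = x ∧ z = y + x) := fun s => aux_iff y z x s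
  simp only [h2]
  by_cases hz : z = y + x
  · simp only [hz, and_true, true_and]
    have h3 : ∑ t : Fin 2, star (uu x a t.val * uu y b t.val * uu (y + x) c t.val) =
        r2 * r2 * r2 * (if c = a + b + fQ y x then 2 else 0) := by
      rw [Fin.sum_univ_two]
      show star (uu x a 0 * uu y b 0 * uu (y + x) c 0) + star (uu x a 1 * uu y b 1 * uu (y + x) c 1) = _
      rw [uu0, uu0, uu0, uu1, uu1, uu1]
      have h4 : r2 * ph x a * (r2 * ph y b) * (r2 * ph (y + x) c) =
          r2 * r2 * r2 * (ph x a * ph y b * ph (y + x) c) := by ring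
      rw [h4, phase, star_r2', star_mul', star_r2']
      split_ifs
      · rw [star_one]; ring
      · rw [star_neg, star_one]; ring
    have h5 : ∀ s : Fin 2, ∑ t : Fin 2, r2 * r2 * (r2 * (if s = x then 1 else 0) *
        star (uu x a t.val * uu y b t.val * uu (y + x) c t.val)) =
        if s = x then r2 * r2 * r2 * (r2 * r2 * r2 * (if c = a + b + fQ y x then 2 else 0)) else 0 := by
      intro s
      rw [← h3, ← Finset.mul_sum, ← Finset.mul_sum]
      split_ifs <;> ring
    simp only [h5, Finset.sum_ite_eq', Finset.mem_univ, if_true]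
    split_ifs <;> ring
  · simp [hz]

theorem QM_dist_eq : (QM.dist : (∀ o, A5 o) → ℝ) = unif fQ := by
  refine funext fun (ω : ∀ o : Fin 5, A5 o) => ?_
  have h0 := mk5_eta (k := A5) ω
  obtain ⟨y, z, x, a, b, c, h⟩ : ∃ y z x a b c : Fin 2, mk5 (k := A5) y z (x, a) b c = ω :=
    ⟨ω 0, ω 1, (show Fin 2 × Fin 2 from ω 2).1, (show Fin 2 × Fin 2 from ω 2).2, ω 3, ω 4, h0⟩
  rw [← h, unif_mk]
  refine (QM_dist (mk5 (k := A5) y z (x, a) b c)).trans ?_
  rw [amp_val]
  split_ifs
  · have e : r2 * r2 * r2 * r2 * r2 * r2 = 1 / 8 := by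
      have := r2_mul
      calc r2 * r2 * r2 * r2 * r2 * r2 = (r2 * r2) * (r2 * r2) * (r2 * r2) := by ring
        _ = 1 / 8 := by rw [this]; norm_num
    rw [e]
    have e2 : (2 * (1 / 8 : ℂ)) = ((1 / 4 : ℝ) : ℂ) := by push_cast; norm_num
    rw [e2]
    show (((1 / 4 : ℝ) : ℂ) * (starRingEnd ℂ) ((1 / 4 : ℝ) : ℂ)).re = _
    rw [Complex.conj_ofReal, ← Complex.ofReal_mul, Complex.ofReal_re]
    norm_num
  · simp

theorem vQ_mem : vQ ∈ quantumEntropySet K5 := by
  refine ⟨QM, ?_⟩
  unfold vQ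
  exact congrArg (entropyVector (O := Fin 5) (α := A5)) QM_dist_eq.symm

end Pool.Agent.KS6_70.EC
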