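import Pool.Agent.KS6_70.EC.Dist

/-! The quantum model. -/

set_option autoImplicit false

namespace Pool.Agent.KS6_70.EC

open Pool.Agent.V11263.Causal
open scoped ComplexOrder

/-- the dimensions of the systems -/
def dim (u : Fin 2) (o : Fin 5) : ℕ := if edge5 (Sum.inr u) (Sum.inl o) then 2 else 1

/-- the support of the states -/
def em (u : Fin 2) (s : Fin 2) (o : Fin 5) : Fin (dim u o) :=
  ⟨if edge5 (Sum.inr u) (Sum.inl o) then s.val else 0, by unfold dim; split_ifs <;> omega⟩

theorem em_inj (u : Fin 2) : Function.Injective (em u) := by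
  have h : ∀ u s s', em u s = em u s' → s = s' := by decide
  exact fun s s' hs => h u s s' hs

/-- `1 / √2` -/
noncomputable def r2 : ℂ := (((Real.sqrt 2)⁻¹ : ℝ) : ℂ)

theorem r2_mul : r2 * r2 = 1 / 2 := by
  unfold r2
  rw [← Complex.ofReal_mul, ← mul_inv, Real.mul_self_sqrt (by norm_num)]
  norm_num

theorem star_r2 : star r2 = r2 := Complex.conj_ofReal _

theorem conj_r2 : (starRingEnd ℂ) r2 = r2 := Complex.conj_ofReal _

open scoped Classical in
/-- the states: the maximally entangled state of two qubits and the GHZ state -/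
noncomputable def psi (u : Fin 2) (i : ∀ o, Fin (dim u o)) : ℂ :=
  if ∃ s, em u s = i then r2 else 0

theorem psi_em (u s : Fin 2) : psi u (em u s) = r2 := if_pos ⟨s, rfl⟩

theorem psi_ne (u : Fin 2) (i : ∀ o, Fin (dim u o)) (h : i ∉ Set.range (em u)) : psi u i = 0 :=
  if_neg h

theorem psi_sum (u : Fin 2) : ∑ i, star (psi u i) * psi u i = 1 := by
  rw [← Fintype.sum_of_injective (em u) (em_inj u) (fun _ => 1 / 2)
    (fun i => star (psi u i) * psi u i) (fun i hi => by simp only [psi_ne u i hi, mul_zero])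
    (fun s => by simp only [psi_em, star_r2, r2_mul])]
  simp

/-- the vectors of the measurements -/
noncomputable def uu (s b : Fin 2) (p : ℕ) : ℂ :=
  r2 * (if p = 0 then 1 else (if b = 0 then 1 else -1) * (if s = 0 then 1 else Complex.I))

/-- the vectors of all measurements -/
noncomputable def V : (o : Fin 5) → (∀ o, A5 o) → A5 o → (∀ u, Fin (dim u o)) → ℂ
  | 0, _, _, _ => r2
  | 1, x, z, g => if (g 0).val = ((show Fin 2 from z) + (show Fin 2 from x 0)).val then 1 else 0
  | 2, _, a, g => (if (g 0).val = (show Fin 2 × Fin 2 from a).1.val then 1 else 0) *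
      uu (show Fin 2 × Fin 2 from a).1 (show Fin 2 × Fin 2 from a).2 (g 1).val
  | 3, x, b, g => uu (show Fin 2 from x 0) (show Fin 2 from b) (g 1).val
  | 4, x, c, g => uu (show Fin 2 from x 1) (show Fin 2 from c) (g 1).val

theorem uu_sum (s : Fin 2) (p q : ℕ) (hp : p < 2) (hq : q < 2) :
    ∑ b, uu s b p * star (uu s b q) = if p = q then 1 else 0 := by
  have h := r2_mul
  interval_cases p <;> interval_cases q <;> fin_cases s <;>
    simp [uu, Fin.sum_univ_two, conj_r2] <;>
    first
      | linear_combination (2 : ℂ) * h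
      | linear_combination (2 : ℂ) * h - 2 * r2 * r2 * Complex.I_mul_I

theorem dim_le (u : Fin 2) (o : Fin 5) (g : Fin (dim u o)) : g.val < 2 :=
  lt_of_lt_of_le g.2 (by revert u o; decide)

theorem dim_one {u : Fin 2} {o : Fin 5} (h : dim u o = 1) (g : Fin (dim u o)) : g.val = 0 := by
  have := g.2
  omega

theorem ext2 {o : Fin 5} (g g' : ∀ u, Fin (dim u o)) :
    g = g' ↔ (g 0).val = (g' 0).val ∧ (g 1).val = (g' 1).val := by
  constructor
  · rintro rfl
    exact ⟨rfl, rfl⟩
  · rintro ⟨h0, h1⟩
    funext u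
    fin_cases u
    · exact Fin.ext h0
    · exact Fin.ext h1

theorem ind_sum (z : Fin 2) (p q : ℕ) (hp : p < 2) (hq : q < 2) :
    ∑ b : Fin 2, (if p = (b + z).val then (1 : ℂ) else 0) * star (if q = (b + z).val then (1 : ℂ) else 0)
      = if p = q then 1 else 0 := by
  interval_cases p <;> interval_cases q <;> fin_cases z <;> simp [Fin.sum_univ_two]

theorem V_sum (o : Fin 5) (x : ∀ o, A5 o) (g g' : ∀ u, Fin (dim u o)) :
    ∑ a, V o x a g * star (V o x a g') = if g = g' then 1 else 0 := by
  have hg := fun u => dim_le u o (g u)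
  have hg' := fun u => dim_le u o (g' u)
  simp only [ext2]
  fin_cases o
  · have e0 : (g 0).val = (g' 0).val := by
      rw [dim_one (by decide) (g 0), dim_one (by decide) (g' 0)]
    have e1 : (g 1).val = (g' 1).val := by
      rw [dim_one (by decide) (g 1), dim_one (by decide) (g' 1)]
    rw [if_pos ⟨e0, e1⟩]
    refine (Fin.sum_univ_two (fun a : Fin 2 => V 0 x a g * star (V 0 x a g'))).trans ?_
    show r2 * star r2 + r2 * star r2 = 1
    rw [star_r2, r2_mul]
    norm_num
  · have e1 : (g 1).val = (g' 1).val := by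
      rw [dim_one (by decide) (g 1), dim_one (by decide) (g' 1)]
    refine (ind_sum (show Fin 2 from x 0) (g 0).val (g' 0).val (hg 0) (hg' 0)).trans ?_
    simp only [e1, and_true]
  · refine (Fintype.sum_prod_type (fun a : Fin 2 × Fin 2 => V 2 x a g * star (V 2 x a g'))).trans ?_
    have h1 : ∀ a b : Fin 2, V 2 x (a, b) g * star (V 2 x (a, b) g') =
        ((if (g 0).val = a.val then (1 : ℂ) else 0) * star (if (g' 0).val = a.val then (1 : ℂ) else 0)) *
        (uu a b (g 1).val * star (uu a b (g' 1).val)) := by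
      intro a b
      show ((if (g 0).val = a.val then (1 : ℂ) else 0) * uu a b (g 1).val) *
        star ((if (g' 0).val = a.val then (1 : ℂ) else 0) * uu a b (g' 1).val) = _
      rw [star_mul']
      ring
    simp only [h1, ← Finset.mul_sum]
    have h2 : ∀ a : Fin 2, ∑ b, uu a b (g 1).val * star (uu a b (g' 1).val) =
        if (g 1).val = (g' 1).val then 1 else 0 := fun a => uu_sum a _ _ (hg 1) (hg' 1)
    simp only [h2, ← Finset.sum_mul]
    have h3 := ind_sum 0 (g 0).val (g' 0).val (hg 0) (hg' 0)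
    simp only [add_zero] at h3
    refine (congrArg (· * _) h3).trans ?_
    split_ifs <;> simp_all
  · have e0 : (g 0).val = (g' 0).val := by
      rw [dim_one (by decide) (g 0), dim_one (by decide) (g' 0)]
    refine (uu_sum (show Fin 2 from x 0) (g 1).val (g' 1).val (hg 1) (hg' 1)).trans ?_
    simp only [e0, true_and]
  · have e0 : (g 0).val = (g' 0).val := by
      rw [dim_one (by decide) (g 0), dim_one (by decide) (g' 0)]
    refine (uu_sum (show Fin 2 from x 1) (g 1).val (g' 1).val (hg 1) (hg' 1)).trans ?_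
    simp only [e0, true_and]

theorem nA5 : ∀ o, Nonempty (A5 o)
  | 0 => inferInstanceAs (Nonempty (Fin 2))
  | 1 => inferInstanceAs (Nonempty (Fin 2))
  | 2 => inferInstanceAs (Nonempty (Fin 2 × Fin 2))
  | 3 => inferInstanceAs (Nonempty (Fin 2))
  | 4 => inferInstanceAs (Nonempty (Fin 2))

/-- the preparations -/
noncomputable def KK (u : Fin 2) : Matrix ((∀ o, Fin (dim u o)) × (∀ _ : Fin 2, Fin 1))
    (∀ _ : Fin 2, Fin 1) ℂ := fun i _ => psi u i.1

open scoped Matrix in
theorem KK_sum (u : Fin 2) : ∑ _k : Fin 1, (KK u)ᴴ * KK u = 1 := by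
  rw [Fintype.sum_unique]
  ext j j'
  rw [Matrix.mul_apply, Subsingleton.elim j j', Matrix.one_apply_eq, Fintype.sum_prod_type]
  refine (Finset.sum_congr rfl fun i _ => Fintype.sum_unique _).trans ?_
  exact psi_sum u

/-- the measurements -/
noncomputable def EE (o : Fin 5) (x : ∀ o, A5 o) (a : A5 o) :
    Matrix (∀ u, Fin (dim u o)) (∀ u, Fin (dim u o)) ℂ :=
  Matrix.vecMulVec (V o x a) (star (V o x a))

theorem EE_sum (o : Fin 5) (x : ∀ o, A5 o) : ∑ a, EE o x a = 1 := by
  ext g g'
  rw [Matrix.sum_apply, Matrix.one_apply]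
  exact V_sum o x g g'

theorem EE_local (o : Fin 5) (x x' : ∀ o, A5 o)
    (h : ∀ o', edge5 (Sum.inl o') (Sum.inl o) = true → x o' = x' o') : EE o x = EE o x' := by
  have h' : V o x = V o x' := by
    funext a g
    fin_cases o
    · rfl
    · have e : x 0 = x' 0 := h 0 (by decide)
      show (if (g 0).val = ((show Fin 2 from a) + (show Fin 2 from x 0)).val then (1 : ℂ) else 0) = _
      rw [e]
      rfl
    · rfl
    · have e : x 0 = x' 0 := h 0 (by decide)
      show uu (show Fin 2 from x 0) (show Fin 2 from a) (g 1).val = _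
      rw [e]
      rfl
    · have e : x 1 = x' 1 := h 1 (by decide)
      show uu (show Fin 2 from x 1) (show Fin 2 from a) (g 1).val = _
      rw [e]
      rfl
  unfold EE
  rw [h']

/-- the quantum model -/
noncomputable def QM : QuantumModel K5 where
  α := A5
  I u o := Fin (dim u o)
  J _ _ := Fin 1
  κ _ := Fin 1
  nα := nA5
  fα := A5.fintype
  fI _ _ := Fin.fintype _
  dI _ _ := instDecidableEqFin _
  fJ _ _ := Fin.fintype _
  dJ _ _ := instDecidableEqFin _
  fκ _ := Fin.fintype _
  I_trivial u o h := by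
    rw [Fintype.card_fin]
    exact if_neg h
  J_trivial _ _ _ := rfl
  K u _ _ := KK u
  K_sum u _ := KK_sum u
  K_local _ _ _ _ := rfl
  E o x a := EE o x a
  E_posSemidef _ _ _ := Matrix.posSemidef_vecMulVec_self_star _
  E_sum o x := EE_sum o x
  E_local o x x' h := EE_local o x x' h

/-- the amplitude -/
noncomputable def amp (x : ∀ o, A5 o) : ℂ :=
  ∑ i : ∀ u o, Fin (dim u o), (∏ u, psi u (i u)) * ∏ o, star (V o x (x o) (fun u => i u o))

theorem QM_dist (x : ∀ o, A5 o) : QM.dist x = (amp x * star (amp x)).re := by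
  have h1 : QM.dist x = (∑ i : ∀ u o, Fin (dim u o), ∑ i' : ∀ u o, Fin (dim u o),
      ∑ _j : ∀ _u _u' : Fin 2, Fin 1, ∑ _j' : ∀ _u _u' : Fin 2, Fin 1,
      (∏ u, ∑ _k : Fin 1, psi u (i u) * star (psi u (i' u))) *
      ∏ o, (V o x (x o) (fun u => i' u o) * star (V o x (x o) (fun u => i u o)))).re := rfl
  rw [h1]
  congr 1
  simp only [Fintype.sum_unique]
  unfold amp
  rw [star_sum, Finset.sum_mul_sum]
  refine Finset.sum_congr rfl fun i _ => Finset.sum_congr rfl fun i' _ => ?_
  rw [star_mul', star_prod, star_prod, Finset.prod_mul_distrib, Finset.prod_mul_distrib]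
  simp only [star_star]
  ring

end Pool.Agent.KS6_70.EC
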