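import Pool.Agent.KS6_70.EC.Gen

/-! The asymptotic structure of the five observed variables. -/

set_option autoImplicit false

open Filter Topology

namespace Pool.Agent.KS6_70.EC

open Pool.Agent.R993.EC

theorem w_mk {k : Fin 5 → Type} [∀ a, Fintype (k a)] {P : Pt k → ℝ} {S : Finset (Fin 5)}
    {τ : Pt k} {y : k 0} {z : k 1} {a : k 2} {b : k 3} {c : k 4} (h0 : 0 ∈ S → τ 0 = y)
    (h1 : 1 ∈ S → τ 1 = z) (h2 : 2 ∈ S → τ 2 = a) (h3 : 3 ∈ S → τ 3 = b)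
    (h4 : 4 ∈ S → τ 4 = c) : w P S τ = w P S (mk5 y z a b c) := by
  refine w_congr fun i hi => ?_
  fin_cases i
  · exact h0 hi
  · exact h1 hi
  · exact h2 hi
  · exact h3 hi
  · exact h4 hi

/-- the limits of the entropies, in nats -/
structure GV (hv : Finset (Fin 5) → ℝ) : Prop where
  e : hv ∅ = 0
  s0 : hv {0} = Real.log 2
  s1 : hv {1} = Real.log 2
  s2 : hv {2} = 2 * Real.log 2
  s3 : hv {3} = Real.log 2
  s4 : hv {4} = Real.log 2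
  p01 : hv {0, 1} = 2 * Real.log 2
  p02 : hv {0, 2} = 3 * Real.log 2
  p12 : hv {1, 2} = 3 * Real.log 2
  t012 : hv {0, 1, 2} = 3 * Real.log 2
  p34 : hv {3, 4} = 2 * Real.log 2
  q023 : hv {0, 2, 3} = 4 * Real.log 2
  q024 : hv {0, 2, 4} = 4 * Real.log 2
  q0234 : hv {0, 2, 3, 4} = 4 * Real.log 2
  r0134 : hv {0, 1, 3, 4} = 4 * Real.log 2
  r01234 : hv {0, 1, 2, 3, 4} = 4 * Real.log 2
  t234 : hv {2, 3, 4} = 7 / 2 * Real.log 2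

theorem GV.lat1 {hv : Finset (Fin 5) → ℝ} (g : GV hv) : Eqv hv {2} 0 1 where
  f1 := by
    rw [show (insert 1 ({2} ∪ {0}) : Finset (Fin 5)) = {0, 1, 2} by decide,
      show ({2} ∪ {0} : Finset (Fin 5)) = {0, 2} by decide, g.t012, g.p02]
  f3 := by
    rw [show (insert 1 ({2} ∪ {0}) : Finset (Fin 5)) = {0, 1, 2} by decide,
      show ({2} ∪ {1} : Finset (Fin 5)) = {1, 2} by decide, g.t012, g.p12]
  i1 := by
    rw [show ({2} ∪ {0} : Finset (Fin 5)) = {0, 2} by decide, g.s2, g.s0, g.p02]; ring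
  i3 := by
    rw [show ({2} ∪ {1} : Finset (Fin 5)) = {1, 2} by decide, g.s2, g.s1, g.p12]; ring
  j := by
    rw [show ({0} ∪ {1} : Finset (Fin 5)) = {0, 1} by decide, g.s0, g.s1, g.p01]; ring
  n1 := by decide
  n3 := by decide
  n13 := by decide

theorem GV.lat2 {hv : Finset (Fin 5) → ℝ} (g : GV hv) : Eqv hv {0, 2} 3 4 where
  f1 := by
    rw [show (insert 4 ({0, 2} ∪ {3}) : Finset (Fin 5)) = {0, 2, 3, 4} by decide,
      show ({0, 2} ∪ {3} : Finset (Fin 5)) = {0, 2, 3} by decide, g.q0234, g.q023]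
  f3 := by
    rw [show (insert 4 ({0, 2} ∪ {3}) : Finset (Fin 5)) = {0, 2, 3, 4} by decide,
      show ({0, 2} ∪ {4} : Finset (Fin 5)) = {0, 2, 4} by decide, g.q0234, g.q024]
  i1 := by
    rw [show ({0, 2} ∪ {3} : Finset (Fin 5)) = {0, 2, 3} by decide, g.p02, g.s3, g.q023]; ring
  i3 := by
    rw [show ({0, 2} ∪ {4} : Finset (Fin 5)) = {0, 2, 4} by decide, g.p02, g.s4, g.q024]; ring
  j := by
    rw [show ({3} ∪ {4} : Finset (Fin 5)) = {3, 4} by decide, g.s3, g.s4, g.p34]; ring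
  n1 := by decide
  n3 := by decide
  n13 := by decide

/-- the assumptions -/
structure Setup (k : ℕ → Fin 5 → Type) [∀ n a, Fintype (k n a)] (P : ∀ n, Pt (k n) → ℝ)
    (𝒰 : Ultrafilter ℕ) (hv : Finset (Fin 5) → ℝ) : Prop where
  hP : ∀ n x, 0 ≤ P n x
  hP1 : ∀ n, ∑ x, P n x = 1
  hlim : ∀ S, Tendsto (fun n => HS (P n) S) 𝒰 (𝓝 (hv S))
  g : GV hv
  ind : ∀ n a y, pr (P n) (fun x : Pt (k n) => (x 2, x 0)) (a, y) =
    pr (P n) (fun x : Pt (k n) => x 2) a * pr (P n) (fun x : Pt (k n) => x 0) y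

section
variable {k : ℕ → Fin 5 → Type} [∀ n a, Fintype (k n a)] {P : ∀ n, Pt (k n) → ℝ}
  {𝒰 : Ultrafilter ℕ} {hv : Finset (Fin 5) → ℝ} (h : Setup k P 𝒰 hv)
include h

theorem Setup.pts : ∃ _ : ∀ n, Pt (k n), True :=
  ⟨fun n => (exists_pt h.hP1 n).some, trivial⟩

theorem Setup.single {o : Fin 5} {v : ∀ n, k n o} {p : ℝ}
    (hv' : Tendsto (fun n => w1 (P n) o (v n)) 𝒰 (𝓝 p)) (t : ∀ n, Pt (k n))
    (ht : ∀ n, t n o = v n) : Tendsto (fun n => w (P n) {o} (t n)) 𝒰 (𝓝 p) := by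
  simp only [w_single, ht]
  exact hv'

theorem Setup.w01 {y : ∀ n, k n 0} {z : ∀ n, k n 1} {p q : ℝ}
    (hy : Tendsto (fun n => w1 (P n) 0 (y n)) 𝒰 (𝓝 p))
    (hz : Tendsto (fun n => w1 (P n) 1 (z n)) 𝒰 (𝓝 q)) (a : ∀ n, k n 2) (b : ∀ n, k n 3)
    (c : ∀ n, k n 4) :
    Tendsto (fun n => w (P n) {0, 1} (mk5 (y n) (z n) (a n) (b n) (c n))) 𝒰 (𝓝 (p * q)) :=
  ind_lim' (S := {0}) (T := {1}) h.hP h.hP1 h.hlim h.g.lat1.j _
    (h.single hy _ fun _ => rfl) (h.single hz _ fun _ => rfl)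

theorem Setup.w34 {b : ∀ n, k n 3} {c : ∀ n, k n 4} {p q : ℝ}
    (hb : Tendsto (fun n => w1 (P n) 3 (b n)) 𝒰 (𝓝 p))
    (hc : Tendsto (fun n => w1 (P n) 4 (c n)) 𝒰 (𝓝 q)) (y : ∀ n, k n 0) (z : ∀ n, k n 1)
    (a : ∀ n, k n 2) :
    Tendsto (fun n => w (P n) {3, 4} (mk5 (y n) (z n) (a n) (b n) (c n))) 𝒰 (𝓝 (p * q)) :=
  ind_lim' (S := {3}) (T := {4}) h.hP h.hP1 h.hlim h.g.lat2.j _
    (h.single hb _ fun _ => rfl) (h.single hc _ fun _ => rfl)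

theorem Setup.w02 {y : ∀ n, k n 0} {a : ∀ n, k n 2} {p q : ℝ}
    (hy : Tendsto (fun n => w1 (P n) 0 (y n)) 𝒰 (𝓝 p))
    (ha : Tendsto (fun n => w1 (P n) 2 (a n)) 𝒰 (𝓝 q)) (z : ∀ n, k n 1) (b : ∀ n, k n 3)
    (c : ∀ n, k n 4) :
    Tendsto (fun n => w (P n) {0, 2} (mk5 (y n) (z n) (a n) (b n) (c n))) 𝒰 (𝓝 (p * q)) :=
  ind_lim' (S := {0}) (T := {2}) h.hP h.hP1 h.hlim
    (by rw [show ({0} ∪ {2} : Finset (Fin 5)) = {0, 2} by decide, h.g.s0, h.g.s2, h.g.p02]; ring)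
    _ (h.single hy _ fun _ => rfl) (h.single ha _ fun _ => rfl)

theorem Setup.w023 {y : ∀ n, k n 0} {a : ∀ n, k n 2} {b : ∀ n, k n 3} {p q r : ℝ}
    (hy : Tendsto (fun n => w1 (P n) 0 (y n)) 𝒰 (𝓝 p))
    (ha : Tendsto (fun n => w1 (P n) 2 (a n)) 𝒰 (𝓝 q))
    (hb : Tendsto (fun n => w1 (P n) 3 (b n)) 𝒰 (𝓝 r)) (z : ∀ n, k n 1)
    (c : ∀ n, k n 4) :
    Tendsto (fun n => w (P n) {0, 2, 3} (mk5 (y n) (z n) (a n) (b n) (c n))) 𝒰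
      (𝓝 (p * q * r)) := by
  rw [show ({0, 2, 3} : Finset (Fin 5)) = {0, 2} ∪ {3} by decide]
  exact ind_lim' (S := {0, 2}) (T := {3}) h.hP h.hP1 h.hlim h.g.lat2.i1 _
    (h.w02 hy ha z b c) (h.single hb _ fun _ => rfl)

theorem Setup.w0134 {y : ∀ n, k n 0} {z : ∀ n, k n 1} {b : ∀ n, k n 3} {c : ∀ n, k n 4}
    {p q r s : ℝ}
    (hy : Tendsto (fun n => w1 (P n) 0 (y n)) 𝒰 (𝓝 p))
    (hz : Tendsto (fun n => w1 (P n) 1 (z n)) 𝒰 (𝓝 q))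
    (hb : Tendsto (fun n => w1 (P n) 3 (b n)) 𝒰 (𝓝 r))
    (hc : Tendsto (fun n => w1 (P n) 4 (c n)) 𝒰 (𝓝 s)) (a : ∀ n, k n 2) :
    Tendsto (fun n => w (P n) {0, 1, 3, 4} (mk5 (y n) (z n) (a n) (b n) (c n))) 𝒰
      (𝓝 (p * q * (r * s))) := by
  rw [show ({0, 1, 3, 4} : Finset (Fin 5)) = {0, 1} ∪ {3, 4} by decide]
  refine ind_lim' (S := {0, 1}) (T := {3, 4}) h.hP h.hP1 h.hlim ?_ _
    (h.w01 hy hz a b c) (h.w34 hb hc y z a)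
  rw [show ({0, 1} ∪ {3, 4} : Finset (Fin 5)) = {0, 1, 3, 4} by decide, h.g.p01, h.g.p34,
    h.g.r0134]
  ring

/-- the value of `A`, given the others -/
theorem Setup.exA {y : ∀ n, k n 0} {z : ∀ n, k n 1} {b : ∀ n, k n 3} {c : ∀ n, k n 4}
    {p q r s : ℝ} (p0 : 0 < p) (q0 : 0 < q) (r0 : 0 < r) (s0 : 0 < s)
    (hy : Tendsto (fun n => w1 (P n) 0 (y n)) 𝒰 (𝓝 p))
    (hz : Tendsto (fun n => w1 (P n) 1 (z n)) 𝒰 (𝓝 q))
    (hb : Tendsto (fun n => w1 (P n) 3 (b n)) 𝒰 (𝓝 r))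
    (hc : Tendsto (fun n => w1 (P n) 4 (c n)) 𝒰 (𝓝 s)) :
    ∃ a : ∀ n, k n 2, Tendsto (fun n => w (P n) {0, 1, 2, 3, 4}
      (mk5 (y n) (z n) (a n) (b n) (c n))) 𝒰 (𝓝 (p * q * (r * s))) ∧
      Tendsto (fun n => w1 (P n) 2 (a n)) 𝒰 (𝓝 (q * s)) := by
  obtain ⟨t, -⟩ := h.pts
  have hpos : 0 < p * q * (r * s) := by positivity
  obtain ⟨a, ha⟩ := exmax_lim' (S := {0, 1, 3, 4}) (o := 2) h.hP h.hlim (by decide) (by
    rw [show (insert 2 {0, 1, 3, 4} : Finset (Fin 5)) = {0, 1, 2, 3, 4} by decide, h.g.r0134,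
      h.g.r01234]) _ hpos (h.w0134 hy hz hb hc fun n => t n 2)
  rw [show (insert 2 {0, 1, 3, 4} : Finset (Fin 5)) = {0, 1, 2, 3, 4} by decide] at ha
  have ha' : Tendsto (fun n => w (P n) {0, 1, 2, 3, 4}
      (mk5 (y n) (z n) (a n) (b n) (c n))) 𝒰 (𝓝 (p * q * (r * s))) := by
    refine ha.congr fun n => w_mk ?_ ?_ ?_ ?_ ?_ <;> intro _ <;> simp [Function.update, mk5]
  refine ⟨a, ha', ?_⟩
  obtain ⟨d, -, -, hd⟩ := exists_lim 𝒰 (fun n => w1 (P n) 2 (a n))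
    (fun n => w1_nonneg (h.hP n) _ _) (fun n => w1_le_one (h.hP n) (h.hP1 n) _ _)
  have h1 := det_lim' (S := {0, 2, 3}) h.hP h.hlim (by decide)
    (by rw [h.g.r01234, h.g.q023]) _ hpos ha'
  have h2 := tendsto_nhds_unique h1 (h.w023 hy hd hb z c)
  have h3 : d = q * s := by
    have : p * r * (d - q * s) = 0 := by linarith
    rcases mul_eq_zero.1 this with h' | h'
    · exact absurd h' (by positivity)
    · linarith
  rwa [h3] at hd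

end

end Pool.Agent.KS6_70.EC
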