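import Pool.Agent.KS6_70.EC.Stage

/-! The asymptotic structure of the five observed variables, continued. -/

set_option autoImplicit false

open Filter Topology

namespace Pool.Agent.KS6_70.EC

open Pool.Agent.R993.EC

section
variable {k : ℕ → Fin 5 → Type} [∀ n a, Fintype (k n a)] {P : ∀ n, Pt (k n) → ℝ}
  {𝒰 : Ultrafilter ℕ} {hv : Finset (Fin 5) → ℝ} (h : Setup k P 𝒰 hv)
include h

theorem Setup.stageA : ∃ y z, Two k P 𝒰 0 y ∧ Two k P 𝒰 1 z := by
  obtain ⟨t, -⟩ := h.pts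
  obtain ⟨α, cα, hα0, hα⟩ := heavy_pos h.hP h.hP1 h.hlim (2 : Fin 5)
  obtain ⟨y0, p, hp0, hy0⟩ := heavy_pos h.hP h.hP1 h.hlim (0 : Fin 5)
  obtain ⟨z0, hz0, -⟩ := latin2 h.hP h.hP1 h.hlim h.g.lat1
    (fun n => mk5 (y0 n) (t n 1) (α n) (t n 3) (t n 4)) hα0 hp0
    (h.single hα _ fun _ => rfl) hy0
  have huni : ∀ (v : ∀ n, k n 0) (c : ℝ), 0 < c →
      Tendsto (fun n => w1 (P n) 0 (v n)) 𝒰 (𝓝 c) → c = p := fun v c hc hv' =>
    uni h.hP h.hP1 h.hlim h.g.lat1 (fun n => mk5 (v n) (z0 n) (t n 2) (t n 3) (t n 4)) hc hp0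
      hv' hz0
  rcases two_or_one h.hP h.hP1 h.hlim h.g.e h.g.s0 huni with ⟨-, y, hy⟩ | ⟨-, v, hv1⟩
  · obtain ⟨z, hz, -⟩ := two_of_latin h.hP h.hP1 h.hlim h.g.lat1
      (fun n => mk5 (t n 0) (t n 1) (α n) (t n 3) (t n 4)) hα0 (h.single hα _ fun _ => rfl) hy
    exact ⟨y, z, hy, hz⟩
  · exfalso
    have h1 : ∀ n, HS (P n) {1, 2} - HS (P n) {1} ≤ (HS (P n) {0, 1, 2} - HS (P n) {0, 1}) +
        Real.negMulLog (w1 (P n) 0 (v n)) + Real.negMulLog (1 - w1 (P n) 0 (v n)) +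
        (1 - w1 (P n) 0 (v n)) * HS (P n) {2} := by
      intro n
      have h' := rare (P n) (h.hP n) (h.hP1 n) (fun x : Pt (k n) => x 2)
        (fun x : Pt (k n) => x 0) (fun x : Pt (k n) => x 1) (h.ind n) (v n)
      rw [Hs_eq_HS (P := P n) (S := {1, 2}) (fun x : Pt (k n) => (x 2, x 1)) (by
          intro x t; simp [and_comm]),
        Hs_eq_HS (P := P n) (S := {1}) (fun x : Pt (k n) => x 1) (by simp),
        Hs_eq_HS (P := P n) (S := {0, 1, 2}) (fun x : Pt (k n) => (x 2, x 0, x 1)) (by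
          intro x t; simp; tauto),
        Hs_eq_HS (P := P n) (S := {0, 1}) (fun x : Pt (k n) => (x 0, x 1)) (by simp),
        Hs_eq_HS (P := P n) (S := {2}) (fun x : Pt (k n) => x 2) (by simp)] at h'
      exact h'
    have h2 := (h.hlim {1, 2}).sub (h.hlim {1})
    have hb1 := tendsto_const_nhds (x := (1 : ℝ)).sub hv1
    have h3 := ((((h.hlim {0, 1, 2}).sub (h.hlim {0, 1})).add
      ((Real.continuous_negMulLog.tendsto _).comp hv1)).add
      ((Real.continuous_negMulLog.tendsto _).comp hb1)).add (hb1.mul (h.hlim {2}))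
    have h4 := le_of_tendsto_of_tendsto h2 h3 (Eventually.of_forall h1)
    rw [h.g.p12, h.g.s1, h.g.t012, h.g.p01] at h4
    simp only [sub_self, Real.negMulLog_zero, Real.negMulLog_one, add_zero, zero_mul] at h4
    have := Real.log_pos one_lt_two
    linarith

theorem Setup.stageB {y : Fin 2 → ∀ n, k n 0} {z : Fin 2 → ∀ n, k n 1} (hy : Two k P 𝒰 0 y)
    (hz : Two k P 𝒰 1 z) : ∃ b c, Two k P 𝒰 3 b ∧ Two k P 𝒰 4 c := by
  obtain ⟨t, -⟩ := h.pts
  have h2 : (0 : ℝ) < 1 / 2 := by norm_num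
  obtain ⟨α, cα, hα0, hα⟩ := heavy_pos h.hP h.hP1 h.hlim (2 : Fin 5)
  obtain ⟨b0, p, hp0, hb0⟩ := heavy_pos h.hP h.hP1 h.hlim (3 : Fin 5)
  have hE := h.w02 (hy.lim 0) hα (fun n => t n 1) b0 (fun n => t n 4)
  have he : 0 < 1 / 2 * cα := by positivity
  obtain ⟨c0, hc0, -⟩ := latin2 h.hP h.hP1 h.hlim h.g.lat2 _ he hp0 hE hb0
  have huni : ∀ (v : ∀ n, k n 3) (c : ℝ), 0 < c →
      Tendsto (fun n => w1 (P n) 3 (v n)) 𝒰 (𝓝 c) → c = p := fun v c hc hv' =>
    uni h.hP h.hP1 h.hlim h.g.lat2 (fun n => mk5 (t n 0) (t n 1) (t n 2) (v n) (c0 n)) hc hp0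
      hv' hc0
  rcases two_or_one h.hP h.hP1 h.hlim h.g.e h.g.s3 huni with ⟨-, b, hb⟩ | ⟨hp1, b1, hb1⟩
  · obtain ⟨c, hc, -⟩ := two_of_latin h.hP h.hP1 h.hlim h.g.lat2 _ he hE hb
    exact ⟨b, c, hb, hc⟩
  · exfalso
    rw [hp1] at hc0
    have hex : ∀ j, ∃ a : ∀ n, k n 2, Tendsto (fun n => w (P n) {0, 1, 2, 3, 4}
      (mk5 (y 0 n) (z j n) (a n) (b1 n) (c0 n))) 𝒰 (𝓝 (1 / 4)) ∧
      Tendsto (fun n => w1 (P n) 2 (a n)) 𝒰 (𝓝 (1 / 2)) := by
      intro j
      obtain ⟨a, h3, h4⟩ := h.exA h2 h2 one_pos one_pos (hy.lim 0) (hz.lim j) hb1 hc0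
      rw [show (1 / 2 * (1 / 2) * (1 * 1) : ℝ) = 1 / 4 by norm_num] at h3
      rw [mul_one] at h4
      exact ⟨a, h3, h4⟩
    choose a ha1 ha2 using hex
    have hne : ∀ᶠ n in (𝒰 : Filter ℕ), a 0 n ≠ a 1 n := by
      refine Ultrafilter.eventually_not.2 fun hcon => ?_
      have h5 := h.w02 (hy.lim 0) (ha2 0) (fun n => t n 1) (fun n => t n 3) (fun n => t n 4)
      have h6 := two_le h.hP (S := {0, 2}) (T := {0, 1, 2, 3, 4}) (by decide)
        (Eventually.of_forall fun n i hi => by fin_cases i <;> first | rfl | simp at hi)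
        (by
          filter_upwards [hcon] with n hn i hi
          fin_cases i
          · rfl
          · simp at hi
          · exact hn.symm
          · simp at hi
          · simp at hi)
        (by
          filter_upwards [hz.ne] with n hn
          exact ⟨1, by simp, hn⟩) (ha1 0) (ha1 1) h5
      norm_num at h6
    have hw : ∀ j i : Fin 2, Tendsto (fun n => w (P n) {0, 2, 3, 4}
        (mk5 (y i n) (t n 1) (a j n) (b1 n) (c0 n))) 𝒰 (𝓝 (1 / 4)) := by
      intro j i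
      have h5 := h.w023 (hy.lim i) (ha2 j) hb1 (fun n => t n 1) (fun n => t n 4)
      obtain ⟨v, hv'⟩ := exmax_lim' (S := {0, 2, 3}) (o := 4) h.hP h.hlim (by decide) (by
        rw [show (insert 4 {0, 2, 3} : Finset (Fin 5)) = {0, 2, 3, 4} by decide, h.g.q0234,
          h.g.q023]) _ (by norm_num) h5
      rw [show (insert 4 {0, 2, 3} : Finset (Fin 5)) = {0, 2, 3, 4} by decide] at hv'
      obtain ⟨d, -, -, hd⟩ := exists_lim 𝒰 (fun n => w1 (P n) 4 (v n))
        (fun n => w1_nonneg (h.hP n) _ _) (fun n => w1_le_one (h.hP n) (h.hP1 n) _ _)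
      have hd4 : 1 / 4 ≤ d := by
        have h6 := le_of_tendsto_of_tendsto hv' (h.single (o := 4) hd
          (fun n => Function.update (mk5 (y i n) (t n 1) (a j n) (b1 n) (t n 4)) 4 (v n))
          (fun n => Function.update_self _ _ _))
          (Eventually.of_forall fun n => w_anti (h.hP n) (by decide) _)
        norm_num at h6 ⊢
        exact h6
      have h7 := eq_of_heavy h.hP h.hP1 hd hc0 (by linarith)
      rw [show (1 / 2 * (1 / 2) * 1 : ℝ) = 1 / 4 by norm_num] at hv'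
      refine hv'.congr' ?_
      filter_upwards [h7] with n hn
      rw [← hn]
      refine w_mk ?_ ?_ ?_ ?_ ?_ <;> intro _ <;> simp [Function.update, mk5]
    have h1 := spread h.hP h.hlim (S := {2, 3, 4}) (T := {0, 2, 3, 4}) (by decide)
      (fun (j : Fin 2) (i : Fin 2) n => mk5 (y i n) (t n 1) (a j n) (b1 n) (c0 n))
      (Eventually.of_forall fun n q i j x hx => by fin_cases x <;> first | rfl | simp at hx)
      (by
        filter_upwards [hy.ne, hne] with n g1 g2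
        intro q q' i j h'
        exact ⟨inj2 (fun q => a q n) g2 (h' 2 (by simp)),
          inj2 (fun i => y i n) g1 (h' 0 (by simp))⟩)
      (by norm_num : (0 : ℝ) < 1 / 4) hw
    rw [h.g.q0234, h.g.t234] at h1
    simp only [Fintype.card_fin] at h1
    push_cast at h1
    have := Real.log_pos one_lt_two
    linarith

end

end Pool.Agent.KS6_70.EC
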