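import Pool.Agent.KS6_70.EC.StageB

/-! The atoms of the variable `A`. -/

set_option autoImplicit false

open Filter Topology

namespace Pool.Agent.KS6_70.EC

open Pool.Agent.R993.EC

section
variable {k : ℕ → Fin 5 → Type} [∀ n a, Fintype (k n a)] {P : ∀ n, Pt (k n) → ℝ}
  {𝒰 : Ultrafilter ℕ} {hv : Finset (Fin 5) → ℝ}

/-- `A = α` forces `Z = z_{i + x}` if `Y = y_i` -/
def AX (P : ∀ n, Pt (k n) → ℝ) (𝒰 : Ultrafilter ℕ) (y : Fin 2 → ∀ n, k n 0)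
    (z : Fin 2 → ∀ n, k n 1) (α : ∀ n, k n 2) (x : Fin 2) : Prop :=
  ∀ i (u : ∀ n, k n 3) (v : ∀ n, k n 4), Tendsto (fun n => w (P n) {0, 1, 2}
    (mk5 (y i n) (z (i + x) n) (α n) (u n) (v n))) 𝒰 (𝓝 (1 / 8))

/-- `A = α`, `Y = y_i` and `B = b_l` force `C = c_{l + e}` -/
def AG (P : ∀ n, Pt (k n) → ℝ) (𝒰 : Ultrafilter ℕ) (y : Fin 2 → ∀ n, k n 0)
    (b : Fin 2 → ∀ n, k n 3) (c : Fin 2 → ∀ n, k n 4) (α : ∀ n, k n 2) (i e : Fin 2) : Prop :=
  ∀ l (u : ∀ n, k n 1), Tendsto (fun n => w (P n) {0, 2, 3, 4}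
    (mk5 (y i n) (u n) (α n) (b l n) (c (l + e) n))) 𝒰 (𝓝 (1 / 16))

theorem AX.congr {y : Fin 2 → ∀ n, k n 0} {z : Fin 2 → ∀ n, k n 1} {α α' : ∀ n, k n 2}
    {x : Fin 2} (hx : AX P 𝒰 y z α x) (he : ∀ᶠ n in (𝒰 : Filter ℕ), α n = α' n) :
    AX P 𝒰 y z α' x := fun i u v => (hx i u v).congr' (he.mono fun n hn => by rw [hn])

theorem AG.congr {y : Fin 2 → ∀ n, k n 0} {b : Fin 2 → ∀ n, k n 3} {c : Fin 2 → ∀ n, k n 4}
    {α α' : ∀ n, k n 2} {i e : Fin 2} (hx : AG P 𝒰 y b c α i e)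
    (he : ∀ᶠ n in (𝒰 : Filter ℕ), α n = α' n) :
    AG P 𝒰 y b c α' i e := fun l u => (hx l u).congr' (he.mono fun n hn => by rw [hn])

theorem fin2_ne {x x' : Fin 2} (h : x ≠ x') : x' = x + 1 := by omega

theorem fin2_fun : ∀ f : Fin 2 → Fin 2, f 0 ≠ f 1 → ∀ a, f (a + f 0) = a := by decide

theorem Two.ne' {o : Fin 5} {a : Fin 2 → ∀ n, k n o} (ha : Two k P 𝒰 o a) (i : Fin 2) :
    ∀ᶠ n in (𝒰 : Filter ℕ), a i n ≠ a (i + 1) n := by
  fin_cases i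
  · exact ha.ne
  · exact ha.ne.mono fun n hn => hn.symm

variable (h : Setup k P 𝒰 hv) {y : Fin 2 → ∀ n, k n 0} {z : Fin 2 → ∀ n, k n 1}
  {b : Fin 2 → ∀ n, k n 3} {c : Fin 2 → ∀ n, k n 4} (hy : Two k P 𝒰 0 y) (hz : Two k P 𝒰 1 z)
  (hb : Two k P 𝒰 3 b) (hc : Two k P 𝒰 4 c)
include h hy

include hz in
theorem Setup.xval {α : ∀ n, k n 2} (hα : Tendsto (fun n => w1 (P n) 2 (α n)) 𝒰 (𝓝 (1 / 4))) :
    ∃ x, AX P 𝒰 y z α x := by
  obtain ⟨t, -⟩ := h.pts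
  obtain ⟨s, hs⟩ := shift h.hP h.hP1 h.hlim h.g.lat1
    (fun n => mk5 (t n 0) (t n 1) (α n) (t n 3) (t n 4)) (by norm_num) (h.single hα _ fun _ => rfl)
    hy hz
  refine ⟨s, fun i u v => ?_⟩
  have := hs i
  rw [show (insert 1 ({2} ∪ {0}) : Finset (Fin 5)) = {0, 1, 2} by decide,
    show (1 / 4 / 2 : ℝ) = 1 / 8 by norm_num] at this
  refine this.congr fun n => w_mk ?_ ?_ ?_ ?_ ?_ <;> intro hi <;>
    first | (exact absurd hi (by decide)) | (simp [Function.update, mk5])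

include hb hc in
theorem Setup.gval {α : ∀ n, k n 2} (hα : Tendsto (fun n => w1 (P n) 2 (α n)) 𝒰 (𝓝 (1 / 4)))
    (i : Fin 2) : ∃ e, AG P 𝒰 y b c α i e := by
  obtain ⟨t, -⟩ := h.pts
  obtain ⟨s, hs⟩ := shift h.hP h.hP1 h.hlim h.g.lat2 _ (by norm_num)
    (h.w02 (hy.lim i) hα (fun n => t n 1) (fun n => t n 3) (fun n => t n 4)) hb hc
  refine ⟨s, fun l u => ?_⟩
  have := hs l
  rw [show (insert 4 ({0, 2} ∪ {3}) : Finset (Fin 5)) = {0, 2, 3, 4} by decide,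
    show (1 / 2 * (1 / 4) / 2 : ℝ) = 1 / 16 by norm_num] at this
  refine this.congr fun n => w_mk ?_ ?_ ?_ ?_ ?_ <;> intro hi <;>
    first | (exact absurd hi (by decide)) | (simp [Function.update, mk5])

/-- the value of `Z` is forced -/
theorem Setup.xuniq {α : ∀ n, k n 2} (hα : Tendsto (fun n => w1 (P n) 2 (α n)) 𝒰 (𝓝 (1 / 4)))
    {x : Fin 2} (hx : AX P 𝒰 y z α x) {i : Fin 2} {v : ∀ n, k n 1} {u : ∀ n, k n 3}
    {u' : ∀ n, k n 4} {d : ℝ} (hd : 0 < d)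
    (hw : Tendsto (fun n => w (P n) {0, 1, 2} (mk5 (y i n) (v n) (α n) (u n) (u' n))) 𝒰 (𝓝 d)) :
    ∀ᶠ n in (𝒰 : Filter ℕ), v n = z (i + x) n := by
  by_contra hcon
  have hne := Ultrafilter.eventually_not.2 hcon
  have h5 := h.w02 (hy.lim i) hα v u u'
  have h6 := two_le h.hP (S := {0, 2}) (T := {0, 1, 2}) (by decide)
    (Eventually.of_forall fun n i hi => by fin_cases i <;> first | rfl | simp at hi)
    (Eventually.of_forall fun n i hi => by fin_cases i <;> first | rfl | simp at hi)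
    (hne.mono fun n hn => ⟨1, by simp, hn⟩) hw (hx i u u') h5
  linarith

include hb in
/-- the value of `C` is forced -/
theorem Setup.guniq {α : ∀ n, k n 2} (hα : Tendsto (fun n => w1 (P n) 2 (α n)) 𝒰 (𝓝 (1 / 4)))
    {i e : Fin 2} (hx : AG P 𝒰 y b c α i e) {l : Fin 2} {v : ∀ n, k n 4} {u : ∀ n, k n 1}
    {d : ℝ} (hd : 0 < d)
    (hw : Tendsto (fun n => w (P n) {0, 2, 3, 4}
      (mk5 (y i n) (u n) (α n) (b l n) (v n))) 𝒰 (𝓝 d)) :
    ∀ᶠ n in (𝒰 : Filter ℕ), v n = c (l + e) n := by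
  by_contra hcon
  have hne := Ultrafilter.eventually_not.2 hcon
  have h5 := h.w023 (hy.lim i) hα (hb.lim l) u v
  have h6 := two_le h.hP (S := {0, 2, 3}) (T := {0, 2, 3, 4}) (by decide)
    (Eventually.of_forall fun n i hi => by fin_cases i <;> first | rfl | simp at hi)
    (Eventually.of_forall fun n i hi => by fin_cases i <;> first | rfl | simp at hi)
    (hne.mono fun n hn => ⟨4, by simp, hn⟩) hw (hx l u) h5
  norm_num at h6
  linarith

include hz in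
theorem Setup.AX_uniq {α : ∀ n, k n 2}
    (hα : Tendsto (fun n => w1 (P n) 2 (α n)) 𝒰 (𝓝 (1 / 4)))
    {x x' : Fin 2} (hx : AX P 𝒰 y z α x) (hx' : AX P 𝒰 y z α x') : x = x' := by
  obtain ⟨t, -⟩ := h.pts
  by_contra hne
  have h1 := h.xuniq hy hα hx (by norm_num : (0 : ℝ) < 1 / 8) (hx' 0 (fun n => t n 3) fun n => t n 4)
  rw [zero_add, zero_add, fin2_ne hne] at h1
  obtain ⟨n, h2, h3⟩ := (h1.and (hz.ne' x)).exists
  exact h3 h2.symm

include hb hc in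
theorem Setup.AG_uniq {α : ∀ n, k n 2}
    (hα : Tendsto (fun n => w1 (P n) 2 (α n)) 𝒰 (𝓝 (1 / 4)))
    {i e e' : Fin 2} (hx : AG P 𝒰 y b c α i e) (hx' : AG P 𝒰 y b c α i e') : e = e' := by
  obtain ⟨t, -⟩ := h.pts
  by_contra hne
  have h1 := h.guniq hy hb hα hx (by norm_num : (0 : ℝ) < 1 / 16) (hx' 0 (fun n => t n 1))
  rw [zero_add, zero_add, fin2_ne hne] at h1
  obtain ⟨n, h2, h3⟩ := (h1.and (hc.ne' e)).exists
  exact h3 h2.symm

include hz hb hc in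
theorem Setup.stageE (i x e : Fin 2) : ∃ α : ∀ n, k n 2,
    Tendsto (fun n => w1 (P n) 2 (α n)) 𝒰 (𝓝 (1 / 4)) ∧ AX P 𝒰 y z α x ∧
      AG P 𝒰 y b c α i e := by
  have h2 : (0 : ℝ) < 1 / 2 := by norm_num
  obtain ⟨α, h3, h4⟩ := h.exA h2 h2 h2 h2 (hy.lim i) (hz.lim (i + x)) (hb.lim 0) (hc.lim e)
  rw [show (1 / 2 * (1 / 2) * (1 / 2 * (1 / 2)) : ℝ) = 1 / 16 by norm_num] at h3
  rw [show (1 / 2 * (1 / 2) : ℝ) = 1 / 4 by norm_num] at h4
  refine ⟨α, h4, ?_, ?_⟩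
  · obtain ⟨x', hx'⟩ := h.xval hy hz h4
    obtain ⟨d, -, -, hd⟩ := exists_lim 𝒰 (fun n => w (P n) {0, 1, 2}
      (mk5 (y i n) (z (i + x) n) (α n) (b 0 n) (c e n)))
      (fun n => w_nonneg (h.hP n) _ _) (fun n => w_le_one (h.hP n) (h.hP1 n) _ _)
    have h5 := le_of_tendsto_of_tendsto h3 hd
      (Eventually.of_forall fun n => w_anti (h.hP n) (by decide) _)
    have h6 := h.xuniq hy h4 hx' (by linarith) hd
    have h7 : x = x' := by
      by_contra hne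
      rw [fin2_ne hne, ← add_assoc] at h6
      obtain ⟨n, h7, h8⟩ := (h6.and (hz.ne' (i + x))).exists
      exact h8 h7
    rw [h7]
    exact hx'
  · obtain ⟨e', he'⟩ := h.gval hy hb hc h4 i
    obtain ⟨d, -, -, hd⟩ := exists_lim 𝒰 (fun n => w (P n) {0, 2, 3, 4}
      (mk5 (y i n) (z (i + x) n) (α n) (b 0 n) (c e n)))
      (fun n => w_nonneg (h.hP n) _ _) (fun n => w_le_one (h.hP n) (h.hP1 n) _ _)
    have h5 := le_of_tendsto_of_tendsto h3 hd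
      (Eventually.of_forall fun n => w_anti (h.hP n) (by decide) _)
    have h6 := h.guniq hy hb h4 he' (by linarith) hd
    rw [zero_add] at h6
    have h7 : e = e' := by
      by_contra hne
      rw [fin2_ne hne] at h6
      obtain ⟨n, h7, h8⟩ := (h6.and (hc.ne' e)).exists
      exact h8 h7
    rw [h7]
    exact he'

include hz hb hc in
theorem Setup.stageF : ∃ (α : Fin 2 → Fin 2 → ∀ n, k n 2) (F : Fin 2 → Fin 2),
    (∀ x a, Tendsto (fun n => w1 (P n) 2 (α x a n)) 𝒰 (𝓝 (1 / 4))) ∧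
    (∀ x a, AX P 𝒰 y z (α x a) x) ∧ (∀ x a i, AG P 𝒰 y b c (α x a) i (a + i * F x)) ∧
    ∀ᶠ n in (𝒰 : Filter ℕ), ∀ p q : Fin 2 × Fin 2, α p.1 p.2 n = α q.1 q.2 n → p = q := by
  have hE := h.stageE hy hz hb hc
  choose α h1 h2 h3 using hE 0
  have hinj : ∀ᶠ n in (𝒰 : Filter ℕ), ∀ p q : Fin 2 × Fin 2,
      α p.1 p.2 n = α q.1 q.2 n → p = q := by
    rw [eventually_all]
    intro p
    rw [eventually_all]
    intro q
    by_cases hpq : p = q
    · exact Eventually.of_forall fun _ _ => hpq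
    · have : ∀ᶠ n in (𝒰 : Filter ℕ), ¬ (α p.1 p.2 n = α q.1 q.2 n) := by
        refine Ultrafilter.eventually_not.2 fun hcon => hpq ?_
        have e1 := h.AX_uniq hy hz (h1 q.1 q.2) ((h2 p.1 p.2).congr hcon) (h2 q.1 q.2)
        have e2 := h.AG_uniq hy hb hc (h1 q.1 q.2) ((h3 p.1 p.2).congr hcon) (h3 q.1 q.2)
        exact Prod.ext e1 e2
      exact this.mono fun n hn hn' => absurd hn' hn
  have hfour : ∀ α' : ∀ n, k n 2, Tendsto (fun n => w1 (P n) 2 (α' n)) 𝒰 (𝓝 (1 / 4)) →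
      ∃ x a, ∀ᶠ n in (𝒰 : Filter ℕ), α' n = α x a n := by
    intro α' hα'
    by_contra hcon
    push Not at hcon
    have hne : ∀ᶠ n in (𝒰 : Filter ℕ), ∀ p : Fin 2 × Fin 2, α' n ≠ α p.1 p.2 n := by
      rw [eventually_all]
      intro p
      exact hcon p.1 p.2
    have h4 : ∀ᶠ n in (𝒰 : Filter ℕ), w1 (P n) 2 (α' n) +
        ∑ p : Fin 2 × Fin 2, w1 (P n) 2 (α p.1 p.2 n) ≤ 1 := by
      classical
      filter_upwards [hne, hinj] with n g1 g2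
      have g3 := w1_set (h.hP n) (h.hP1 n) 2 (insert (α' n)
        (Finset.univ.image fun p : Fin 2 × Fin 2 => α p.1 p.2 n))
      rw [Finset.sum_insert (by
        simp only [Finset.mem_image, Finset.mem_univ, true_and, not_exists]
        exact fun p hp => g1 p hp.symm), Finset.sum_image (fun p _ q _ hpq => g2 p q hpq)] at g3
      exact g3
    have h5 := le_of_tendsto (hα'.add (tendsto_finsetSum _ fun p _ => h1 p.1 p.2)) h4
    simp at h5
    norm_num at h5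
  have hG : ∀ x e, ∃ a, AG P 𝒰 y b c (α x a) 1 e := by
    intro x e
    obtain ⟨α', g1, g2, g3⟩ := hE 1 x e
    obtain ⟨x', a, hxa⟩ := hfour α' g1
    have e1 := h.AX_uniq hy hz (h1 x' a) (g2.congr hxa) (h2 x' a)
    subst e1
    exact ⟨a, g3.congr hxa⟩
  choose H hH using hG
  have hHne : ∀ x, H x 0 ≠ H x 1 := by
    intro x hx
    have g1 := hH x 0
    have g2 := hH x 1
    rw [hx] at g1
    have := h.AG_uniq hy hb hc (h1 x _) g1 g2
    simp at this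
  refine ⟨α, fun x => H x 0, h1, h2, fun x a i => ?_, hinj⟩
  have hi : i = 0 ∨ i = 1 := by omega
  rcases hi with rfl | rfl
  · rw [zero_mul, add_zero]
    exact h3 x a
  · rw [one_mul]
    have hval : H x (a + H x 0) = a := fin2_fun (H x) (hHne x) a
    have := hH x (a + H x 0)
    rwa [hval] at this

end

end Pool.Agent.KS6_70.EC
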