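import Pool.Agent.KS6_70.EC.StageC
import Pool.Graph.R_seed8.R993.EC.Stage4

/-! The parity, and the correlations as probabilities of atoms. -/

set_option autoImplicit false

open Filter Topology

namespace Pool.Agent.KS6_70.EC

open Pool.Agent.R993.EC (pr Hs sg sg_cases)

section
variable {k : ℕ → Fin 5 → Type} [∀ n a, Fintype (k n a)] {P : ∀ n, Pt (k n) → ℝ}
  {𝒰 : Ultrafilter ℕ} {hv : Finset (Fin 5) → ℝ}
  (h : Setup k P 𝒰 hv) {y : Fin 2 → ∀ n, k n 0} {z : Fin 2 → ∀ n, k n 1}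
  {b : Fin 2 → ∀ n, k n 3} {c : Fin 2 → ∀ n, k n 4} (hy : Two k P 𝒰 0 y) (hz : Two k P 𝒰 1 z)
  (hb : Two k P 𝒰 3 b) (hc : Two k P 𝒰 4 c)
  {α : Fin 2 → Fin 2 → ∀ n, k n 2} {F : Fin 2 → Fin 2}
  (h1 : ∀ x a, Tendsto (fun n => w1 (P n) 2 (α x a n)) 𝒰 (𝓝 (1 / 4)))
  (h2 : ∀ x a, AX P 𝒰 y z (α x a) x) (h3 : ∀ x a i, AG P 𝒰 y b c (α x a) i (a + i * F x))
  (h4 : ∀ᶠ n in (𝒰 : Filter ℕ), ∀ p q : Fin 2 × Fin 2, α p.1 p.2 n = α q.1 q.2 n → p = q)
include h hy hb h3 h4

theorem Setup.F_ne_zero : ¬ ∀ x, F x = 0 := by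
  intro hF
  obtain ⟨t, -⟩ := h.pts
  have h5 := spread h.hP h.hlim (S := {2, 3, 4}) (T := {0, 2, 3, 4}) (by decide)
    (fun (q : (Fin 2 × Fin 2) × Fin 2) (i : Fin 2) n => mk5 (y i n) (t n 1) (α q.1.1 q.1.2 n)
      (b q.2 n) (c (q.2 + q.1.2) n))
    (Eventually.of_forall fun n q i j x hx => by fin_cases x <;> first | rfl | simp at hx)
    (by
      filter_upwards [hy.ne, hb.ne, h4] with n g1 g2 g3
      intro q q' i j h'
      exact ⟨Prod.ext (g3 _ _ (h' 2 (by simp))) (inj2 (fun l => b l n) g2 (h' 3 (by simp))),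
        inj2 (fun i => y i n) g1 (h' 0 (by simp))⟩)
    (by norm_num : (0 : ℝ) < 1 / 16) (fun q i => by
      have := h3 q.1.1 q.1.2 i q.2 (fun n => t n 1)
      rw [hF, mul_zero, add_zero] at this
      exact this)
  rw [h.g.q0234, h.g.t234] at h5
  simp only [Fintype.card_fin, Fintype.card_prod] at h5
  push_cast at h5
  have := Real.log_pos one_lt_two
  linarith

include hc in
theorem Setup.F_ne_one : ¬ ∀ x, F x = 1 := by
  intro hF
  obtain ⟨t, -⟩ := h.pts
  let R : (Fin 2 × Fin 2) × (Fin 2 × Fin 2) → ∀ n, Pt (k n) := fun p n =>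
    mk5 (t n 0) (t n 1) (α p.1.1 p.1.2 n) (b p.2.1 n) (c p.2.2 n)
  have hR : ∀ᶠ n in (𝒰 : Filter ℕ), ∀ p p' : (Fin 2 × Fin 2) × (Fin 2 × Fin 2),
      (∀ a ∈ ({2, 3, 4} : Finset (Fin 5)), R p n a = R p' n a) → p = p' := by
    filter_upwards [hb.ne, hc.ne, h4] with n g2 g3 g4
    intro p p' h'
    exact Prod.ext (g4 _ _ (h' 2 (by simp))) (Prod.ext
      (inj2 (fun l => b l n) g2 (h' 3 (by simp))) (inj2 (fun l => c l n) g3 (h' 4 (by simp))))
  have hd : ∀ p, ∃ d, Tendsto (fun n => w (P n) {2, 3, 4} (R p n)) 𝒰 (𝓝 d) := fun p => by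
    obtain ⟨d, -, -, hd⟩ := exists_lim 𝒰 (fun n => w (P n) {2, 3, 4} (R p n))
      (fun n => w_nonneg (h.hP n) _ _) (fun n => w_le_one (h.hP n) (h.hP1 n) _ _)
    exact ⟨d, hd⟩
  choose d hd using hd
  have hge : ∀ p, 1 / 16 ≤ d p := by
    rintro ⟨⟨x, a⟩, ⟨l, m⟩⟩
    have g1 := h3 x a (m + l + a) l (fun n => t n 1)
    have e1 : ∀ m l a : Fin 2, l + (a + (m + l + a) * 1) = m := by decide
    rw [hF, e1] at g1
    refine le_of_tendsto_of_tendsto g1 (hd ((x, a), (l, m))) (Eventually.of_forall fun n => ?_)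
    refine (w_anti (h.hP n) (by decide : ({2, 3, 4} : Finset (Fin 5)) ⊆ {0, 2, 3, 4}) _).trans
      (le_of_eq (w_congr fun i hi => ?_))
    fin_cases i <;> first | rfl | simp at hi
  have hle : ∑ p, d p ≤ 1 := by
    have g1 : ∀ᶠ n in (𝒰 : Filter ℕ), ∑ p, w (P n) {2, 3, 4} (R p n) ≤ 1 := by
      filter_upwards [hR] with n hn
      have := sum_family (h.hP n) (S := ∅) (T := {2, 3, 4}) (fun p => R p n) (t n)
        (fun i a ha => absurd ha (Finset.notMem_empty a)) (Finset.empty_subset _) hn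
      rwa [w_empty (h.hP1 n)] at this
    exact le_of_tendsto (tendsto_finsetSum _ fun p _ => hd p) g1
  have hd16 : ∀ p, d p = 1 / 16 := by
    have g1 : ∑ p : (Fin 2 × Fin 2) × (Fin 2 × Fin 2), (d p - 1 / 16) = 0 := by
      refine le_antisymm ?_ (Finset.sum_nonneg fun p _ => by linarith [hge p])
      rw [Finset.sum_sub_distrib]
      simp only [Finset.sum_const, Finset.card_univ, Fintype.card_prod, Fintype.card_fin]
      norm_num
      exact hle
    intro p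
    have g2 := (Finset.sum_eq_zero_iff_of_nonneg (fun p _ => by linarith [hge p])).1 g1 p
      (Finset.mem_univ p)
    linarith
  have g1 := spread h.hP h.hlim (S := ∅) (T := {2, 3, 4}) (Finset.empty_subset _)
    (fun (_ : Unit) p n => R p n)
    (Eventually.of_forall fun n q p p' a ha => absurd ha (Finset.notMem_empty a))
    (by
      filter_upwards [hR] with n hn
      exact fun q q' p p' h => ⟨rfl, hn p p' h⟩)
    (c := 1 / 16) (by norm_num) (fun _ p => by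
      rw [← hd16 p]
      exact hd p)
  rw [h.g.e, h.g.t234] at g1
  simp only [Fintype.card_unit, Fintype.card_prod, Fintype.card_fin] at g1
  have g2 : ((1 : ℕ) : ℝ) * (((2 * 2 * (2 * 2) : ℕ) : ℝ) *
      (1 / 16 * Real.log ((2 * 2 * (2 * 2) : ℕ) : ℝ))) = 4 * Real.log 2 := by
    rw [show ((2 * 2 * (2 * 2) : ℕ) : ℝ) = 2 ^ 4 by norm_num, Real.log_pow]
    push_cast
    ring
  rw [g2] at g1
  have := Real.log_pos one_lt_two
  linarith

include hc in
theorem Setup.parity : F 0 + F 1 = 1 := by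
  have g1 := h.F_ne_zero hy hb h3 h4
  have g2 := h.F_ne_one hy hb hc h3 h4
  have e : ∀ f : Fin 2 → Fin 2, ¬ (∀ x, f x = 0) → ¬ (∀ x, f x = 1) → f 0 + f 1 = 1 := by decide
  exact e F g1 g2

omit hb h4 in
include h1 h2 in
/-- the atoms of all five variables -/
theorem Setup.full (i j a l : Fin 2) : Tendsto (fun n => w (P n) {0, 1, 2, 3, 4}
    (mk5 (y i n) (z j n) (α (i + j) a n) (b l n) (c (l + (a + i * F (i + j))) n))) 𝒰
    (𝓝 (1 / 16)) := by
  obtain ⟨t, -⟩ := h.pts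
  have g1 := h3 (i + j) a i l (fun n => t n 1)
  obtain ⟨v, hv'⟩ := exmax_lim' (S := {0, 2, 3, 4}) (o := 1) h.hP h.hlim (by decide) (by
    rw [show (insert 1 {0, 2, 3, 4} : Finset (Fin 5)) = {0, 1, 2, 3, 4} by decide, h.g.q0234,
      h.g.r01234]) _ (by norm_num) g1
  rw [show (insert 1 {0, 2, 3, 4} : Finset (Fin 5)) = {0, 1, 2, 3, 4} by decide] at hv'
  have g2 : Tendsto (fun n => w (P n) {0, 1, 2, 3, 4}
      (mk5 (y i n) (v n) (α (i + j) a n) (b l n) (c (l + (a + i * F (i + j))) n))) 𝒰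
      (𝓝 (1 / 16)) := by
    refine hv'.congr fun n => w_mk ?_ ?_ ?_ ?_ ?_ <;> intro hi <;> simp [Function.update, mk5]
  obtain ⟨d, -, -, hd⟩ := exists_lim 𝒰 (fun n => w (P n) {0, 1, 2}
      (mk5 (y i n) (v n) (α (i + j) a n) (b l n) (c (l + (a + i * F (i + j))) n)))
      (fun n => w_nonneg (h.hP n) _ _) (fun n => w_le_one (h.hP n) (h.hP1 n) _ _)
  have g3 := le_of_tendsto_of_tendsto g2 hd
    (Eventually.of_forall fun n => w_anti (h.hP n) (by decide) _)
  have g4 := h.xuniq hy (h1 _ _) (h2 _ _) (by linarith) hd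
  have e1 : ∀ i j : Fin 2, i + (i + j) = j := by decide
  rw [e1] at g4
  exact g2.congr' (g4.mono fun n hn => by rw [hn])

end

section
variable {k : Fin 5 → Type} [∀ a, Fintype (k a)] (P : Pt k → ℝ)

open scoped Classical in
theorem ex_y (y : k 0) : Ex P (fun v _ => if v = y then 1 else 0) (fun _ => 1) (fun _ => 1)
    (fun _ => 1) = w1 P 0 y := by
  unfold Ex w1 pr
  refine Finset.sum_congr rfl fun ω _ => ?_
  by_cases h : ω 0 = y <;> simp [h]

open scoped Classical in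
theorem ex_a (a : k 2) : Ex P (fun _ _ => 1) (fun v => if v = a then 1 else 0) (fun _ => 1)
    (fun _ => 1) = w1 P 2 a := by
  unfold Ex w1 pr
  refine Finset.sum_congr rfl fun ω _ => ?_
  by_cases h : ω 2 = a <;> simp [h]

open scoped Classical in
theorem ex_ya (y : k 0) (z : k 1) (a : k 2) (b : k 3) (c : k 4) :
    Ex P (fun v _ => if v = y then 1 else 0) (fun v => if v = a then 1 else 0) (fun _ => 1)
      (fun _ => 1) = w P {0, 2} (mk5 y z a b c) := by
  unfold Ex w pr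
  refine Finset.sum_congr rfl fun ω _ => ?_
  have e : restr {0, 2} ω = restr {0, 2} (mk5 y z a b c) ↔ ω 0 = y ∧ ω 2 = a := by
    rw [restr_eq]
    simp [mk5]
  simp only [e]
  by_cases h : ω 0 = y <;> by_cases h' : ω 2 = a <;> simp [h, h']

open scoped Classical in
theorem ex_yza (y : k 0) (z : k 1) (a : k 2) (b : k 3) (c : k 4) :
    Ex P (fun v w => if v = y then (if w = z then 0 else 1) else 0)
      (fun v => if v = a then 1 else 0) (fun _ => 1)
      (fun _ => 1) = w P {0, 2} (mk5 y z a b c) - w P {0, 1, 2} (mk5 y z a b c) := by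
  unfold Ex w pr
  rw [← Finset.sum_sub_distrib]
  refine Finset.sum_congr rfl fun ω _ => ?_
  have e : restr {0, 2} ω = restr {0, 2} (mk5 y z a b c) ↔ ω 0 = y ∧ ω 2 = a := by
    rw [restr_eq]
    simp [mk5]
  have e' : restr {0, 1, 2} ω = restr {0, 1, 2} (mk5 y z a b c) ↔
      ω 0 = y ∧ ω 1 = z ∧ ω 2 = a := by
    rw [restr_eq]
    simp [mk5]
  simp only [e, e']
  by_cases h : ω 0 = y <;> by_cases h' : ω 2 = a <;> by_cases h'' : ω 1 = z <;>
    simp [h, h', h'']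

theorem w_full (τ : Pt k) : w P {0, 1, 2, 3, 4} τ = P τ := by
  classical
  unfold w pr
  rw [Finset.sum_eq_single τ]
  · rw [if_pos rfl]
  · intro ω _ hω
    rw [if_neg]
    intro h
    refine hω (funext fun i => restr_eq.1 h i ?_)
    fin_cases i <;> simp
  · exact fun h => absurd (Finset.mem_univ _) h

theorem w01_sum (y : k 0) (z : k 1) (a : k 2) (b : k 3) (c : k 4)
    [∀ ω : Pt k, Decidable (ω 0 = y ∧ ω 1 = z)] : w P {0, 1} (mk5 y z a b c) =
    ∑ ω : Pt k, if ω 0 = y ∧ ω 1 = z then P ω else 0 := by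
  classical
  unfold w pr
  refine Finset.sum_congr rfl fun ω _ => ?_
  have e : restr {0, 1} ω = restr {0, 1} (mk5 y z a b c) ↔ ω 0 = y ∧ ω 1 = z := by
    rw [restr_eq]
    simp [mk5]
  simp only [e]

theorem Ex_add (g : k 0 → k 1 → ℝ) (f f' : k 2 → ℝ) (fB : k 3 → ℝ) (fC : k 4 → ℝ) :
    Ex P g (fun a => f a + f' a) fB fC = Ex P g f fB fC + Ex P g f' fB fC := by
  unfold Ex
  rw [← Finset.sum_add_distrib]
  exact Finset.sum_congr rfl fun ω _ => by ring

theorem Ex_sub (g : k 0 → k 1 → ℝ) (f f' : k 2 → ℝ) (fB : k 3 → ℝ) (fC : k 4 → ℝ) :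
    Ex P g (fun a => f a - f' a) fB fC = Ex P g f fB fC - Ex P g f' fB fC := by
  unfold Ex
  rw [← Finset.sum_sub_distrib]
  exact Finset.sum_congr rfl fun ω _ => by ring

end

end Pool.Agent.KS6_70.EC
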